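import Pool.Agent.H78.KK.Cha

/-!
ROW Noi.  The noise contains a fixed set with a probability between `(1/e)^|P|` and `(gρ/e)^|P|`.

* `noise_le`: copy the proof of `H13.neg_contains` (end of Pool/Agent/H13/MonoHyper.lean): with `Gd = {v : Fin g → Fin ρ → Fin e | ∃ i r, (v i r).val = 0}` one has
  `|Gd| * e ≤ g ρ * e ^ (g ρ)` (union over the `g ρ` pairs `(i, r)`: the number of `v` with `(v i r).val = 0` is `e ^ (g ρ - 1)`; or `Bernoulli` as there: `(1 - 1/e)^(gρ) ≥ 1 - gρ/e`), then `cnt_pi_const`.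
* `noise_ge`: `Neg w ⊇ {x | (w 0 0 x).val = 0}`; the number of `w` with `(w 0 0 x).val = 0` for all `x ∈ P` is `(1/e)^|P|` times the number of all `w`
  (transpose `w` to a function of `x` as in `neg_contains`; `cnt_pi_const` with `Gd' = {v | (v 0 0).val = 0}`, `|Gd'| * e = e ^ (g ρ)`).
* `block_contains`: the number of `ω : Fin J → Ω` with a property of `ω c` alone (`H13.cnt_pi_const` with `T = {c}`, or the product of `Fin J → Ω`; `Function.update` averaging).
-/

namespace Pool.Agent.H78.KK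

open Finset Classical
open H13 (cnt Neg)

variable {X : Type} [Fintype X] [DecidableEq X]

theorem Noi_block {ι γ : Type} [Fintype ι] [DecidableEq ι] [Fintype γ] (i : ι) (P : γ → Prop) :
    cnt (fun f : ι → γ => P (f i)) * Fintype.card γ = cnt P * Fintype.card (ι → γ) := by
  have h := H13.cnt_pi_const (ι := ι) (γ := γ) {i} (univ.filter P)
  rw [Finset.card_singleton, pow_one, pow_one] at h
  have h1 : cnt (fun f : ι → γ => ∀ j ∈ ({i} : Finset ι), f j ∈ univ.filter P) =
      cnt (fun f : ι → γ => P (f i)) := by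
    apply le_antisymm
    · refine H13.cnt_mono (fun f hf => ?_)
      exact H13.mem_ufilter.1 (hf i (Finset.mem_singleton_self i))
    · refine H13.cnt_mono (fun f hf j hj => ?_)
      rw [Finset.mem_singleton] at hj
      rw [hj]
      exact H13.mem_ufilter.2 hf
  rw [h1] at h
  rw [h, Fintype.card_fun, Nat.cast_pow]
  rw [H13.cnt_eq_card P (fun a => inferInstance)]

/-- transposition -/
def Noi_e (X : Type) (g ρ e : ℕ) : (X → (Fin g → Fin ρ → Fin e)) ≃ (Fin g → Fin ρ → X → Fin e) where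
  toFun := fun f i r x => f x i r
  invFun := fun w x i r => w i r x
  left_inv := fun _ => rfl
  right_inv := fun _ => rfl

theorem Noi_tot (g ρ e : ℕ) : (Fintype.card (Fin g → Fin ρ → Fin e) : ℝ) = (e : ℝ) ^ (g * ρ) := by
  simp only [Fintype.card_fun, Fintype.card_fin]
  push_cast
  rw [← pow_mul, mul_comm]

theorem Noi_card (X : Type) [Fintype X] [DecidableEq X] (g ρ e : ℕ) :
    (Fintype.card (Fin g → Fin ρ → X → Fin e) : ℝ) =
      (Fintype.card (Fin g → Fin ρ → Fin e) : ℝ) ^ Fintype.card X := by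
  rw [← Fintype.card_congr (Noi_e X g ρ e), Fintype.card_fun, Nat.cast_pow]

theorem Noi_gd {g ρ q : ℕ} (hq0 : 0 < q) :
    (((univ.filter (fun v : Fin g → Fin ρ → Fin q => ∃ i r, (v i r).val = 0)).card : ℝ)) * q ≤
      ((g * ρ : ℕ) : ℝ) * (Fintype.card (Fin g → Fin ρ → Fin q) : ℝ) := by
  set Gd : Finset (Fin g → Fin ρ → Fin q) := univ.filter (fun v => ∃ i r, (v i r).val = 0) with hGd
  set tot : ℝ := (Fintype.card (Fin g → Fin ρ → Fin q) : ℝ) with htot
  have hq0' : (0 : ℝ) < q := by exact_mod_cast hq0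
  have htotval : tot = (q : ℝ) ^ (g * ρ) := Noi_tot g ρ q
  have h1 : Gd.card + (univ.filter (fun v : Fin g → Fin ρ → Fin q =>
      ¬ ∃ i r, (v i r).val = 0)).card = Fintype.card (Fin g → Fin ρ → Fin q) := by
    rw [hGd, Finset.card_filter_add_card_filter_not, Finset.card_univ]
  have h2 : (univ.filter (fun v : Fin g → Fin ρ → Fin q => ¬ ∃ i r, (v i r).val = 0))
      = Fintype.piFinset (fun _ : Fin g => Fintype.piFinset (fun _ : Fin ρ =>
        (univ.filter (fun c : Fin q => ¬ c.val = 0)))) := by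
    ext v
    simp only [H13.mem_ufilter, Fintype.mem_piFinset]
    push Not
    rfl
  have h3 : (univ.filter (fun c : Fin q => ¬ c.val = 0)).card = q - 1 := by
    have h4 : (univ.filter (fun c : Fin q => c.val = 0)).card
        + (univ.filter (fun c : Fin q => ¬ c.val = 0)).card = q := by
      rw [Finset.card_filter_add_card_filter_not]
      simp
    have h5 : (univ.filter (fun c : Fin q => c.val = 0)) = {⟨0, hq0⟩} := by
      ext c
      rw [Finset.mem_filter, Finset.mem_singleton, Fin.ext_iff]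
      simp
    rw [h5, Finset.card_singleton] at h4
    omega
  have h6 : (Fintype.piFinset (fun _ : Fin g => Fintype.piFinset (fun _ : Fin ρ =>
        (univ.filter (fun c : Fin q => ¬ c.val = 0))))).card = (q - 1) ^ (g * ρ) := by
    rw [Fintype.card_piFinset]
    simp only [Fintype.card_piFinset, h3, Finset.prod_const, Finset.card_univ, Fintype.card_fin]
    rw [← pow_mul, mul_comm]
  rw [h2, h6] at h1
  have h7 : (Gd.card : ℝ) + ((q : ℝ) - 1) ^ (g * ρ) = tot := by
    rw [htot]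
    rw [← h1]
    push_cast [Nat.cast_sub (show 1 ≤ q from hq0)]
    ring
  have hq1 : (1 : ℝ) ≤ q := by exact_mod_cast hq0
  have h9 : (1 : ℝ) + (g * ρ : ℕ) * (-(1 / q)) ≤ (1 + (-(1 / (q : ℝ)))) ^ (g * ρ) := by
    apply one_add_mul_le_pow
    have : 1 / (q : ℝ) ≤ 1 := by rw [div_le_one hq0']; exact hq1
    linarith
  have h12 : ((q : ℝ) - 1) ^ (g * ρ) = (1 + (-(1 / (q : ℝ)))) ^ (g * ρ) * tot := by
    rw [htotval, ← mul_pow]
    congr 1
    field_simp
    ring
  have htot0 : 0 ≤ tot := by rw [htotval]; positivity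
  have h13 : (1 + ((g * ρ : ℕ) : ℝ) * (-(1 / q))) * tot ≤ ((q : ℝ) - 1) ^ (g * ρ) := by
    rw [h12]
    exact mul_le_mul_of_nonneg_right h9 htot0
  have h14 : (Gd.card : ℝ) ≤ ((g * ρ : ℕ) : ℝ) * (1 / q) * tot := by
    have e : (1 + ((g * ρ : ℕ) : ℝ) * (-(1 / q))) * tot =
        tot - ((g * ρ : ℕ) : ℝ) * (1 / q) * tot := by ring
    rw [e] at h13
    linarith
  have h15 := mul_le_mul_of_nonneg_right h14 hq0'.le
  refine h15.trans (le_of_eq ?_)
  field_simp

theorem noise_le {g ρ e : ℕ} (he : 0 < e) (P : Finset X) :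
    cnt (fun w : Fin g → Fin ρ → X → Fin e => P ⊆ Neg w) * (e : ℝ) ^ P.card ≤
      ((g * ρ : ℕ) : ℝ) ^ P.card * Fintype.card (Fin g → Fin ρ → X → Fin e) := by
  rw [H13.cnt_equiv (Noi_e X g ρ e)]
  have hgd := Noi_gd (g := g) (ρ := ρ) he
  set Gd : Finset (Fin g → Fin ρ → Fin e) := univ.filter (fun v => ∃ i r, (v i r).val = 0) with hGd
  have h1 : cnt (fun a => P ⊆ Neg (Noi_e X g ρ e a))
      ≤ cnt (fun f : X → (Fin g → Fin ρ → Fin e) => ∀ x ∈ P, f x ∈ Gd) := by
    apply H13.cnt_mono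
    intro f hf x hx
    have h2 := (H13.mem_Neg _ x).1 (hf hx)
    rw [hGd]
    exact H13.mem_ufilter.2 h2
  have h2 := H13.cnt_pi_const (ι := X) (γ := Fin g → Fin ρ → Fin e) P Gd
  rw [Noi_card X g ρ e]
  set tot : ℝ := (Fintype.card (Fin g → Fin ρ → Fin e) : ℝ) with htot
  have htot0 : 0 < tot := by
    rw [htot, Noi_tot]
    have : (0 : ℝ) < e := by exact_mod_cast he
    positivity
  refine (mul_le_mul_of_nonneg_right h1 (by positivity)).trans ?_
  have h3 : (cnt (fun f : X → (Fin g → Fin ρ → Fin e) => ∀ x ∈ P, f x ∈ Gd) * (e : ℝ) ^ P.card) *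
      tot ^ P.card ≤ (((g * ρ : ℕ) : ℝ) ^ P.card * tot ^ Fintype.card X) * tot ^ P.card := by
    calc (cnt (fun f : X → (Fin g → Fin ρ → Fin e) => ∀ x ∈ P, f x ∈ Gd) * (e : ℝ) ^ P.card) *
        tot ^ P.card
        = (cnt (fun f : X → (Fin g → Fin ρ → Fin e) => ∀ x ∈ P, f x ∈ Gd) * tot ^ P.card) *
          (e : ℝ) ^ P.card := by ring
      _ = ((Gd.card : ℝ) * e) ^ P.card * tot ^ Fintype.card X := by rw [h2, mul_pow]; ring
      _ ≤ (((g * ρ : ℕ) : ℝ) * tot) ^ P.card * tot ^ Fintype.card X :=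
          mul_le_mul_of_nonneg_right (pow_le_pow_left₀ (by positivity) hgd _) (by positivity)
      _ = _ := by rw [mul_pow]; ring
  exact le_of_mul_le_mul_right h3 (by positivity)

theorem Noi_gd' {g ρ e : ℕ} (he : 0 < e) (i : Fin g) (r : Fin ρ) :
    cnt (fun v : Fin g → Fin ρ → Fin e => (v i r).val = 0) * e =
      (Fintype.card (Fin g → Fin ρ → Fin e) : ℝ) := by
  have he0 : (0 : ℝ) < e := by exact_mod_cast he
  have h1 := Noi_block (ι := Fin g) (γ := Fin ρ → Fin e) i (fun row => (row r).val = 0)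
  have h2 := Noi_block (ι := Fin ρ) (γ := Fin e) r (fun c => c.val = 0)
  have h3 : cnt (fun c : Fin e => c.val = 0) = 1 := by
    rw [H13.cnt_eq_card (fun c : Fin e => c.val = 0) (fun a => inferInstance)]
    have h5 : (univ.filter (fun c : Fin e => c.val = 0)) = {⟨0, he⟩} := by
      ext c
      rw [Finset.mem_filter, Finset.mem_singleton, Fin.ext_iff]
      simp
    rw [h5, Finset.card_singleton, Nat.cast_one]
  rw [h3, one_mul, Fintype.card_fin] at h2
  have h4 : (0 : ℝ) < (Fintype.card (Fin ρ → Fin e) : ℝ) := by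
    rw [Fintype.card_fun, Fintype.card_fin, Fintype.card_fin]
    push_cast
    positivity
  have h5 : (cnt (fun v : Fin g → Fin ρ → Fin e => (v i r).val = 0) * e) *
      (Fintype.card (Fin ρ → Fin e) : ℝ) = (Fintype.card (Fin g → Fin ρ → Fin e) : ℝ) *
        (Fintype.card (Fin ρ → Fin e) : ℝ) := by
    calc (cnt (fun v : Fin g → Fin ρ → Fin e => (v i r).val = 0) * e) *
        (Fintype.card (Fin ρ → Fin e) : ℝ)
        = (cnt (fun v : Fin g → Fin ρ → Fin e => (v i r).val = 0) *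
          (Fintype.card (Fin ρ → Fin e) : ℝ)) * e := by ring
      _ = (cnt (fun row : Fin ρ → Fin e => (row r).val = 0) *
          (Fintype.card (Fin g → Fin ρ → Fin e) : ℝ)) * e := by rw [h1]
      _ = (cnt (fun row : Fin ρ → Fin e => (row r).val = 0) * e) *
          (Fintype.card (Fin g → Fin ρ → Fin e) : ℝ) := by ring
      _ = _ := by rw [h2]; ring
  exact mul_right_cancel₀ h4.ne' h5

theorem noise_ge {g ρ e : ℕ} (hg : 1 ≤ g) (hρ : 1 ≤ ρ) (he : 0 < e) (P : Finset X) :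
    (1 / (e : ℝ)) ^ P.card * Fintype.card (Fin g → Fin ρ → X → Fin e) ≤
      cnt (fun w : Fin g → Fin ρ → X → Fin e => P ⊆ Neg w) := by
  rw [H13.cnt_equiv (Noi_e X g ρ e)]
  have he0 : (0 : ℝ) < e := by exact_mod_cast he
  obtain ⟨i, hi⟩ : ∃ i : Fin g, i = ⟨0, hg⟩ := ⟨_, rfl⟩
  obtain ⟨r, hr⟩ : ∃ r : Fin ρ, r = ⟨0, hρ⟩ := ⟨_, rfl⟩
  have hgd := Noi_gd' (g := g) (ρ := ρ) he i r
  set Gd : Finset (Fin g → Fin ρ → Fin e) := univ.filter (fun v => (v i r).val = 0) with hGd
  have hGdc : cnt (fun v : Fin g → Fin ρ → Fin e => (v i r).val = 0) = (Gd.card : ℝ) := by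
    rw [hGd, H13.cnt_eq_card _ (fun a => inferInstance)]
  rw [hGdc] at hgd
  have h1 : cnt (fun f : X → (Fin g → Fin ρ → Fin e) => ∀ x ∈ P, f x ∈ Gd) ≤
      cnt (fun a => P ⊆ Neg (Noi_e X g ρ e a)) := by
    apply H13.cnt_mono
    intro f hf x hx
    have h2 := hf x hx
    rw [hGd] at h2
    have h3 : ((f x) i r).val = 0 := (Finset.mem_filter.1 h2).2
    exact (H13.mem_Neg _ x).2 ⟨i, r, h3⟩
  refine le_trans ?_ h1
  have h2 := H13.cnt_pi_const (ι := X) (γ := Fin g → Fin ρ → Fin e) P Gd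
  rw [Noi_card X g ρ e]
  set tot : ℝ := (Fintype.card (Fin g → Fin ρ → Fin e) : ℝ) with htot
  have htot0 : 0 < tot := by
    rw [htot, Noi_tot]
    positivity
  have h3 : ((1 / (e : ℝ)) ^ P.card * tot ^ Fintype.card X) * tot ^ P.card ≤
      cnt (fun f : X → (Fin g → Fin ρ → Fin e) => ∀ x ∈ P, f x ∈ Gd) * tot ^ P.card := by
    rw [h2]
    have h4 : (Gd.card : ℝ) = 1 / e * tot := by
      rw [← hgd]; field_simp
    rw [h4, mul_pow]
    exact le_of_eq (by ring)
  exact le_of_mul_le_mul_right h3 (by positivity)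

theorem block_contains {Ω : Type} [Fintype Ω] {J : ℕ} (c : Fin J) (P : Ω → Prop) :
    cnt (fun ω : Fin J → Ω => P (ω c)) * Fintype.card Ω =
      cnt P * Fintype.card (Fin J → Ω) :=
  Noi_block c P

end Pool.Agent.H78.KK
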