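import Pool.Agent.H13.MonoHyper

/-!
ROW Cha.  The chain argument.

`Fin J × X` is a union of `J` blocks. `pre N ω j` = noise in the blocks `< j`, `put j y` = the set `y` in the block `j`.
`chain`: the family `M t`, `t ∈ T`, of monotone functions determines `f`; `f` is true as soon as some block contains some `Y α`. `good` is a property which is inherited by subsets
and excludes `f`.
Proof. For each `j` and each `ω` with `good (pre N ω J)` and each `α`: `f (pre N ω j)` fails (`pre N ω j ⊆ pre N ω J`, `hgood`, `hneg`), `f (pre N ω j ∪ put j (Y α))` holds, so by `hf` some `t ∈ T`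
has `M t (pre N ω j ∪ put j (Y α))` and not `M t (pre N ω j)` (the other way round is impossible by monotonicity). So
`|A| cnt (good (pre N ω J)) ≤ Σ_t cnt_{(α, ω)} (M t (pre ∪ put j (Y α)) ∧ ¬ M t (pre))`.
For fixed `t`: (`hBL` with `S₀ = pre N ω j`; the function of `ω` below does not depend on `ω j`)
`cnt_{(α, ω)} (¬ M t (pre N ω j) ∧ M t (pre N ω j ∪ put j (Y α))) ≤ |A| cnt_ω (¬ M t (pre N ω j) ∧ M t (pre N ω (j + 1))) + ε |A| |Ω|^J`:
write both sides as sums over `ω` and average over the coordinate `ω j`: `|Ω| Σ_ω g ω = Σ_ω Σ_w g (update ω j w)` (compare `Pool.Agent.H25.NM.Chain`: `pre_succ`, `pre_update`,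
`nc_update`, `nc_update_prod`, `sum_change_le`, `error_le`, `chain_bound`; there the sets are graphs and the counting function is `nc`, which may be used here inside the proof as well).
Sum over `j`: `Σ_j cnt_ω (¬ M t (pre N ω j) ∧ M t (pre N ω (j+1))) ≤ |Ω|^J` because a monotone function changes at most once along a chain.
Total: `J |A| cnt (good) ≤ |T| (1 + J ε) |A| |Ω|^J`; divide by `|A|`.
-/

namespace Pool.Agent.H78.KK

open Finset Classical
open H13 (cnt)

variable {X : Type} [Fintype X] [DecidableEq X] {Ω A : Type} [Fintype Ω] [Fintype A] {J : ℕ}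

/-- the noise in the blocks below `j` -/
noncomputable def pre (N : Ω → Finset X) (ω : Fin J → Ω) (j : ℕ) : Finset (Fin J × X) :=
  univ.filter fun z => z.1.1 < j ∧ z.2 ∈ N (ω z.1)

/-- the set `y` in the block `j` -/
noncomputable def put (j : Fin J) (y : Finset X) : Finset (Fin J × X) :=
  univ.filter fun z => z.1 = j ∧ z.2 ∈ y

theorem Cha_cnt_eq {β : Type} [Fintype β] (P : β → Prop) [inst : DecidablePred P] :
    cnt P = ∑ z, if P z then (1 : ℝ) else 0 := by
  rw [H13.cnt_eq_card P inst, Finset.card_eq_sum_ones, Finset.sum_filter]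
  push_cast
  rfl

theorem Cha_sum_update {K : Type} [Fintype K] [DecidableEq K] (j : K) (h : (K → Ω) → ℝ) :
    ∑ ω : K → Ω, ∑ y : Ω, h (Function.update ω j y) = (Fintype.card Ω : ℝ) * ∑ ω : K → Ω, h ω := by
  rw [← Fintype.sum_prod_type']
  have e : ∑ p : (K → Ω) × Ω, h (Function.update p.1 j p.2) = ∑ p : (K → Ω) × Ω, h p.1 := by
    refine Finset.sum_bij' (fun p _ => (Function.update p.1 j p.2, p.1 j))
      (fun p _ => (Function.update p.1 j p.2, p.1 j)) ?_ ?_ ?_ ?_ ?_
    · intro p _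
      exact mem_univ _
    · intro p _
      exact mem_univ _
    · intro p _
      ext <;> simp
    · intro p _
      ext <;> simp
    · intro p _
      rfl
  rw [e, Fintype.sum_prod_type]
  simp only [Finset.sum_const, Finset.card_univ, nsmul_eq_mul]
  rw [← Finset.mul_sum]

theorem Cha_cnt_update (j : Fin J) (q : (Fin J → Ω) → Prop) :
    ∑ ω : Fin J → Ω, cnt (fun y => q (Function.update ω j y)) = (Fintype.card Ω : ℝ) * cnt q := by
  rw [Cha_cnt_eq q, ← Cha_sum_update j fun ω : Fin J → Ω => if q ω then (1 : ℝ) else 0]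
  exact Finset.sum_congr rfl fun ω _ => Cha_cnt_eq _

theorem Cha_pre_mono (N : Ω → Finset X) (ω : Fin J → Ω) {j j' : ℕ} (h : j ≤ j') :
    pre N ω j ⊆ pre N ω j' := by
  intro z hz
  unfold pre at hz ⊢
  rw [Finset.mem_filter] at hz ⊢
  exact ⟨hz.1, hz.2.1.trans_le h, hz.2.2⟩

theorem Cha_pre_succ (N : Ω → Finset X) (ω : Fin J → Ω) (j : Fin J) :
    pre N ω (j.1 + 1) = pre N ω j.1 ∪ put j (N (ω j)) := by
  ext z
  unfold pre put
  simp only [Finset.mem_union, Finset.mem_filter, Finset.mem_univ, true_and]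
  constructor
  · rintro ⟨h1, h2⟩
    rcases Nat.lt_succ_iff_lt_or_eq.1 h1 with h3 | h3
    · exact Or.inl ⟨h3, h2⟩
    · right
      have h4 : z.1 = j := Fin.ext h3
      exact ⟨h4, by rw [← h4]; exact h2⟩
  · rintro (⟨h1, h2⟩ | ⟨h1, h2⟩)
    · exact ⟨by omega, h2⟩
    · rw [h1]
      exact ⟨by omega, h2⟩

theorem Cha_pre_update (N : Ω → Finset X) (ω : Fin J → Ω) (j : Fin J) (y : Ω) :
    pre N (Function.update ω j y) j.1 = pre N ω j.1 := by
  ext z
  unfold pre
  simp only [Finset.mem_filter, Finset.mem_univ, true_and]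
  constructor
  · rintro ⟨h1, h2⟩
    refine ⟨h1, ?_⟩
    rwa [Function.update_of_ne (by rintro rfl; exact lt_irrefl _ h1)] at h2
  · rintro ⟨h1, h2⟩
    refine ⟨h1, ?_⟩
    rwa [Function.update_of_ne (by rintro rfl; exact lt_irrefl _ h1)]

/-- a monotone function changes at most once along a chain -/
theorem Cha_change_le (N : Ω → Finset X) {F : Finset (Fin J × X) → Prop} (hF : ∀ x y, x ⊆ y → F x → F y) :
    ∑ j : Fin J, cnt (fun ω : Fin J → Ω => ¬ F (pre N ω j.1) ∧ F (pre N ω (j.1 + 1))) ≤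
      Fintype.card (Fin J → Ω) := by
  have h0 : ∑ j : Fin J, cnt (fun ω : Fin J → Ω => ¬ F (pre N ω j.1) ∧ F (pre N ω (j.1 + 1))) =
      ∑ ω : Fin J → Ω, ∑ j : Fin J, if (¬ F (pre N ω j.1) ∧ F (pre N ω (j.1 + 1))) then (1 : ℝ) else 0 := by
    rw [Finset.sum_comm]
    exact Finset.sum_congr rfl fun j _ => Cha_cnt_eq _
  rw [h0, ← Finset.card_univ, Finset.card_eq_sum_ones]
  push_cast
  refine Finset.sum_le_sum fun ω _ => ?_
  rw [← Finset.sum_filter]
  have h1 : (Finset.univ.filter fun j : Fin J => ¬ F (pre N ω j.1) ∧ F (pre N ω (j.1 + 1))).card ≤ 1 := by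
    rw [Finset.card_le_one]
    intro a ha b hb
    rw [Finset.mem_filter] at ha hb
    rcases lt_trichotomy a.1 b.1 with h | h | h
    · exact absurd (hF _ _ (Cha_pre_mono N ω h) ha.2.2) hb.2.1
    · exact Fin.ext h
    · exact absurd (hF _ _ (Cha_pre_mono N ω h) hb.2.2) ha.2.1
  rw [Finset.sum_const, nsmul_eq_mul, mul_one]
  exact_mod_cast h1

theorem Cha_block (N : Ω → Finset X) (Y : A → Finset X) (hΩ : 0 < Fintype.card Ω)
    (ε : ℝ) (hε : 0 ≤ ε) (F : Finset (Fin J × X) → Prop)
    (hBL : ∀ (j : Fin J) (S₀ : Finset (Fin J × X)),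
      cnt (fun α => F (S₀ ∪ put j (Y α))) * Fintype.card Ω ≤
        Fintype.card A * cnt (fun w => F (S₀ ∪ put j (N w))) +
          ε * Fintype.card A * Fintype.card Ω) (j : Fin J) :
    ∑ ω : Fin J → Ω, cnt (fun α => ¬ F (pre N ω j.1) ∧ F (pre N ω j.1 ∪ put j (Y α))) ≤
      (Fintype.card A : ℝ) * cnt (fun ω : Fin J → Ω => ¬ F (pre N ω j.1) ∧ F (pre N ω (j.1 + 1))) +
        ε * Fintype.card A * Fintype.card (Fin J → Ω) := by
  have hΩ' : (0 : ℝ) < Fintype.card Ω := by exact_mod_cast hΩ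
  have h1 : ∀ ω : Fin J → Ω,
      cnt (fun α => ¬ F (pre N ω j.1) ∧ F (pre N ω j.1 ∪ put j (Y α))) * Fintype.card Ω ≤
        (Fintype.card A : ℝ) * cnt (fun w => ¬ F (pre N (Function.update ω j w) j.1) ∧
          F (pre N (Function.update ω j w) (j.1 + 1))) + ε * Fintype.card A * Fintype.card Ω := by
    intro ω
    have e1 : ∀ w, pre N (Function.update ω j w) (j.1 + 1) = pre N ω j.1 ∪ put j (N w) := by
      intro w
      rw [Cha_pre_succ, Cha_pre_update, Function.update_self]
    simp only [e1, Cha_pre_update]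
    by_cases hG : F (pre N ω j.1)
    · have h2 : cnt (fun α => ¬ F (pre N ω j.1) ∧ F (pre N ω j.1 ∪ put j (Y α))) = 0 := by
        rw [Cha_cnt_eq]
        apply Finset.sum_eq_zero
        intro α _
        rw [if_neg (fun h => h.1 hG)]
      rw [h2, zero_mul]
      have h3 := H13.cnt_nonneg (fun w => ¬ F (pre N ω j.1) ∧ F (pre N ω j.1 ∪ put j (N w)))
      positivity
    · have h2 := hBL j (pre N ω j.1)
      simp only [hG, not_false_eq_true, true_and]
      exact h2
  have h2 := Finset.sum_le_sum fun (ω : Fin J → Ω) (_ : ω ∈ univ) => h1 ω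
  rw [← Finset.sum_mul, Finset.sum_add_distrib, ← Finset.mul_sum,
    Cha_cnt_update j fun ω : Fin J → Ω => ¬ F (pre N ω j.1) ∧ F (pre N ω (j.1 + 1)),
    Finset.sum_const, nsmul_eq_mul, Finset.card_univ] at h2
  refine le_of_mul_le_mul_right (h2.trans (le_of_eq ?_)) hΩ'
  ring

theorem chain {ι : Type} (N : Ω → Finset X) (Y : A → Finset X) (hΩ : 0 < Fintype.card Ω)
    (hA : 0 < Fintype.card A) (ε : ℝ) (hε : 0 ≤ ε) (T : Finset ι)
    (M : ι → Finset (Fin J × X) → Prop) (hM : ∀ t ∈ T, ∀ x y, x ⊆ y → M t x → M t y)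
    (hBL : ∀ t ∈ T, ∀ (j : Fin J) (S₀ : Finset (Fin J × X)),
      cnt (fun α => M t (S₀ ∪ put j (Y α))) * Fintype.card Ω ≤
        Fintype.card A * cnt (fun w => M t (S₀ ∪ put j (N w))) +
          ε * Fintype.card A * Fintype.card Ω)
    (f good : Finset (Fin J × X) → Prop)
    (hf : ∀ x y, (∀ t ∈ T, M t x ↔ M t y) → (f x ↔ f y))
    (hgood : ∀ x y, x ⊆ y → good y → good x) (hneg : ∀ x, good x → ¬ f x)
    (hpos : ∀ S₀ j α, f (S₀ ∪ put j (Y α))) :
    (J : ℝ) * cnt (fun ω : Fin J → Ω => good (pre N ω J)) ≤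
      T.card * (1 + J * ε) * Fintype.card (Fin J → Ω) := by
  have hA' : (0 : ℝ) < Fintype.card A := by exact_mod_cast hA
  -- one block
  have h1 : ∀ j : Fin J, (Fintype.card A : ℝ) * cnt (fun ω : Fin J → Ω => good (pre N ω J)) ≤
      ∑ t ∈ T, ((Fintype.card A : ℝ) * cnt (fun ω : Fin J → Ω =>
        ¬ M t (pre N ω j.1) ∧ M t (pre N ω (j.1 + 1))) + ε * Fintype.card A * Fintype.card (Fin J → Ω)) := by
    intro j
    have h2 : (Fintype.card A : ℝ) * cnt (fun ω : Fin J → Ω => good (pre N ω J)) ≤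
        ∑ t ∈ T, ∑ ω : Fin J → Ω, cnt (fun α => ¬ M t (pre N ω j.1) ∧ M t (pre N ω j.1 ∪ put j (Y α))) := by
      rw [Finset.sum_comm, Cha_cnt_eq, Finset.mul_sum]
      refine Finset.sum_le_sum fun ω _ => ?_
      by_cases hg : good (pre N ω J)
      · rw [if_pos hg, mul_one]
        have h3 : ∀ α, ∃ t ∈ T, ¬ M t (pre N ω j.1) ∧ M t (pre N ω j.1 ∪ put j (Y α)) := by
          intro α
          by_contra hcon
          push Not at hcon
          have hne : ¬ f (pre N ω j.1) := hneg _ (hgood _ _ (Cha_pre_mono N ω j.2.le) hg)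
          refine hne ((hf _ _ ?_).1 (hpos (pre N ω j.1) j α))
          intro t ht
          constructor
          · intro h
            by_contra h'
            exact hcon t ht h' h
          · exact hM t ht _ _ Finset.subset_union_left
        have h4 : (Fintype.card A : ℝ) ≤ cnt (fun α => ∃ t ∈ T, ¬ M t (pre N ω j.1) ∧
            M t (pre N ω j.1 ∪ put j (Y α))) := by
          have h5 : cnt (fun _ : A => True) = (Fintype.card A : ℝ) := by
            simp [H13.cnt]
          rw [← h5]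
          exact H13.cnt_mono fun α _ => h3 α
        exact h4.trans (H13.cnt_exists T fun t α => ¬ M t (pre N ω j.1) ∧ M t (pre N ω j.1 ∪ put j (Y α)))
      · rw [if_neg hg, mul_zero]
        exact Finset.sum_nonneg fun t _ => H13.cnt_nonneg _
    refine h2.trans (Finset.sum_le_sum fun t ht => ?_)
    exact Cha_block N Y hΩ ε hε (M t) (hBL t ht) j
  have h2 : (J : ℝ) * ((Fintype.card A : ℝ) * cnt (fun ω : Fin J → Ω => good (pre N ω J))) ≤
      ∑ j : Fin J, ∑ t ∈ T, ((Fintype.card A : ℝ) * cnt (fun ω : Fin J → Ω =>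
        ¬ M t (pre N ω j.1) ∧ M t (pre N ω (j.1 + 1))) + ε * Fintype.card A * Fintype.card (Fin J → Ω)) := by
    have := Finset.sum_le_sum fun (j : Fin J) (_ : j ∈ univ) => h1 j
    rwa [Finset.sum_const, nsmul_eq_mul, Finset.card_univ, Fintype.card_fin] at this
  have h3 : ∑ j : Fin J, ∑ t ∈ T, ((Fintype.card A : ℝ) * cnt (fun ω : Fin J → Ω =>
        ¬ M t (pre N ω j.1) ∧ M t (pre N ω (j.1 + 1))) + ε * Fintype.card A * Fintype.card (Fin J → Ω)) ≤
      T.card * ((1 + J * ε) * Fintype.card (Fin J → Ω) * Fintype.card A) := by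
    rw [Finset.sum_comm]
    have h4 : ∀ t ∈ T, ∑ j : Fin J, ((Fintype.card A : ℝ) * cnt (fun ω : Fin J → Ω =>
        ¬ M t (pre N ω j.1) ∧ M t (pre N ω (j.1 + 1))) + ε * Fintype.card A * Fintype.card (Fin J → Ω)) ≤
        (1 + J * ε) * Fintype.card (Fin J → Ω) * Fintype.card A := by
      intro t ht
      rw [Finset.sum_add_distrib, Finset.sum_const, nsmul_eq_mul, Finset.card_univ,
        Fintype.card_fin, ← Finset.mul_sum]
      have h5 := mul_le_mul_of_nonneg_left (Cha_change_le N (hM t ht)) hA'.le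
      nlinarith
    refine (Finset.sum_le_sum h4).trans (le_of_eq ?_)
    rw [Finset.sum_const, nsmul_eq_mul]
  have h5 := h2.trans h3
  refine le_of_mul_le_mul_right ?_ hA'
  nlinarith

end Pool.Agent.H78.KK
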