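import Pool.Agent.H78.KK.Defs
import Pool.Agent.H78.KK.Cha
import Pool.Agent.H95.MT.Gts

/-!
Monotone gates as functions of one block.
-/

namespace Pool.Agent.H78.KK

open Finset Classical
open H13 (cnt Neg)
open Pool.Agent.H95.MT (DGate)

theorem MonoGate.mono {n s p q : ℕ} {val : Fin s → SimpleGraph (Fin n) → ℝ}
    (h : ∀ i, MonoGate val p q i) {G G' : SimpleGraph (Fin n)} (hG : G ≤ G') (i : Fin s) :
    val i G ≤ val i G' := by
  induction i using WellFoundedLT.induction with
  | _ i ih =>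
    rcases h i with ⟨u, v, huv⟩ | hi | hi
    · by_cases h1 : G.Adj u v
      · rw [(huv G).1 h1, (huv G').1 (hG h1)]
      · rw [(huv G).2 h1]
        by_cases h2 : G'.Adj u v
        · rw [(huv G').1 h2]
          norm_num
        · rw [(huv G').2 h2]
    · obtain ⟨S, _, hS, hv⟩ := hi G'
      exact hv G fun j hj => ih j (hS j hj)
    · obtain ⟨S, _, hS, hv⟩ := hi G
      exact hv G' fun j hj => ih j (hS j hj)

section
variable {n s p q J : ℕ} {X : Type} [Fintype X] [DecidableEq X]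

theorem mem_put {j : Fin J} {y : Finset X} {z : Fin J × X} :
    z ∈ put j y ↔ z.1 = j ∧ z.2 ∈ y := by
  unfold put
  rw [Finset.mem_filter]
  exact ⟨fun h => h.2, fun h => ⟨Finset.mem_univ _, h⟩⟩

theorem put_mono {j : Fin J} {y y' : Finset X} (h : y ⊆ y') : put j y ⊆ put j y' := by
  intro z hz
  rw [mem_put] at hz ⊢
  exact ⟨hz.1, h hz.2⟩

/-- The gates as functions of one block. -/
theorem block_gate {val : Fin s → SimpleGraph (Fin n) → ℝ} (hval : ∀ i, MonoGate val p q i)
    (G : Finset (Fin J × X) → SimpleGraph (Fin n)) (hG : ∀ S S', S ⊆ S' → G S ≤ G S')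
    (hadj : ∀ u v, (∀ S, (G S).Adj u v) ∨ (∀ S, ¬ (G S).Adj u v) ∨
      ∃ e, ∀ S, (G S).Adj u v ↔ e ∈ S) (S₀ : Finset (Fin J × X)) (j : Fin J) (i : Fin s) :
    DGate (fun i x => val i (G (S₀ ∪ put j x))) p q i := by
  have hmono : ∀ x x', x ⊆ x' → G (S₀ ∪ put j x) ≤ G (S₀ ∪ put j x') := fun x x' hx =>
    hG _ _ (Finset.union_subset_union_right (put_mono hx))
  rcases hval i with ⟨u, v, huv⟩ | hi | hi
  · left
    refine ⟨fun x x' hx => MonoGate.mono hval (hmono x x' hx) i, fun x => ?_⟩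
    have hle : ∀ G', val i G' ≤ 1 := by
      intro G'
      by_cases h : G'.Adj u v
      · rw [(huv G').1 h]
      · rw [(huv G').2 h]
        norm_num
    have hge : ∀ G', 0 ≤ val i G' := by
      intro G'
      by_cases h : G'.Adj u v
      · rw [(huv G').1 h]
        norm_num
      · rw [(huv G').2 h]
    rcases hadj u v with h | h | ⟨e, he⟩
    · refine ⟨∅, Finset.empty_subset _, by simp, ?_⟩
      show val i (G (S₀ ∪ put j x)) ≤ val i (G (S₀ ∪ put j ∅))
      rw [(huv (G (S₀ ∪ put j ∅))).1 (h _)]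
      exact hle _
    · refine ⟨∅, Finset.empty_subset _, by simp, ?_⟩
      show val i (G (S₀ ∪ put j x)) ≤ val i (G (S₀ ∪ put j ∅))
      rw [(huv (G (S₀ ∪ put j x))).2 (h _)]
      exact hge _
    · by_cases hx : e ∈ S₀ ∪ put j x
      · rw [Finset.mem_union, mem_put] at hx
        rcases hx with hx | ⟨hx1, hx2⟩
        · refine ⟨∅, Finset.empty_subset _, by simp, ?_⟩
          show val i (G (S₀ ∪ put j x)) ≤ val i (G (S₀ ∪ put j ∅))
          rw [(huv (G (S₀ ∪ put j ∅))).1 ((he _).2 (Finset.mem_union_left _ hx))]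
          exact hle _
        · refine ⟨{e.2}, Finset.singleton_subset_iff.2 hx2, by simp, ?_⟩
          show val i (G (S₀ ∪ put j x)) ≤ val i (G (S₀ ∪ put j {e.2}))
          rw [(huv (G (S₀ ∪ put j {e.2}))).1 ((he _).2 (Finset.mem_union_right _
            (mem_put.2 ⟨hx1, Finset.mem_singleton_self _⟩)))]
          exact hle _
      · refine ⟨∅, Finset.empty_subset _, by simp, ?_⟩
        show val i (G (S₀ ∪ put j x)) ≤ val i (G (S₀ ∪ put j ∅))
        rw [(huv (G (S₀ ∪ put j x))).2 (fun h => hx ((he _).1 h))]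
        exact hge _
  · right; left
    intro y
    obtain ⟨S, hS, hSi, hv⟩ := hi (G (S₀ ∪ put j y))
    exact ⟨S, hS, hSi, fun y' hy' => hv _ hy'⟩
  · right; right
    intro y
    obtain ⟨S, hS, hSi, hv⟩ := hi (G (S₀ ∪ put j y))
    exact ⟨S, hS, hSi, fun y' hy' => hv _ hy'⟩

end

/-- a threshold test is strict for another threshold, for finitely many values -/
theorem strict_test {Z : Type} [Finite Z] (f : Z → ℝ) (θ : ℝ) : ∃ t, ∀ z, θ ≤ f z ↔ t < f z := by
  have := Fintype.ofFinite Z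
  by_cases h : ∃ z, f z < θ
  · obtain ⟨z₀, hz₀⟩ := h
    have hne : (univ.filter fun z => f z < θ).Nonempty := ⟨z₀, by simpa using hz₀⟩
    obtain ⟨z₁, h1, h2⟩ := Finset.exists_max_image (univ.filter fun z => f z < θ) f hne
    rw [Finset.mem_filter] at h1
    refine ⟨f z₁, fun z => ⟨fun h => h1.2.trans_le h, fun h => ?_⟩⟩
    by_contra hcon
    push Not at hcon
    exact absurd (h2 z (by simpa using hcon)) (not_le.2 h)
  · push Not at h
    exact ⟨θ - 1, fun z => ⟨fun h => by linarith, fun _ => h z⟩⟩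

end Pool.Agent.H78.KK
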