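import Pool.Agent.H95.MT.Star

/-!
Counting the positive inputs that contain a long chain of pieces (version with a base `B`).
-/

namespace Pool.Agent.H78.KK

open Finset Classical
open H13 (cnt)

variable {X : Type} [Fintype X] [DecidableEq X] {A : Type} [Fintype A]

theorem Chn_geom (K0 : ℕ) : ∑ a ∈ Finset.Icc 1 K0, ((1 : ℝ) / 2) ^ a ≤ 1 := by
  have h : ∀ K : ℕ, ∑ a ∈ Finset.Icc 1 K, ((1 : ℝ) / 2) ^ a = 1 - (1 / 2) ^ K := by
    intro K
    induction K with
    | zero => simp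
    | succ K ih =>
      rw [Finset.sum_Icc_succ_top (by omega), ih, pow_succ]
      ring
  rw [h]
  have : (0 : ℝ) ≤ (1 / 2) ^ K0 := by positivity
  linarith

theorem Chn_sum (K0 : ℕ) (p R Q B : ℝ) (hp : 1 ≤ p) (hR : 1 ≤ R) (hB : 1 ≤ B)
    (hQ : 2 * B * p * R ≤ Q)
    (M : Finset (Finset X)) (h1 : ∀ Z ∈ M, Z.Nonempty ∧ Z.card ≤ K0)
    (h2 : ∀ a, a ≤ K0 → ((M.filter (fun Z => Z.card = a)).card : ℝ) ≤ p * R ^ a) :
    ∑ Z ∈ M, (B / Q) ^ Z.card ≤ 1 := by
  have hB0 : 0 < B := by linarith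
  have hQ0 : 0 < Q := by
    have : 0 < 2 * B * p * R := by positivity
    linarith
  have hmaps : ∀ Z ∈ M, Z.card ∈ Finset.Icc 1 K0 := by
    intro Z hZ
    rw [Finset.mem_Icc]
    exact ⟨(h1 Z hZ).1.card_pos, (h1 Z hZ).2⟩
  rw [← Finset.sum_fiberwise_of_maps_to hmaps]
  refine le_trans (Finset.sum_le_sum (g := fun a => ((1 : ℝ) / 2) ^ a) ?_) (Chn_geom K0)
  intro a ha
  rw [Finset.mem_Icc] at ha
  have e : ∑ Z ∈ M.filter (fun Z => Z.card = a), (B / Q) ^ Z.card =
      ((M.filter (fun Z => Z.card = a)).card : ℝ) * (B / Q) ^ a := by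
    rw [Finset.sum_congr rfl (g := fun _ => (B / Q) ^ a)]
    · rw [Finset.sum_const, nsmul_eq_mul]
    · intro Z hZ
      rw [(Finset.mem_filter.1 hZ).2]
  rw [e]
  have hb : (B / Q) ≤ 1 / (2 * p * R) := by
    rw [div_le_div_iff₀ hQ0 (by positivity)]
    linarith
  have h3 : (B / Q) ^ a ≤ (1 / (2 * p * R)) ^ a := by
    apply pow_le_pow_left₀ (by positivity) hb
  calc ((M.filter (fun Z => Z.card = a)).card : ℝ) * (B / Q) ^ a
      ≤ (p * R ^ a) * (1 / (2 * p * R)) ^ a := by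
        apply mul_le_mul (h2 a ha.2) h3 (by positivity) (by positivity)
    _ = p * (1 / (2 * p)) ^ a := by
        have : (1 / (2 * p * R)) ^ a = (1 / (2 * p)) ^ a * (1 / R) ^ a := by
          rw [← mul_pow]; congr 1; field_simp
        rw [this]
        have hRa : R ^ a * (1 / R) ^ a = 1 := by
          rw [← mul_pow]; rw [mul_one_div_cancel (by positivity)]; simp
        calc p * R ^ a * ((1 / (2 * p)) ^ a * (1 / R) ^ a) = p * (1 / (2 * p)) ^ a * (R ^ a * (1 / R) ^ a) := by ring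
          _ = _ := by rw [hRa, mul_one]
    _ ≤ (1 / 2) ^ a := by
        obtain ⟨b, rfl⟩ : ∃ b, a = b + 1 := ⟨a - 1, by omega⟩
        have h4 : (1 / (2 * p)) ≤ 1 / 2 := by
          rw [div_le_div_iff₀ (by positivity) (by norm_num)]
          linarith
        have h5 : (1 / (2 * p)) ^ b ≤ (1 / 2) ^ b := pow_le_pow_left₀ (by positivity) h4 b
        calc p * (1 / (2 * p)) ^ (b + 1) = (1 / 2) * (1 / (2 * p)) ^ b := by
              rw [pow_succ]; field_simp
          _ ≤ (1 / 2) * (1 / 2) ^ b := by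
              apply mul_le_mul_of_nonneg_left h5 (by norm_num)
          _ = _ := by rw [pow_succ]; ring

theorem Chn_pow {B : ℝ} (hB : 1 ≤ B) (m a : ℕ) : (1 / B) ^ (m - a) ≤ B ^ a * (1 / B) ^ m := by
  have hB0 : 0 < B := by linarith
  have h1 : (1 / B) ^ ((m - a) + a) ≤ (1 / B) ^ m :=
    pow_le_pow_of_le_one (by positivity) (by rw [div_le_one hB0]; exact hB) (by omega)
  rw [pow_add] at h1
  have h2 : B ^ a * (1 / B) ^ a = 1 := by
    rw [← mul_pow, mul_one_div_cancel hB0.ne', one_pow]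
  calc (1 / B) ^ (m - a) = B ^ a * ((1 / B) ^ (m - a) * (1 / B) ^ a) := by
        calc (1 / B) ^ (m - a) = (1 / B) ^ (m - a) * (B ^ a * (1 / B) ^ a) := by rw [h2, mul_one]
          _ = _ := by ring
    _ ≤ B ^ a * (1 / B) ^ m := mul_le_mul_of_nonneg_left h1 (by positivity)

theorem chain_count (Y : A → Finset X) (P : A → Prop) (L K0 : ℕ) (p R Q B : ℝ) (hp : 1 ≤ p)
    (hR : 1 ≤ R) (hB : 1 ≤ B) (hQ : 2 * B * p * R ≤ Q)
    (hpos : ∀ S : Finset X, S.card ≤ L + K0 → cnt (fun α => S ⊆ Y α) * Q ^ S.card ≤ Fintype.card A)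
    (𝓜 : Finset X → Finset (Finset X))
    (hM1 : ∀ U : Finset X, U.card ≤ L → ∀ Z ∈ 𝓜 U, Z.Nonempty ∧ Disjoint U Z ∧ Z.card ≤ K0)
    (hM2 : ∀ U : Finset X, U.card ≤ L → ∀ a, a ≤ K0 →
      (((𝓜 U).filter (fun Z => Z.card = a)).card : ℝ) ≤ p * R ^ a)
    (hP : ∀ α, P α → ∀ U : Finset X, U.card ≤ L → U ⊆ Y α → ∃ Z ∈ 𝓜 U, Z ⊆ Y α) :
    cnt P ≤ (1 / B) ^ (L + 1) * Fintype.card A := by
  have hB0 : 0 < B := by linarith
  have hQ0 : 0 < Q := by
    have : 0 < 2 * B * p * R := by positivity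
    linarith
  have key : ∀ m : ℕ, ∀ U : Finset X, L + 1 ≤ U.card + m → U.card ≤ L + K0 →
      cnt (fun α => P α ∧ U ⊆ Y α) * Q ^ U.card ≤ (1 / B) ^ (L + 1 - U.card) * Fintype.card A := by
    intro m
    induction m with
    | zero =>
      intro U h1 h2
      have e : L + 1 - U.card = 0 := by omega
      rw [e, pow_zero, one_mul]
      refine le_trans (mul_le_mul_of_nonneg_right (H13.cnt_mono (fun α h => h.2)) (by positivity)) (hpos U h2)
    | succ m ih =>
      intro U h1 h2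
      by_cases hU : L + 1 ≤ U.card
      · have e : L + 1 - U.card = 0 := by omega
        rw [e, pow_zero, one_mul]
        refine le_trans (mul_le_mul_of_nonneg_right (H13.cnt_mono (fun α h => h.2)) (by positivity)) (hpos U h2)
      · have hUL : U.card ≤ L := by omega
        have step1 : cnt (fun α => P α ∧ U ⊆ Y α) ≤
            ∑ Z ∈ 𝓜 U, cnt (fun α => P α ∧ (U ∪ Z) ⊆ Y α) := by
          refine le_trans (H13.cnt_mono (Q := fun α => ∃ Z ∈ 𝓜 U, P α ∧ (U ∪ Z) ⊆ Y α) ?_) ?_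
          · rintro α ⟨hb, hu⟩
            obtain ⟨Z, hZ, hZY⟩ := hP α hb U hUL hu
            exact ⟨Z, hZ, hb, Finset.union_subset hu hZY⟩
          · exact H13.cnt_exists _ _
        have step2 : ∀ Z ∈ 𝓜 U, cnt (fun α => P α ∧ (U ∪ Z) ⊆ Y α) * Q ^ U.card ≤
            (B / Q) ^ Z.card * ((1 / B) ^ (L + 1 - U.card) * Fintype.card A) := by
          intro Z hZ
          obtain ⟨hne, hd, hc⟩ := hM1 U hUL Z hZ
          have hcard : (U ∪ Z).card = U.card + Z.card := Finset.card_union_of_disjoint hd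
          have hZ1 : 1 ≤ Z.card := hne.card_pos
          have h3 := ih (U ∪ Z) (by omega) (by omega)
          rw [hcard, pow_add] at h3
          have h4 : (1 / B) ^ (L + 1 - (U.card + Z.card)) ≤ B ^ Z.card * (1 / B) ^ (L + 1 - U.card) := by
            have := Chn_pow hB (L + 1 - U.card) Z.card
            rwa [Nat.sub_sub] at this
          have hQZ : 0 < Q ^ Z.card := by positivity
          have e : (B / Q) ^ Z.card = B ^ Z.card / Q ^ Z.card := by rw [div_pow]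
          rw [e]
          rw [div_mul_eq_mul_div, le_div_iff₀ hQZ]
          calc cnt (fun α => P α ∧ (U ∪ Z) ⊆ Y α) * Q ^ U.card * Q ^ Z.card
              = cnt (fun α => P α ∧ (U ∪ Z) ⊆ Y α) * (Q ^ U.card * Q ^ Z.card) := by ring
            _ ≤ (1 / B) ^ (L + 1 - (U.card + Z.card)) * Fintype.card A := h3
            _ ≤ (B ^ Z.card * (1 / B) ^ (L + 1 - U.card)) * Fintype.card A :=
                mul_le_mul_of_nonneg_right h4 (Nat.cast_nonneg _)
            _ = B ^ Z.card * ((1 / B) ^ (L + 1 - U.card) * Fintype.card A) := by ring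
        have hs : ∑ Z ∈ 𝓜 U, (B / Q) ^ Z.card ≤ 1 :=
          Chn_sum K0 p R Q B hp hR hB hQ (𝓜 U)
            (fun Z hZ => ⟨(hM1 U hUL Z hZ).1, (hM1 U hUL Z hZ).2.2⟩) (hM2 U hUL)
        calc cnt (fun α => P α ∧ U ⊆ Y α) * Q ^ U.card
            ≤ (∑ Z ∈ 𝓜 U, cnt (fun α => P α ∧ (U ∪ Z) ⊆ Y α)) * Q ^ U.card :=
              mul_le_mul_of_nonneg_right step1 (by positivity)
          _ = ∑ Z ∈ 𝓜 U, cnt (fun α => P α ∧ (U ∪ Z) ⊆ Y α) * Q ^ U.card := by rw [Finset.sum_mul]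
          _ ≤ ∑ Z ∈ 𝓜 U, (B / Q) ^ Z.card * ((1 / B) ^ (L + 1 - U.card) * Fintype.card A) :=
              Finset.sum_le_sum step2
          _ = (∑ Z ∈ 𝓜 U, (B / Q) ^ Z.card) * ((1 / B) ^ (L + 1 - U.card) * Fintype.card A) := by
              rw [Finset.sum_mul]
          _ ≤ 1 * ((1 / B) ^ (L + 1 - U.card) * Fintype.card A) :=
              mul_le_mul_of_nonneg_right hs (by positivity)
          _ = _ := one_mul _
  have h := key (L + 1) ∅ (by simp) (by simp)
  simp only [Finset.card_empty, pow_zero, mul_one, Nat.sub_zero, Finset.empty_subset, and_true] at h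
  exact h

end Pool.Agent.H78.KK
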