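import Pool.Agent.H78.KK.Gts

/-!
ROW Cmp.  A small monotone circuit does not see the planted input better than the noise.

Let `P` be the fraction of positive inputs `Y α` with `t < h out`, `W` the fraction of noise inputs `N w` with `t < h out`. Then `P ≤ W + 2 s (1/B)^L`.
Proof. Take `F, BP, BN` from `gates` with `m = s`, and `𝓕 = lev K (F out) t` (closed: `hF out t`).
* Case `acc 𝓕 ∅`: for `w ∉ BN`, `t < star K (F out) (N w) ≤ h out (N w)` (as in `Pool.Agent.H95.MT.core`), so `W ≥ 1 - s (1/B)^L` and `P ≤ 1`.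
* Otherwise let `G = {Z | Z.card ≤ K, acc 𝓕 Z}` and `𝓜 = (mins G).filter (card ≤ L)`; as in `Pool.Agent.H95.MT.next_pieces` (with `U = ∅`; copy its proof and keep the extra
  information `acc 𝓕 Z` for `Z ∈ 𝓜`): every `Z ∈ 𝓜` is nonempty, at most `R ^ a` members of size `a`, every `W' ∈ 𝓕` with `≤ L` elements contains a member.
  `α ∉ BP`, `t < h out (Y α)`: `t < star L (F out) (Y α)`, so some `W' ∈ 𝓕`, `|W'| ≤ L`, `W' ⊆ Y α`, so some `Z ∈ 𝓜`, `Z ⊆ Y α`.
  Hence `cnt (t < h out (Y α)) ≤ cnt BP + Σ_{Z ∈ 𝓜} cnt (Z ⊆ Y α) ≤ s (1/B)^L |A| + Σ_a R^a Q^(-a) |A|` (sum over the `a ∈ Icc 1 L` for which there is a member of size `a`).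
  If `Z ∈ 𝓜` has size `a`, then `Z ⊆ N w` implies `acc 𝓕 (N w)`, so `w ∈ BN` or `t < h out (N w)`: `σ^a |Ω| ≤ cnt (Z ⊆ N w) ≤ W |Ω| + s (1/B)^L |Ω|`.
  So `R^a Q^(-a) ≤ (σ/2)^a ≤ (1/2)^a (W + s (1/B)^L)`, and `Σ_a (1/2)^a ≤ 1` (`Chn_geom`).
-/

namespace Pool.Agent.H78.KK

open Finset Classical
open H13 (cnt acc Closed)
open Pool.Agent.H95.MT (star lev Cl le_star star_eq star_mono star_le acc_lev mem_lev DGate)

variable {X : Type} [Fintype X] [DecidableEq X] {Ω A : Type} [Fintype Ω] [Fintype A]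

/-- the minimal pieces, with the information that they are accepted -/
theorem Cmp_pieces (N : Ω → Finset X) (K : ℕ) (δ R : ℝ) (hR : 1 ≤ R)
    (hcover : ∀ J : Finset (Finset X), J.Nonempty → (∀ S ∈ J, S.card ≤ K) →
      (∀ U : Finset X, ((J.filter (fun S => U ⊆ S)).card : ℝ) * R ^ U.card ≤ J.card) →
      cnt (fun w => ∀ S ∈ J, ¬ S ⊆ N w) ≤ δ * Fintype.card Ω)
    (𝓕 : Finset (Finset X)) (hcl : Closed N K δ 𝓕) (hacc : ¬ acc 𝓕 ∅)
    (K0 : ℕ) (hK : K0 ≤ K) :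
    ∃ 𝓜 : Finset (Finset X), (∀ Z ∈ 𝓜, (Z.Nonempty ∧ Z.card ≤ K0) ∧ acc 𝓕 Z) ∧
      (∀ a, a ≤ K0 → ((𝓜.filter (fun Z => Z.card = a)).card : ℝ) ≤ R ^ a) ∧
      ∀ W ∈ 𝓕, W.card ≤ K0 → ∃ Z ∈ 𝓜, Z ⊆ W := by
  set G : Finset (Finset X) := univ.filter (fun Z => Z.card ≤ K ∧ acc 𝓕 Z) with hG
  have hmG : ∀ Z, Z ∈ G ↔ Z.card ≤ K ∧ acc 𝓕 Z := by
    intro Z
    rw [hG, mem_filter]
    simp
  have hclG : Closed N K δ G := by
    intro T hT hcnt
    refine ⟨T, (hmG T).2 ⟨hT, ?_⟩, Finset.Subset.refl _⟩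
    apply hcl T hT
    refine le_trans (H13.cnt_mono fun w hw => ?_) hcnt
    intro h
    obtain ⟨Z, hZ, hZs⟩ := h
    obtain ⟨S, hS, hSs⟩ := ((hmG Z).1 hZ).2
    exact hw ⟨S, hS, hSs.trans hZs⟩
  refine ⟨(H13.mins G).filter (fun Z => Z.card ≤ K0), ?_, ?_, ?_⟩
  · intro Z hZ
    rw [mem_filter, H13.mem_mins] at hZ
    obtain ⟨⟨hZG, hmin⟩, hZc⟩ := hZ
    refine ⟨⟨?_, hZc⟩, ((hmG Z).1 hZG).2⟩
    rw [Finset.nonempty_iff_ne_empty]
    rintro rfl
    exact hacc ((hmG ∅).1 hZG).2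
  · intro a ha
    have h1 : ((H13.mins G).filter (fun Z => Z.card ≤ K0)).filter (fun Z => Z.card = a) =
        (H13.mins G).filter (fun Z => Z.card = a) := by
      ext Z
      simp only [mem_filter]
      constructor
      · rintro ⟨⟨h, _⟩, h2⟩
        exact ⟨h, h2⟩
      · rintro ⟨h, h2⟩
        exact ⟨⟨h, by omega⟩, h2⟩
    rw [h1]
    exact H13.mins_count N K δ R hR hcover G hclG a (by omega)
  · intro W hW hWc
    have hWG : W ∈ G := (hmG W).2 ⟨by omega, W, hW, Finset.Subset.refl _⟩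
    obtain ⟨Z, hZ, hZW⟩ := H13.acc_mins G W ⟨W, hWG, Finset.Subset.refl _⟩
    exact ⟨Z, mem_filter.2 ⟨hZ, (card_le_card hZW).trans hWc⟩, hZW⟩

/-- one piece -/
theorem Cmp_piece {R Q σ a o c c' V : ℝ} {k : ℕ} (hR : 1 ≤ R) (hσ : 0 < σ) (hσQ : 2 * R ≤ Q * σ)
    (ha : 0 < a) (ho : 0 < o) (hc0 : 0 ≤ c) (hc : c * Q ^ k ≤ a) (hc' : σ ^ k * o ≤ c')
    (hV : c' ≤ V) : c * o ≤ a * V * (1 / (2 * R)) ^ k := by
  have hQσ : 0 < Q * σ := by linarith
  have hQ : 0 < Q := by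
    by_contra hcon
    push Not at hcon
    nlinarith
  have h1 : (2 * R) ^ k ≤ (Q * σ) ^ k := pow_le_pow_left₀ (by linarith) hσQ k
  have h2 : 0 < (2 * R) ^ k := by positivity
  rw [one_div, inv_pow, ← div_eq_mul_inv, le_div_iff₀ h2]
  have h3 : c * Q ^ k * (σ ^ k * o) ≤ a * V := by
    refine mul_le_mul hc (hc'.trans hV) (by positivity) ha.le
  calc c * o * (2 * R) ^ k ≤ c * o * (Q * σ) ^ k := mul_le_mul_of_nonneg_left h1 (by positivity)
    _ = c * Q ^ k * (σ ^ k * o) := by rw [mul_pow]; ring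
    _ ≤ a * V := h3

theorem compare {N : Ω → Finset X} {Y : A → Finset X} {L K : ℕ} {R Q B δ σ : ℝ} {p q : ℕ}
    (hD : Data N Y L K (p : ℝ) R Q B δ) (hq : 1 ≤ q) (hK : (q + 1) * L ≤ K) (hσ : 0 < σ)
    (hlow : ∀ S : Finset X, S.card ≤ L → σ ^ S.card * Fintype.card Ω ≤ cnt (fun w => S ⊆ N w))
    (hσQ : 2 * R ≤ Q * σ) {s : ℕ} (h : Fin s → Finset X → ℝ) (hg : ∀ i, DGate h p q i)
    (out : Fin s) (t : ℝ) :
    cnt (fun α => t < h out (Y α)) * Fintype.card Ω ≤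
      Fintype.card A * cnt (fun w => t < h out (N w)) +
        2 * s * (1 / B) ^ L * Fintype.card A * Fintype.card Ω := by
  obtain ⟨F, BP, BN, hF, hBP, hBN, hP, hN⟩ := gates hD hq hK h hg s
  have hA : (0 : ℝ) < Fintype.card A := by exact_mod_cast hD.hA
  have hΩ : (0 : ℝ) < Fintype.card Ω := by exact_mod_cast hD.hΩ
  have hB0 : 0 < B := by have := hD.hB; linarith
  have h2L : L ≤ K := by
    have : 1 * L ≤ (q + 1) * L := Nat.mul_le_mul_right _ (by omega)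
    omega
  have hW0 := H13.cnt_nonneg (fun w => t < h out (N w))
  obtain ⟨e, he⟩ : ∃ e, e = (1 / B) ^ L := ⟨_, rfl⟩
  have he0 : 0 < e := by rw [he]; positivity
  rw [← he] at hBP hBN ⊢
  have hs0 : (0 : ℝ) ≤ s := Nat.cast_nonneg s
  -- on accepted noise inputs the circuit is large
  have hneg : ∀ w, acc (lev K (F out) t) (N w) → BN w ∨ t < h out (N w) := by
    intro w hw
    by_cases hb : BN w
    · exact Or.inl hb
    · right
      rw [acc_lev] at hw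
      exact hw.trans_le (hN out out.2 w hb)
  by_cases hacc : acc (lev K (F out) t) ∅
  · have h1 : cnt (fun _ : Ω => True) ≤ cnt BN + cnt (fun w => t < h out (N w)) := by
      refine (H13.cnt_mono ?_).trans (H13.cnt_or _ _)
      intro w _
      refine hneg w ?_
      obtain ⟨S, hS, hS2⟩ := hacc
      exact ⟨S, hS, hS2.trans (Finset.empty_subset _)⟩
    rw [H13.cnt_true] at h1
    have h2 := H13.cnt_le_card (fun α => t < h out (Y α))
    have h3 : (Fintype.card Ω : ℝ) ≤ s * (e * Fintype.card Ω) + cnt (fun w => t < h out (N w)) := by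
      linarith
    calc cnt (fun α => t < h out (Y α)) * Fintype.card Ω ≤ Fintype.card A * Fintype.card Ω :=
          mul_le_mul_of_nonneg_right h2 hΩ.le
      _ ≤ Fintype.card A * (s * (e * Fintype.card Ω) + cnt (fun w => t < h out (N w))) :=
          mul_le_mul_of_nonneg_left h3 hA.le
      _ = Fintype.card A * cnt (fun w => t < h out (N w)) +
          s * e * Fintype.card A * Fintype.card Ω := by ring
      _ ≤ _ := by
          have : 0 ≤ s * e * Fintype.card A * Fintype.card Ω := by positivity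
          linarith
  · obtain ⟨𝓜, hM1, hM2, hM3⟩ := Cmp_pieces N K δ R hD.hR hD.hcover _ (hF out t) hacc L h2L
    obtain ⟨V, hV⟩ : ∃ V, V = s * (e * Fintype.card Ω) + cnt (fun w => t < h out (N w)) := ⟨_, rfl⟩
    have hV0 : 0 ≤ V := by rw [hV]; positivity
    have hpiece : ∀ Z ∈ 𝓜, cnt (fun α => Z ⊆ Y α) * Fintype.card Ω ≤
        Fintype.card A * V * (1 / (2 * R)) ^ Z.card := by
      intro Z hZ
      obtain ⟨⟨hZ1, hZ2⟩, hZ3⟩ := hM1 Z hZ
      refine Cmp_piece hD.hR hσ hσQ hA hΩ (H13.cnt_nonneg _) (hD.hpos Z (hZ2.trans h2L))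
        (hlow Z hZ2) ?_
      have h1 : cnt (fun w => Z ⊆ N w) ≤ cnt BN + cnt (fun w => t < h out (N w)) := by
        refine (H13.cnt_mono ?_).trans (H13.cnt_or _ _)
        intro w hw
        refine hneg w ?_
        obtain ⟨S, hS, hS2⟩ := hZ3
        exact ⟨S, hS, hS2.trans hw⟩
      linarith
    have hsum : ∑ Z ∈ 𝓜, (1 / (2 * R)) ^ Z.card ≤ 1 :=
      Chn_sum L 1 R (2 * R) 1 le_rfl hD.hR le_rfl (by linarith) 𝓜 (fun Z hZ => (hM1 Z hZ).1)
        (fun a ha => by rw [one_mul]; exact hM2 a ha)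
    have h1 : cnt (fun α => t < h out (Y α)) ≤ cnt BP + ∑ Z ∈ 𝓜, cnt (fun α => Z ⊆ Y α) := by
      have h2 : cnt (fun α => t < h out (Y α)) ≤ cnt BP + cnt (fun α => ∃ Z ∈ 𝓜, Z ⊆ Y α) := by
        refine (H13.cnt_mono ?_).trans (H13.cnt_or _ _)
        intro α hα
        by_cases hb : BP α
        · exact Or.inl hb
        · right
          have h3 := hα.trans_le (hP out out.2 α hb)
          obtain ⟨W, hW, hWc, he⟩ := star_eq (L := L) (F out) (Y α)
          rw [he] at h3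
          obtain ⟨Z, hZ, hZW⟩ := hM3 W (mem_lev.2 ⟨by omega, h3⟩) hWc
          exact ⟨Z, hZ, hZW.trans hW⟩
      exact h2.trans (by
        have := H13.cnt_exists 𝓜 (fun Z α => Z ⊆ Y α)
        linarith)
    have h4 : (∑ Z ∈ 𝓜, cnt (fun α => Z ⊆ Y α)) * Fintype.card Ω ≤ Fintype.card A * V := by
      rw [Finset.sum_mul]
      refine (Finset.sum_le_sum hpiece).trans ?_
      rw [← Finset.mul_sum]
      exact mul_le_of_le_one_right (by positivity) hsum
    calc cnt (fun α => t < h out (Y α)) * Fintype.card Ω ≤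
        (cnt BP + ∑ Z ∈ 𝓜, cnt (fun α => Z ⊆ Y α)) * Fintype.card Ω :=
          mul_le_mul_of_nonneg_right h1 hΩ.le
      _ = cnt BP * Fintype.card Ω + (∑ Z ∈ 𝓜, cnt (fun α => Z ⊆ Y α)) * Fintype.card Ω := by ring
      _ ≤ s * (e * Fintype.card A) * Fintype.card Ω + Fintype.card A * V :=
          add_le_add (mul_le_mul_of_nonneg_right hBP hΩ.le) h4
      _ = _ := by rw [hV]; ring

end Pool.Agent.H78.KK
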