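import Mathlib

/-!
Circuits on graphs whose gates are real valued monotone functions with small certificates, and a
few arbitrary gates.
-/

namespace Pool.Agent.H78.KK

/-- The gate `i` of a family `val` of real valued functions of a graph is a monotone gate: it is
* a test of one pair: `1` if the two vertices are adjacent, else `0`; or
* a gate with upper certificates of size at most `p`: for every graph `G` there is a set `S` of at
  most `p` earlier gates such that on every graph on which no gate of `S` has a larger value than
  on `G`, the gate itself has no larger value than on `G` (for example any nondecreasing function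
  of at most `p` earlier gates, or the minimum of any number of such functions); or
* a gate with lower certificates of size at most `q`: the same with smaller in place of larger. -/
def MonoGate {n s : ℕ} (val : Fin s → SimpleGraph (Fin n) → ℝ) (p q : ℕ) (i : Fin s) : Prop :=
  (∃ u v, ∀ G, (G.Adj u v → val i G = 1) ∧ (¬ G.Adj u v → val i G = 0)) ∨
  (∀ G, ∃ S : Finset (Fin s), S.card ≤ p ∧ (∀ j ∈ S, j < i) ∧
    ∀ G', (∀ j ∈ S, val j G' ≤ val j G) → val i G' ≤ val i G) ∨
  (∀ G, ∃ S : Finset (Fin s), S.card ≤ q ∧ (∀ j ∈ S, j < i) ∧
    ∀ G', (∀ j ∈ S, val j G ≤ val j G') → val i G ≤ val i G')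

/-- A circuit with `s` gates in topological order on graphs with vertex set `Fin n`; `val i G` is
the value of the gate `i` on the graph `G`. All gates outside a set `special` of at most `r` gates
are monotone gates; a gate in `special` has values `0` and `1` and is an arbitrary function of at
most `t` comparisons of values of earlier gates with real numbers. -/
structure Circuit (n s p q r t : ℕ) where
  /-- the value of a gate on a graph -/
  val : Fin s → SimpleGraph (Fin n) → ℝ
  /-- the arbitrary gates -/
  special : Finset (Fin s)
  card_special : special.card ≤ r
  mono_gate : ∀ i, i ∉ special → MonoGate val p q i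
  special_gate : ∀ i ∈ special, (∀ G, val i G = 0 ∨ val i G = 1) ∧
    ∃ S : Finset (Fin s × ℝ), S.card ≤ t ∧ (∀ x ∈ S, x.1 < i) ∧
      ∀ G G', (∀ x ∈ S, x.2 ≤ val x.1 G ↔ x.2 ≤ val x.1 G') → val i G = val i G'

end Pool.Agent.H78.KK
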