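import Pool.Agent.H13.MonoHyper

/-!
ROW Rs.  The positive inputs: graphs of polynomials with vector values.

`rs_spread`: any `h` evaluations at different points determine the coefficients.
Proof. `Γ = Sym F h`. If no `α` has `S ⊆ YR x α` the count is `0`. Otherwise `Prod.fst` is injective on `S` (two elements with the same first component are equal, as both are on the
graph of this `α`), so `P = S.image Prod.fst` has `S.card` elements.  Choose `P' ⊇ P` with `P'.card = h` (`Finset.exists_superset_card_eq`, `h ≤ M`).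
The map `{α | S ⊆ YR x α} → (↥(P' \ P) → Γ)`, `α ↦ (m ↦ sym x α m)` is injective: if `α, α'` have the same image, then `sym x α m = sym x α' m` for all `m ∈ P'` (on `P` both equal the value given by
`S`), so for all `b, j` the vector `v i = α i b j - α' i b j` satisfies `Σ_i v i * (x m) ^ i = 0` at `h` different points `x m`, `m ∈ P'`, hence `v = 0` by
`Matrix.eq_zero_of_forall_index_sum_mul_pow_eq_zero` (or `..._sum_pow_mul_eq_zero`), enumerating `P'` by `P'.equivFin` / `P'.orderEmbOfFin`.
So `cnt (S ⊆ YR x α) ≤ |Γ| ^ (h - S.card)`, and `|Γ| ^ (h - S.card) * |Γ| ^ S.card = |Γ| ^ h = |Fin h → Γ|`.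
-/

namespace Pool.Agent.H78.KK

open Finset Classical
open H13 (cnt)

/-- symbols: two halves, each a polynomial with `h` coefficients -/
abbrev Sym (F : Type) (h : ℕ) := Fin 2 → Fin h → F

variable {F : Type} [Field F] [Fintype F] [DecidableEq F] {M h : ℕ}

/-- the symbol of the message `α` at the position `m` -/
def sym (x : Fin M → F) (α : Fin h → Sym F h) (m : Fin M) : Sym F h :=
  fun b j => ∑ i : Fin h, α i b j * x m ^ (i : ℕ)

/-- the graph of a codeword -/
def YR (x : Fin M → F) (α : Fin h → Sym F h) : Finset (Fin M × Sym F h) :=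
  univ.image fun m => (m, sym x α m)

theorem Rs_det (x : Fin M → F) (hx : Function.Injective x) (P' : Finset (Fin M)) (hP' : P'.card = h)
    (α α' : Fin h → Sym F h) (hs : ∀ m ∈ P', sym x α m = sym x α' m) : α = α' := by
  funext i b j
  have hv : (fun i => α i b j - α' i b j) = 0 := by
    refine Matrix.eq_zero_of_forall_index_sum_mul_pow_eq_zero (f := fun k => x (P'.orderEmbOfFin hP' k))
      (hx.comp (P'.orderEmbOfFin hP').injective) (fun k => ?_)
    have h1 := congrFun (congrFun (hs _ (P'.orderEmbOfFin_mem hP' k)) b) j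
    simp only [sym] at h1
    simp only [sub_mul, sum_sub_distrib, h1, sub_self]
  have h2 := congrFun hv i
  simpa [sub_eq_zero] using h2

theorem Rs_mem {x : Fin M → F} {α : Fin h → Sym F h} {y : Fin M × Sym F h} (hy : y ∈ YR x α) : y.2 = sym x α y.1 := by
  unfold YR at hy
  obtain ⟨m, -, hm⟩ := mem_image.mp hy
  rw [← hm]

theorem Rs_card (x : Fin M → F) (hx : Function.Injective x) (S : Finset (Fin M × Sym F h)) (P' : Finset (Fin M))
    (hP' : P'.card = h) :
    Fintype.card {α : Fin h → Sym F h // S ⊆ YR x α} ≤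
      Fintype.card (Sym F h) ^ (P' \ S.image Prod.fst).card := by
  have h1 : Fintype.card (↥(P' \ S.image Prod.fst) → Sym F h) =
      Fintype.card (Sym F h) ^ (P' \ S.image Prod.fst).card := by
    rw [Fintype.card_fun, Fintype.card_coe]
  rw [← h1]
  refine Fintype.card_le_of_injective
    (fun α : {α : Fin h → Sym F h // S ⊆ YR x α} => fun m : ↥(P' \ S.image Prod.fst) => sym x α.1 m.1) ?_
  intro α α' hα
  apply Subtype.ext
  refine Rs_det x hx P' hP' α.1 α'.1 (fun m hm => ?_)
  by_cases hmP : m ∈ S.image Prod.fst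
  · obtain ⟨y, hyS, hym⟩ := mem_image.mp hmP
    have e1 := Rs_mem (α.2 hyS)
    have e2 := Rs_mem (α'.2 hyS)
    rw [← hym, ← e1, ← e2]
  · exact congrFun hα ⟨m, mem_sdiff.mpr ⟨hm, hmP⟩⟩

theorem rs_spread (x : Fin M → F) (hx : Function.Injective x) (hM : h ≤ M)
    (S : Finset (Fin M × Sym F h)) (hS : S.card ≤ h) :
    cnt (fun α : Fin h → Sym F h => S ⊆ YR x α) * (Fintype.card (Sym F h) : ℝ) ^ S.card ≤
      Fintype.card (Fin h → Sym F h) := by
  by_cases hex : ∃ α : Fin h → Sym F h, S ⊆ YR x α
  · obtain ⟨α0, hα0⟩ := hex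
    have hinj : Set.InjOn Prod.fst (S : Set (Fin M × Sym F h)) := by
      intro y hy z hz hyz
      have e1 := Rs_mem (hα0 hy)
      have e2 := Rs_mem (hα0 hz)
      refine Prod.ext hyz ?_
      rw [e1, e2, hyz]
    have hPc : (S.image Prod.fst).card = S.card := card_image_of_injOn hinj
    have hPh : (S.image Prod.fst).card ≤ h := by rw [hPc]; exact hS
    have hMh : h ≤ (univ : Finset (Fin M)).card := by rw [card_univ, Fintype.card_fin]; exact hM
    obtain ⟨P', hPP', -, hP'⟩ := exists_subsuperset_card_eq (subset_univ (S.image Prod.fst)) hPh hMh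
    have h1 := Rs_card x hx S P' hP'
    have h2 : (P' \ S.image Prod.fst).card = h - S.card := by
      rw [card_sdiff_of_subset hPP', hP', hPc]
    rw [h2] at h1
    have h3 : cnt (fun α : Fin h → Sym F h => S ⊆ YR x α) =
        (Fintype.card {α : Fin h → Sym F h // S ⊆ YR x α} : ℝ) := by
      unfold H13.cnt
      rw [Fintype.card_subtype]
      congr
    have h4 : Fintype.card (Fin h → Sym F h) = Fintype.card (Sym F h) ^ (h - S.card) * Fintype.card (Sym F h) ^ S.card := by
      rw [← pow_add, Nat.sub_add_cancel hS, Fintype.card_fun, Fintype.card_fin]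
    rw [h3, h4]
    push_cast
    refine mul_le_mul_of_nonneg_right ?_ (by positivity)
    exact_mod_cast h1
  · have h0 : cnt (fun α : Fin h → Sym F h => S ⊆ YR x α) = 0 := H13.cnt_eq_zero (fun α hα => hex ⟨α, hα⟩)
    rw [h0, zero_mul]
    positivity

end Pool.Agent.H78.KK
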