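import Pool.Agent.H78.KK.Cha
import Pool.Agent.H78.KK.Rs

/-!
ROW Gad.  The gadget graph.

Parts: for each half `b : Fin 2` the rows `(b, j)`, `j : Fin T`, and the columns `(b, m)`, `m : Fin M`; every part has the vertices `(c, u)`, `c : Fin I`, `u : Fin h → F`
(a polynomial with `h` coefficients, in the variable of the columns for a row, in the variable of the rows for a column).  In addition `D = k - (2T + 2M)` dummy vertices.
`W = ((Fin 2 × (Fin T ⊕ Fin M)) × (Fin I × (Fin h → F))) ⊕ Fin D` has `I * |F| ^ h * (2T + 2M) + D ≤ n` elements; take an embedding `emb : W ↪ Fin n` and `G S = (GW S).map emb`.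
Adjacency in `GW S` (symmetric):
* dummy and dummy: iff different; dummy and other: yes;
* row `(b, j)` and row `(b', j')`: iff `(b, j) ≠ (b', j')`;
* row `(b, j; c, u)` and column `(b', m; c', v)`: yes if `b ≠ b'`; if `b = b'`: iff `c = c'` and `Σ_i u i * x m ^ i = Σ_i v i * y j ^ i`;
* column `(b, m)` and column `(b', m')`: if `m ≠ m'` yes; if `m = m'` and `b = b'` no; if `m = m'` and, say, `b = 0`, `b' = 1` with labels `(c₀, v₀)`, `(c₁, v₁)`:
  iff `(finProdFinEquiv (c₀, c₁), (m, ![v₀, v₁])) ∈ S`.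
1. monotone: clear. 2. every pair is constant or one element: clear (pairs of `Fin n` not in the range of `emb` are never adjacent).
3. Positive: let `c = finProdFinEquiv (c₀, c₁)`. The vertices row `(b, j)`: label `(c_b, u)`, `u i = Σ_i' α i b i' * y j ^ i'`, column `(b, m)`: label `(c_b, sym x α m b)`, and all dummies
  are a clique of `2T + 2M + D = k` vertices: `Σ_i (Σ_i' α i b i' y_j^i') x_m^i = Σ_i' (Σ_i α i b i' x_m^i) y_j^i'` (`Finset.sum_comm`), and `(c, (m, sym x α m)) ∈ put c (YR x α) ⊆ S`.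
4. Negative: let `s` be a clique of `GW S` with `l` vertices (`emb` reflects). Two vertices in the same part are not adjacent, so `s` misses at most `k - l` of the `k` parts (dummies
  are parts). For `b : Fin 2` let `J_b` be the set of rows hit, `|J_b| ≥ T - (k - l) ≥ h`, with labels `(c_{b,j}, u_{b,j})`; let `P` be the set of all positions `m` such that both columns
  `(0, m)`, `(1, m)` are hit, `|P| ≥ M - (k - l) ≥ 1`, labels `(c'_{b,m}, v_{b,m})`. Row and column of the same half are adjacent, so all `c_{b,j}`, `c'_{b,m}` are equal to one `c_b`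
  (`J_b ≠ ∅` since `h ≥ 1`, `P ≠ ∅`). Choose `h` rows `j_1, ..., j_h` in `J_b`. By interpolation (the Vandermonde matrix of the different points `y j_r` is invertible:
  `Matrix.det_vandermonde_ne_zero_iff`, or `Lagrange.interpolate`; or: the injective linear map `(Fin h → F) → (Fin h → F)`, `a ↦ (Σ_i' a i' y_{j_r}^i')_r` is surjective because `F` is finite) there are
  `α i b i'` with `u_{b,j_r} i = Σ_i' α i b i' * y_{j_r} ^ i'` for all `r, i`. For `m ∈ P`: `Σ_i' v_{b,m} i' y_j^i' = Σ_i u_{b,j} i x_m^i = Σ_i' (Σ_i α i b i' x_m^i) y_j^i'` for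
  the `h` rows `j = j_r`, so `v_{b,m} = sym x α m b` (injectivity). The two columns at `m` are adjacent, so `(c, (m, sym x α m)) ∈ S`.
-/

namespace Pool.Agent.H78.KK

open Finset Classical

section Gad

variable {F : Type} [Field F] [Fintype F] [DecidableEq F] {I h T M D : ℕ}

/-- vertices of the gadget -/
abbrev Gad_W (F : Type) (I h T M D : ℕ) :=
  ((Fin 2 × (Fin T ⊕ Fin M)) × (Fin I × (Fin h → F))) ⊕ Fin D

/-- the adjacency of the gadget -/
def Gad_A (x : Fin M → F) (y : Fin T → F) (S : Finset (Fin (I * I) × (Fin M × Sym F h))) :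
    Gad_W F I h T M D → Gad_W F I h T M D → Prop
  | Sum.inr d, Sum.inr d' => d ≠ d'
  | Sum.inr _, Sum.inl _ => True
  | Sum.inl _, Sum.inr _ => True
  | Sum.inl ((b, Sum.inl j), _), Sum.inl ((b', Sum.inl j'), _) => (b, j) ≠ (b', j')
  | Sum.inl ((b, Sum.inl j), (c, u)), Sum.inl ((b', Sum.inr m), (c', v)) =>
      b ≠ b' ∨ (c = c' ∧ ∑ i, u i * x m ^ (i : ℕ) = ∑ i, v i * y j ^ (i : ℕ))
  | Sum.inl ((b', Sum.inr m), (c', v)), Sum.inl ((b, Sum.inl j), (c, u)) =>
      b ≠ b' ∨ (c = c' ∧ ∑ i, u i * x m ^ (i : ℕ) = ∑ i, v i * y j ^ (i : ℕ))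
  | Sum.inl ((b, Sum.inr m), (c, v)), Sum.inl ((b', Sum.inr m'), (c', v')) =>
      m ≠ m' ∨ (b = 0 ∧ b' = 1 ∧ (finProdFinEquiv (c, c'), (m, ![v, v'])) ∈ S) ∨
        (b = 1 ∧ b' = 0 ∧ (finProdFinEquiv (c', c), (m, ![v', v])) ∈ S)

/-- the part of a vertex -/
def Gad_part : Gad_W F I h T M D → (Fin 2 × (Fin T ⊕ Fin M)) ⊕ Fin D
  | Sum.inr d => Sum.inr d
  | Sum.inl (p, _) => Sum.inl p

private lemma Gad_symm (x : Fin M → F) (y : Fin T → F) (S : Finset (Fin (I * I) × (Fin M × Sym F h)))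
    (a b : Gad_W F I h T M D) (hab : Gad_A x y S a b) : Gad_A x y S b a := by
  rcases a with ⟨⟨b1, j1 | m1⟩, c1, u1⟩ | d1 <;> rcases b with ⟨⟨b2, j2 | m2⟩, c2, u2⟩ | d2 <;>
    simp only [Gad_A] at hab ⊢
  · exact fun e => hab e.symm
  · exact hab
  · exact hab
  · rcases hab with hab | ⟨h1, h2, h3⟩ | ⟨h1, h2, h3⟩
    · exact Or.inl (fun e => hab e.symm)
    · by_cases hm : m1 = m2
      · subst hm; exact Or.inr (Or.inr ⟨h2, h1, h3⟩)
      · exact Or.inl (fun e => hm e.symm)
    · by_cases hm : m1 = m2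
      · subst hm; exact Or.inr (Or.inl ⟨h2, h1, h3⟩)
      · exact Or.inl (fun e => hm e.symm)
  · exact fun e => hab e.symm

private lemma Gad_ne (x : Fin M → F) (y : Fin T → F) (S : Finset (Fin (I * I) × (Fin M × Sym F h)))
    (a b : Gad_W F I h T M D) (hab : Gad_A x y S a b) : Gad_part a ≠ Gad_part b := by
  rcases a with ⟨⟨b1, j1 | m1⟩, c1, u1⟩ | d1 <;> rcases b with ⟨⟨b2, j2 | m2⟩, c2, u2⟩ | d2 <;>
    simp only [Gad_A] at hab <;> simp only [Gad_part, ne_eq, Sum.inl.injEq, Sum.inr.injEq, Prod.mk.injEq,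
      reduceCtorEq, not_false_eq_true, and_false, not_and] at hab ⊢
  · exact hab
  · rcases hab with hab | ⟨h1, h2, _⟩ | ⟨h1, h2, _⟩
    · exact fun _ e => hab e
    · intro e; rw [h1, h2] at e; exact absurd e (by decide)
    · intro e; rw [h1, h2] at e; exact absurd e (by decide)
  · exact hab

/-- the gadget graph on `W` -/
def Gad_G (x : Fin M → F) (y : Fin T → F) (S : Finset (Fin (I * I) × (Fin M × Sym F h))) :
    SimpleGraph (Gad_W F I h T M D) where
  Adj := Gad_A x y S
  symm := ⟨Gad_symm x y S⟩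
  loopless := ⟨fun a ha => Gad_ne x y S a a ha rfl⟩

private lemma Gad_mono (x : Fin M → F) (y : Fin T → F) {S S' : Finset (Fin (I * I) × (Fin M × Sym F h))}
    (hS : S ⊆ S') (a b : Gad_W F I h T M D) (hab : Gad_A x y S a b) : Gad_A x y S' a b := by
  rcases a with ⟨⟨b1, j1 | m1⟩, c1, u1⟩ | d1 <;> rcases b with ⟨⟨b2, j2 | m2⟩, c2, u2⟩ | d2 <;>
    simp only [Gad_A] at hab ⊢
  · exact hab
  · exact hab
  · exact hab
  · rcases hab with hab | ⟨h1, h2, h3⟩ | ⟨h1, h2, h3⟩
    · exact Or.inl hab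
    · exact Or.inr (Or.inl ⟨h1, h2, hS h3⟩)
    · exact Or.inr (Or.inr ⟨h1, h2, hS h3⟩)
  · exact hab

private lemma Gad_one (x : Fin M → F) (y : Fin T → F) (a b : Gad_W F I h T M D) :
    (∀ S, Gad_A x y S a b) ∨ (∀ S, ¬ Gad_A x y S a b) ∨ ∃ e, ∀ S, Gad_A x y S a b ↔ e ∈ S := by
  rcases a with ⟨⟨b1, j1 | m1⟩, c1, u1⟩ | d1 <;> rcases b with ⟨⟨b2, j2 | m2⟩, c2, u2⟩ | d2 <;>
    simp only [Gad_A]
  · by_cases hh : (b1, j1) ≠ (b2, j2)
    · exact Or.inl fun _ => hh
    · exact Or.inr (Or.inl fun _ => hh)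
  · by_cases hh : b1 ≠ b2 ∨ (c1 = c2 ∧ ∑ i, u1 i * x m2 ^ (i : ℕ) = ∑ i, u2 i * y j1 ^ (i : ℕ))
    · exact Or.inl fun _ => hh
    · exact Or.inr (Or.inl fun _ => hh)
  · exact Or.inl fun _ => trivial
  · by_cases hh : b2 ≠ b1 ∨ (c2 = c1 ∧ ∑ i, u2 i * x m1 ^ (i : ℕ) = ∑ i, u1 i * y j2 ^ (i : ℕ))
    · exact Or.inl fun _ => hh
    · exact Or.inr (Or.inl fun _ => hh)
  · by_cases hm : m1 = m2
    · subst hm
      by_cases h1 : b1 = 0 ∧ b2 = 1
      · right; right
        refine ⟨(finProdFinEquiv (c1, c2), (m1, ![u1, u2])), fun S => ?_⟩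
        constructor
        · rintro (h2 | ⟨_, _, h2⟩ | ⟨h3, _, _⟩)
          · exact absurd rfl h2
          · exact h2
          · rw [h1.1] at h3; exact absurd h3 (by decide)
        · intro h2; exact Or.inr (Or.inl ⟨h1.1, h1.2, h2⟩)
      · by_cases h1' : b1 = 1 ∧ b2 = 0
        · right; right
          refine ⟨(finProdFinEquiv (c2, c1), (m1, ![u2, u1])), fun S => ?_⟩
          constructor
          · rintro (h2 | ⟨h3, _, _⟩ | ⟨_, _, h2⟩)
            · exact absurd rfl h2
            · rw [h1'.1] at h3; exact absurd h3 (by decide)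
            · exact h2
          · intro h2; exact Or.inr (Or.inr ⟨h1'.1, h1'.2, h2⟩)
        · right; left
          rintro S (h2 | ⟨h3, h4, _⟩ | ⟨h3, h4, _⟩)
          · exact h2 rfl
          · exact h1 ⟨h3, h4⟩
          · exact h1' ⟨h3, h4⟩
    · exact Or.inl fun _ => Or.inl hm
  · exact Or.inl fun _ => trivial
  · exact Or.inl fun _ => trivial
  · exact Or.inl fun _ => trivial
  · by_cases hh : d1 ≠ d2
    · exact Or.inl fun _ => hh
    · exact Or.inr (Or.inl fun _ => hh)

private lemma Gad_put {I h M : ℕ} (c : Fin (I * I)) (Y : Finset (Fin M × Sym F h)) (z : Fin (I * I) × (Fin M × Sym F h)) :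
    z ∈ put c Y ↔ z.1 = c ∧ z.2 ∈ Y := by
  simp [put]

/-- positive side -/
private lemma Gad_pos (x : Fin M → F) (y : Fin T → F) (S : Finset (Fin (I * I) × (Fin M × Sym F h)))
    (c : Fin (I * I)) (α : Fin h → Sym F h) (hS : put c (YR x α) ⊆ S) :
    ∃ s : Finset (Gad_W F I h T M D), (Gad_G x y S).IsNClique (2 * (T + M) + D) s := by
  obtain ⟨⟨c0, c1⟩, rfl⟩ := finProdFinEquiv.surjective c
  set f : (Fin 2 × (Fin T ⊕ Fin M)) ⊕ Fin D → Gad_W F I h T M D := fun p =>
    match p with
    | Sum.inl (b, Sum.inl j) => Sum.inl ((b, Sum.inl j), (if b = 0 then c0 else c1,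
        fun i => ∑ i', α i b i' * y j ^ (i' : ℕ)))
    | Sum.inl (b, Sum.inr m) => Sum.inl ((b, Sum.inr m), (if b = 0 then c0 else c1, sym x α m b))
    | Sum.inr d => Sum.inr d with hf
  have hpart : ∀ p, Gad_part (f p) = p := by
    rintro (⟨b, j | m⟩ | d) <;> rfl
  have hinj : Function.Injective f := fun p q hpq => by
    rw [← hpart p, ← hpart q, hpq]
  have hswap : ∀ (b : Fin 2) (j : Fin T) (m : Fin M),
      ∑ i : Fin h, (∑ i' : Fin h, α i b i' * y j ^ (i' : ℕ)) * x m ^ (i : ℕ) =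
        ∑ i' : Fin h, sym x α m b i' * y j ^ (i' : ℕ) := by
    intro b j m
    simp only [sym, Finset.sum_mul]
    rw [Finset.sum_comm]
    refine sum_congr rfl fun i' _ => sum_congr rfl fun i _ => ?_
    ring
  have hmem : ∀ m : Fin M, (finProdFinEquiv (c0, c1), (m, ![sym x α m 0, sym x α m 1])) ∈ S := by
    intro m
    refine hS ((Gad_put _ _ _).2 ⟨rfl, ?_⟩)
    simp only [YR, mem_image, mem_univ, true_and]
    refine ⟨m, ?_⟩
    congr 1
    funext b
    fin_cases b <;> rfl
  refine ⟨univ.map ⟨f, hinj⟩, ?_, ?_⟩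
  · rw [SimpleGraph.isClique_iff]
    intro a ha b hb hab
    simp only [coe_map, Function.Embedding.coeFn_mk, coe_univ, Set.image_univ, Set.mem_range] at ha hb
    obtain ⟨p, rfl⟩ := ha
    obtain ⟨q, rfl⟩ := hb
    have hpq : p ≠ q := fun e => hab (by rw [e])
    show Gad_A x y S (f p) (f q)
    rcases p with ⟨b1, j1 | m1⟩ | d1 <;> rcases q with ⟨b2, j2 | m2⟩ | d2 <;>
      simp only [hf, Gad_A]
    · intro e
      simp only [Prod.mk.injEq] at e
      exact hpq (by rw [e.1, e.2])
    · by_cases hb : b1 = b2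
      · subst hb
        exact Or.inr ⟨rfl, hswap b1 j1 m2⟩
      · exact Or.inl hb
    · by_cases hb : b2 = b1
      · subst hb
        exact Or.inr ⟨rfl, hswap b2 j2 m1⟩
      · exact Or.inl hb
    · by_cases hm : m1 = m2
      · subst hm
        have hb : b1 ≠ b2 := fun e => hpq (by rw [e])
        right
        fin_cases b1 <;> fin_cases b2
        · exact absurd rfl hb
        · left; exact ⟨rfl, rfl, hmem m1⟩
        · right; exact ⟨rfl, rfl, hmem m1⟩
        · exact absurd rfl hb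
      · exact Or.inl hm
    · intro e; exact hpq (by rw [e])
  · simp only [card_map, card_univ, Fintype.card_sum, Fintype.card_prod, Fintype.card_fin]

private lemma Gad_interp {T h : ℕ} (y : Fin T → F) (hy : Function.Injective y) (r : Fin h → Fin T)
    (hr : Function.Injective r) (u : Fin h → F) :
    ∃ a : Fin h → F, ∀ t, u t = ∑ i' : Fin h, a i' * y (r t) ^ (i' : ℕ) := by
  set L : (Fin h → F) → (Fin h → F) := fun a t => ∑ i' : Fin h, a i' * y (r t) ^ (i' : ℕ) with hL
  have hinj : Function.Injective L := by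
    intro a b hab
    have h1 : (fun i => a i - b i) = 0 := by
      refine Matrix.eq_zero_of_forall_index_sum_mul_pow_eq_zero (f := fun t => y (r t)) (hy.comp hr) ?_
      intro t
      have h2 : L a t = L b t := congrFun hab t
      simp only [hL] at h2
      simp only [sub_mul, Finset.sum_sub_distrib]
      rw [h2, sub_self]
    funext i
    have := congrFun h1 i
    simpa [sub_eq_zero] using this
  have hsurj : Function.Surjective L := Finite.surjective_of_injective hinj
  obtain ⟨a, ha⟩ := hsurj u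
  exact ⟨a, fun t => by rw [← ha]⟩

private lemma Gad_uniq {T h : ℕ} (y : Fin T → F) (hy : Function.Injective y) (r : Fin h → Fin T)
    (hr : Function.Injective r) (a b : Fin h → F)
    (hab : ∀ t, ∑ i' : Fin h, a i' * y (r t) ^ (i' : ℕ) = ∑ i' : Fin h, b i' * y (r t) ^ (i' : ℕ)) : a = b := by
  have h1 : (fun i => a i - b i) = 0 := by
    refine Matrix.eq_zero_of_forall_index_sum_mul_pow_eq_zero (f := fun t => y (r t)) (hy.comp hr) ?_
    intro t
    simp only [sub_mul, Finset.sum_sub_distrib]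
    rw [hab t, sub_self]
  funext i
  have := congrFun h1 i
  simpa [sub_eq_zero] using this

private lemma Gad_neg (x : Fin M → F) (y : Fin T → F) (hy : Function.Injective y)
    (S : Finset (Fin (I * I) × (Fin M × Sym F h))) {q l : ℕ} (hh : 1 ≤ h) (hT : h + q ≤ T) (hM : q < M)
    (hl : l + q = 2 * (T + M) + D)
    (s : Finset (Gad_W F I h T M D)) (hs : (Gad_G x y S).IsNClique l s) :
    ∃ (c : Fin (I * I)) (α : Fin h → Sym F h) (P : Finset (Fin M)),
        M - q ≤ P.card ∧ put c (P.image fun m => (m, sym x α m)) ⊆ S := by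
  obtain ⟨hcl, hcard⟩ := hs
  have hadj : ∀ a ∈ s, ∀ b ∈ s, a ≠ b → Gad_A x y S a b := fun a ha b hb hab => hcl ha hb hab
  have hpinj : Set.InjOn (Gad_part (F := F) (I := I) (h := h) (T := T) (M := M) (D := D)) (s : Set _) := by
    intro a ha b hb hab
    by_contra hne
    exact Gad_ne x y S a b (hadj a ha b hb hne) hab
  set H : Finset ((Fin 2 × (Fin T ⊕ Fin M)) ⊕ Fin D) := s.image Gad_part with hH
  have hHc : H.card = l := by rw [hH, card_image_of_injOn hpinj, hcard]
  have hHcc : Hᶜ.card = q := by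
    rw [card_compl, hHc]
    simp only [Fintype.card_sum, Fintype.card_prod, Fintype.card_fin]
    omega
  -- hits
  have hhit : ∀ p : Fin 2 × (Fin T ⊕ Fin M), Sum.inl p ∈ H → ∃ c : Fin I, ∃ u : Fin h → F,
      (Sum.inl (p, (c, u)) : Gad_W F I h T M D) ∈ s := by
    intro p hp
    rw [hH, mem_image] at hp
    obtain ⟨a, ha, hap⟩ := hp
    rcases a with ⟨p', c, u⟩ | d
    · simp only [Gad_part, Sum.inl.injEq] at hap
      subst hap
      exact ⟨c, u, ha⟩
    · simp only [Gad_part, reduceCtorEq] at hap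
  set J : Fin 2 → Finset (Fin T) := fun b => univ.filter fun j => Sum.inl (b, Sum.inl j) ∈ H with hJ
  have hJc : ∀ b, h ≤ (J b).card := by
    intro b
    have h1 : (J b)ᶜ.card ≤ Hᶜ.card := by
      refine card_le_card_of_injOn (fun j => Sum.inl (b, Sum.inl j)) ?_ ?_
      · intro j hj
        simp only [hJ, coe_compl, coe_filter, mem_univ, true_and, Set.mem_compl_iff] at hj
        simp only [coe_compl, Set.mem_compl_iff, mem_coe]
        exact hj
      · intro j _ j' _ e
        simpa using e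
    rw [card_compl, Fintype.card_fin] at h1
    have h2 : (J b).card ≤ T := by simpa using card_le_univ (J b)
    omega
  set P : Finset (Fin M) := univ.filter fun m => Sum.inl (0, Sum.inr m) ∈ H ∧ Sum.inl (1, Sum.inr m) ∈ H with hP
  have hPc : M - q ≤ P.card := by
    have h1 : Pᶜ.card ≤ Hᶜ.card := by
      refine card_le_card_of_injOn (fun m => if Sum.inl ((0 : Fin 2), Sum.inr m) ∈ H then Sum.inl (1, Sum.inr m)
        else Sum.inl (0, Sum.inr m)) ?_ ?_
      · intro m hm
        simp only [hP, coe_compl, coe_filter, mem_univ, true_and, Set.mem_compl_iff, Set.mem_setOf_eq, not_and] at hm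
        simp only [coe_compl, Set.mem_compl_iff, mem_coe]
        split_ifs with h0
        · exact hm h0
        · exact h0
      · intro m _ m' _ e
        simp only at e
        split_ifs at e
        · simpa using e
        · simp at e
        · simp at e
        · simpa using e
    rw [card_compl, Fintype.card_fin] at h1
    have h2 : P.card ≤ M := by simpa using card_le_univ P
    omega
  have hPne : P.Nonempty := card_pos.1 (by omega)
  obtain ⟨m0, hm0⟩ := hPne
  have hPcol : ∀ m ∈ P, ∀ b : Fin 2, ∃ c : Fin I, ∃ v : Fin h → F,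
      (Sum.inl ((b, Sum.inr m), (c, v)) : Gad_W F I h T M D) ∈ s := by
    intro m hm b
    simp only [hP, mem_filter, mem_univ, true_and] at hm
    fin_cases b
    · exact hhit _ hm.1
    · exact hhit _ hm.2
  haveI : Nonempty (Fin I) := ⟨(hPcol m0 hm0 0).choose⟩
  choose! cc vv hcv using hPcol
  have hrow : ∀ b : Fin 2, ∀ j ∈ J b, ∃ u : Fin h → F,
      (Sum.inl ((b, Sum.inl j), (cc m0 b, u)) : Gad_W F I h T M D) ∈ s := by
    intro b j hj
    simp only [hJ, mem_filter, mem_univ, true_and] at hj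
    obtain ⟨c, u, hcu⟩ := hhit _ hj
    have h1 := hadj _ hcu _ (hcv m0 hm0 b) (by simp)
    simp only [Gad_A, ne_eq, not_true_eq_false, false_or] at h1
    rw [← h1.1]
    exact ⟨u, hcu⟩
  choose! uu huu using hrow
  -- interpolation nodes
  have hnode : ∀ b : Fin 2, ∃ r : Fin h → Fin T, Function.Injective r ∧ ∀ t, r t ∈ J b := by
    intro b
    obtain ⟨J', hJ', hJ'c⟩ := exists_subset_card_eq (hJc b)
    refine ⟨fun t => (J'.orderEmbOfFin hJ'c t), ?_, ?_⟩
    · exact (J'.orderEmbOfFin hJ'c).injective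
    · intro t; exact hJ' (orderEmbOfFin_mem _ _ _)
  choose r hrinj hrJ using hnode
  have hcoef : ∀ (b : Fin 2) (i : Fin h), ∃ a : Fin h → F, ∀ t, uu b (r b t) i = ∑ i' : Fin h, a i' * y (r b t) ^ (i' : ℕ) :=
    fun b i => Gad_interp y hy (r b) (hrinj b) (fun t => uu b (r b t) i)
  choose aa haa using hcoef
  set α : Fin h → Sym F h := fun i b => aa b i with hα
  -- labels of the columns
  have hcolc : ∀ m ∈ P, ∀ b : Fin 2, cc m b = cc m0 b ∧ vv m b = sym x α m b := by
    intro m hm b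
    have hrel : ∀ t, cc m0 b = cc m b ∧
        ∑ i, uu b (r b t) i * x m ^ (i : ℕ) = ∑ i, vv m b i * y (r b t) ^ (i : ℕ) := by
      intro t
      have h1 := hadj _ (huu b (r b t) (hrJ b t)) _ (hcv m hm b) (by simp)
      simpa only [Gad_A, ne_eq, not_true_eq_false, false_or] using h1
    refine ⟨(hrel ⟨0, hh⟩).1.symm, ?_⟩
    refine Gad_uniq y hy (r b) (hrinj b) _ _ fun t => ?_
    rw [← (hrel t).2]
    calc ∑ i, uu b (r b t) i * x m ^ (i : ℕ)
        = ∑ i : Fin h, (∑ i' : Fin h, aa b i i' * y (r b t) ^ (i' : ℕ)) * x m ^ (i : ℕ) :=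
          sum_congr rfl fun i _ => by rw [haa b i t]
      _ = ∑ i' : Fin h, sym x α m b i' * y (r b t) ^ (i' : ℕ) := by
          simp only [sym, hα, Finset.sum_mul]
          rw [Finset.sum_comm]
          refine sum_congr rfl fun i' _ => sum_congr rfl fun i _ => ?_
          ring
  refine ⟨finProdFinEquiv (cc m0 0, cc m0 1), α, P, hPc, ?_⟩
  intro z hz
  rw [Gad_put] at hz
  obtain ⟨hz1, hz2⟩ := hz
  rw [mem_image] at hz2
  obtain ⟨m, hm, hmz⟩ := hz2
  obtain ⟨z1, z2⟩ := z
  simp only at hz1 hmz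
  subst hz1 hmz
  have h1 := hadj _ (hcv m hm 0) _ (hcv m hm 1) (by simp)
  simp only [Gad_A, ne_eq, not_true_eq_false, false_or, true_and] at h1
  rcases h1 with h1 | h1
  · rw [(hcolc m hm 0).1, (hcolc m hm 1).1, (hcolc m hm 0).2, (hcolc m hm 1).2] at h1
    have h2 : (![sym x α m 0, sym x α m 1] : Sym F h) = sym x α m := by
      funext b
      fin_cases b <;> rfl
    rwa [h2] at h1
  · exact absurd h1.1 (by decide)

end Gad

theorem gadget {F : Type} [Field F] [Fintype F] [DecidableEq F] {I h T M k l n : ℕ} (hh : 1 ≤ h)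
    (hl : l ≤ k) (hT : h + (k - l) ≤ T) (hM : k - l < M) (hk : 2 * T + 2 * M ≤ k)
    (hn : I * Fintype.card F ^ h * (2 * T + 2 * M) + (k - (2 * T + 2 * M)) ≤ n)
    (x : Fin M → F) (y : Fin T → F) (hy : Function.Injective y) :
    ∃ G : Finset (Fin (I * I) × (Fin M × Sym F h)) → SimpleGraph (Fin n),
      (∀ S S', S ⊆ S' → G S ≤ G S') ∧
      (∀ u v, (∀ S, (G S).Adj u v) ∨ (∀ S, ¬ (G S).Adj u v) ∨ ∃ e, ∀ S, (G S).Adj u v ↔ e ∈ S) ∧
      (∀ S c (α : Fin h → Sym F h), put c (YR x α) ⊆ S → ¬ (G S).CliqueFree k) ∧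
      ∀ S, ¬ (G S).CliqueFree l → ∃ (c : Fin (I * I)) (α : Fin h → Sym F h) (P : Finset (Fin M)),
        M - (k - l) ≤ P.card ∧ put c (P.image fun m => (m, sym x α m)) ⊆ S := by
  set D : ℕ := k - (2 * T + 2 * M) with hD
  have hkD : 2 * (T + M) + D = k := by omega
  have hcardW : Fintype.card (Gad_W F I h T M D) ≤ n := by
    simp only [Fintype.card_sum, Fintype.card_prod, Fintype.card_fin, Fintype.card_fun]
    calc 2 * (T + M) * (I * Fintype.card F ^ h) + D = I * Fintype.card F ^ h * (2 * T + 2 * M) + D := by ring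
      _ ≤ n := hn
  obtain ⟨emb⟩ : Nonempty (Gad_W F I h T M D ↪ Fin n) :=
    Function.Embedding.nonempty_of_card_le (by simpa using hcardW)
  refine ⟨fun S => (Gad_G x y S).map emb, ?_, ?_, ?_, ?_⟩
  · intro S S' hS
    exact SimpleGraph.map_monotone emb (fun a b hab => Gad_mono x y hS a b hab)
  · intro u v
    by_cases hu : ∃ a, emb a = u
    · by_cases hv : ∃ b, emb b = v
      · obtain ⟨a, rfl⟩ := hu
        obtain ⟨b, rfl⟩ := hv
        have h1 : ∀ S, ((Gad_G x y S).map emb).Adj (emb a) (emb b) ↔ Gad_A x y S a b :=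
          fun S => SimpleGraph.map_adj_apply
        simp only [h1]
        exact Gad_one x y a b
      · right; left
        intro S hS
        obtain ⟨_, a, b, _, _, hb⟩ := hS
        exact hv ⟨b, hb⟩
    · right; left
      intro S hS
      obtain ⟨_, a, b, _, ha, _⟩ := hS
      exact hu ⟨a, ha⟩
  · intro S c α hS hfree
    obtain ⟨s, hs⟩ := Gad_pos (T := T) (D := D) x y S c α hS
    rw [hkD] at hs
    exact hfree _ hs.map
  · intro S hS
    rw [SimpleGraph.CliqueFree] at hS
    push Not at hS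
    obtain ⟨t, ht⟩ := hS
    have hl1 : 1 < l := by omega
    rw [SimpleGraph.isNClique_map_iff hl1] at ht
    obtain ⟨s, hs, _⟩ := ht
    exact Gad_neg x y hy S hh hT hM (by omega) s hs

end Pool.Agent.H78.KK
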