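import Pool.Agent.H78.KK.Fam
import Pool.Agent.H78.KK.Cmp
import Pool.Agent.H78.KK.Noi
import Pool.Agent.H78.KK.Gad
import Pool.Agent.H78.KK.Blk

/-!
The lower bound with explicit parameters.
-/

namespace Pool.Agent.H78.KK

open Finset Classical
open H13 (cnt Neg)
open Pool.Agent.H95.MT (DGate)

set_option synthInstance.maxSize 1000 in
theorem explicit {F : Type} [Field F] [Fintype F] [DecidableEq F]
    {n k l h T M I g ρ e L p q r t s : ℕ} {B : ℝ}
    (hh : 1 ≤ h) (hl : l ≤ k) (hT : h + (k - l) ≤ T) (hM : k - l < M) (hhM : h ≤ M)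
    (hk : 2 * T + 2 * M ≤ k)
    (hn : I * Fintype.card F ^ h * (2 * T + 2 * M) + (k - (2 * T + 2 * M)) ≤ n)
    (x : Fin M → F) (hx : Function.Injective x) (y : Fin T → F) (hy : Function.Injective y)
    (hg : 1 ≤ g) (hρ : 1 ≤ ρ) (he : 1 ≤ e) (hρh : h < 2 ^ ρ) (hB : 1 ≤ B)
    (hp : 1 ≤ p) (hq : 1 ≤ q) (hL : 1 ≤ L) (hqL : (q + 1) * L ≤ h)
    (h1 : 2 * B * p * (4 * ρ * e) ≤ (Fintype.card F : ℝ) ^ (2 * h))
    (h2 : 2 * (4 * ρ * e) * e ≤ Fintype.card F ^ (2 * h))
    (h3 : ((M * Fintype.card F ^ (2 * h) + 1 : ℕ) : ℝ) ^ h * B ^ h ≤ 2 ^ g)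
    (h4 : 2 * (I * I) * Fintype.card F ^ (2 * h * h) * 2 ^ M * (g * ρ) ^ (M - (k - l)) ≤
      e ^ (M - (k - l)))
    (h5 : 4 * (2 ^ r * (r * t + 1)) ≤ I * I)
    (C : Circuit n s p q r t) (out : Fin s) (θ : ℝ)
    (hC1 : ∀ G, ¬ G.CliqueFree k → θ ≤ C.val out G)
    (hC2 : ∀ G, G.CliqueFree l → ¬ θ ≤ C.val out G) :
    B ^ L ≤ 8 * (2 ^ r * (r * t + 1)) * s := by
  obtain ⟨G, hG1, hG2, hG3, hG4⟩ := gadget (I := I) hh hl hT hM hk hn x y hy
  obtain ⟨tests, hf, htc, hmg, hdet⟩ := family C out θ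
  have hLh : L ≤ h := by
    have : 1 * L ≤ (q + 1) * L := Nat.mul_le_mul_right _ (by omega)
    omega
  have : NeZero e := ⟨by omega⟩
  let X := Fin M × Sym F h
  let A := Fin h → Sym F h
  let Ω := Fin g → Fin ρ → X → Fin e
  let N : Ω → Finset X := fun w => Neg w
  let Y : A → Finset X := fun α => YR x α
  obtain ⟨D, hD⟩ : ∃ D : ℕ, D = Fintype.card F := ⟨_, rfl⟩
  rw [← hD] at hn h1 h2 h3 h4
  have hD1 : 1 ≤ D := hD ▸ Fintype.card_pos
  have hcardΓ : Fintype.card (Sym F h) = D ^ (2 * h) := by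
    simp only [Sym, Fintype.card_fun, Fintype.card_fin]
    rw [← pow_mul, mul_comm, hD]
  have hcardA : Fintype.card (Fin h → Sym F h) = D ^ (2 * h * h) := by
    rw [Fintype.card_fun, Fintype.card_fin, hcardΓ, ← pow_mul]
  have hcardX : Fintype.card (Fin M × Sym F h) = M * D ^ (2 * h) := by
    rw [Fintype.card_prod, Fintype.card_fin, hcardΓ]
  have hB0 : 0 < B := by linarith
  have hρ' : (1 : ℝ) ≤ ρ := by exact_mod_cast hρ
  have he' : (1 : ℝ) ≤ e := by exact_mod_cast he
  have he0 : (0 : ℝ) < e := by linarith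
  have hΩ0 : 0 < Fintype.card Ω := Fintype.card_pos
  have hA0 : 0 < Fintype.card A := Fintype.card_pos
  have hdata : Data N Y L h (p : ℝ) ((4 * ρ : ℝ) * e) ((D : ℝ) ^ (2 * h)) B ((1 / 2) ^ g) :=
    { hL := hL
      hp := by exact_mod_cast hp
      hR := by nlinarith
      hB := hB
      hQ := h1
      hδ := by positivity
      hδ1 := pow_lt_one₀ (by norm_num) (by norm_num) (by omega)
      hΩ := hΩ0
      hA := hA0
      hcover := fun J hJ hsize hsp => H13.neg_cover (by omega) hρ hρh J hJ hsize hsp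
      hpos := fun S hS => by
        have h1 := rs_spread x hx hhM S hS
        rw [hcardΓ] at h1
        push_cast at h1
        exact h1
      hneg := by
        have h6 := H13.card_small_sets (X := X) h
        rw [hcardX] at h6
        have h7 : ((univ.filter (fun T : Finset X => T.card ≤ h)).card : ℝ) ≤
            ((M * D ^ (2 * h) + 1 : ℕ) : ℝ) ^ h := by exact_mod_cast h6
        have h8 : B ^ L ≤ B ^ h := pow_le_pow_right₀ hB hLh
        have h9 : ((univ.filter (fun T : Finset X => T.card ≤ h)).card : ℝ) * B ^ L ≤ 2 ^ g :=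
          (mul_le_mul h7 h8 (by positivity) (by positivity)).trans h3
        rw [div_pow, div_pow, one_pow, one_pow, mul_one_div, div_le_div_iff₀ (by positivity)
          (by positivity)]
        linarith }
  set ε : ℝ := 2 * s * (1 / B) ^ L with hε
  have hε0 : 0 ≤ ε := by positivity
  -- the chain argument
  have hchain := chain (J := I * I) N Y hΩ0 hA0 ε hε0 (C.special.powerset ×ˢ tests)
    (fun z S => z.2.2 ≤ hf z.1 z.2.1 (G S)) (fun z _ S S' hS hz =>
      hz.trans (MonoGate.mono (hmg z.1) (hG1 S S' hS) z.2.1)) (by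
      intro z _ j S₀
      obtain ⟨t', ht'⟩ := strict_test
        (fun y : Finset X => hf z.1 z.2.1 (G (S₀ ∪ put j y))) z.2.2
      have hcmp := compare hdata hq hqL (σ := 1 / (e : ℝ)) (by positivity)
        (fun S _ => noise_ge hg hρ (by omega) S) (by
          rw [mul_one_div, le_div_iff₀ he0]
          have : ((2 * (4 * ρ * e) * e : ℕ) : ℝ) ≤ ((D ^ (2 * h) : ℕ) : ℝ) := by
            exact_mod_cast h2
          push_cast at this
          exact this) (fun i y => hf z.1 i (G (S₀ ∪ put j y)))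
        (fun i => block_gate (hmg z.1) G hG1 hG2 S₀ j i) z.2.1 t'
      have e1 : cnt (fun α => z.2.2 ≤ hf z.1 z.2.1 (G (S₀ ∪ put j (Y α)))) =
          cnt (fun α => t' < hf z.1 z.2.1 (G (S₀ ∪ put j (Y α)))) := by
        congr 1
        funext α
        exact propext (ht' (Y α))
      have e2 : cnt (fun w => z.2.2 ≤ hf z.1 z.2.1 (G (S₀ ∪ put j (N w)))) =
          cnt (fun w => t' < hf z.1 z.2.1 (G (S₀ ∪ put j (N w)))) := by
        congr 1
        funext w
        exact propext (ht' (N w))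
      rw [e1, e2]
      exact hcmp)
    (fun S => θ ≤ C.val out (G S)) (fun S => (G S).CliqueFree l)
    (fun S S' hSS => hdet (G S) (G S') fun v hv z hz =>
      hSS (v, z) (Finset.mem_product.2 ⟨hv, hz⟩))
    (fun S S' hS hS' => hS'.anti (hG1 S S' hS))
    (fun S hS => hC2 _ hS)
    (fun S₀ j α => hC1 _ (hG3 _ j α Finset.subset_union_right))
  -- the noise has no clique
  have hM' : 1 ≤ M - (k - l) := by omega
  have hge : g * ρ ≤ e := by
    have h6 : (g * ρ) ^ (M - (k - l)) ≤ e ^ (M - (k - l)) := by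
      refine le_trans (Nat.le_mul_of_pos_left _ ?_) h4
      have hI0 : 0 < I * I := by
        have : 0 < 2 ^ r * (r * t + 1) := by positivity
        omega
      positivity
    exact (Nat.pow_le_pow_iff_left (by omega)).1 h6
  have hgood : 1 / 2 * (Fintype.card (Fin (I * I) → Ω) : ℝ) ≤
      cnt (fun ω : Fin (I * I) → Ω => (G (pre N ω (I * I))).CliqueFree l) := by
    set tot : ℝ := (Fintype.card (Fin (I * I) → Ω) : ℝ) with htot
    have htot0 : 0 < tot := by
      rw [htot]
      exact_mod_cast Fintype.card_pos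
    have hΩR : (0 : ℝ) < Fintype.card Ω := by exact_mod_cast hΩ0
    -- one bad event
    have hone : ∀ z : Fin (I * I) × (Fin h → Sym F h) × Finset (Fin M),
        cnt (fun ω : Fin (I * I) → Ω => M - (k - l) ≤ z.2.2.card ∧
          put z.1 (z.2.2.image fun m => (m, sym x z.2.1 m)) ⊆ pre N ω (I * I)) *
          (e : ℝ) ^ (M - (k - l)) ≤ ((g * ρ : ℕ) : ℝ) ^ (M - (k - l)) * tot := by
      intro z
      by_cases hz : M - (k - l) ≤ z.2.2.card
      · set P := z.2.2.image fun m => (m, sym x z.2.1 m) with hP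
        have hPc : P.card = z.2.2.card := by
          rw [hP, Finset.card_image_of_injective]
          intro a b hab
          exact (Prod.mk.inj hab).1
        have e1 : cnt (fun ω : Fin (I * I) → Ω => M - (k - l) ≤ z.2.2.card ∧
            put z.1 P ⊆ pre N ω (I * I)) ≤ cnt (fun ω : Fin (I * I) → Ω => P ⊆ N (ω z.1)) := by
          apply H13.cnt_mono
          rintro ω ⟨_, hω⟩ a ha
          have := hω (mem_put.2 ⟨rfl, ha⟩ : ((z.1, a) : Fin (I * I) × X) ∈ put z.1 P)
          unfold pre at this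
          exact (Finset.mem_filter.1 this).2.2
        have e2 := block_contains z.1 (fun w : Ω => P ⊆ N w)
        have e3 : cnt (fun w : Ω => P ⊆ N w) * (e : ℝ) ^ P.card ≤
            ((g * ρ : ℕ) : ℝ) ^ P.card * Fintype.card Ω := noise_le (by omega) P
        have e4 : cnt (fun ω : Fin (I * I) → Ω => P ⊆ N (ω z.1)) * (e : ℝ) ^ P.card ≤
            ((g * ρ : ℕ) : ℝ) ^ P.card * tot := by
          rw [← mul_le_mul_iff_left₀ hΩR]
          calc cnt (fun ω : Fin (I * I) → Ω => P ⊆ N (ω z.1)) * (e : ℝ) ^ P.card *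
                Fintype.card Ω = cnt (fun ω : Fin (I * I) → Ω => P ⊆ N (ω z.1)) *
                Fintype.card Ω * (e : ℝ) ^ P.card := by ring
            _ = cnt (fun w : Ω => P ⊆ N w) * tot * (e : ℝ) ^ P.card := by rw [e2]
            _ = cnt (fun w : Ω => P ⊆ N w) * (e : ℝ) ^ P.card * tot := by ring
            _ ≤ ((g * ρ : ℕ) : ℝ) ^ P.card * Fintype.card Ω * tot :=
                mul_le_mul_of_nonneg_right e3 htot0.le
            _ = _ := by ring
        have hge' : ((g * ρ : ℕ) : ℝ) ≤ e := by exact_mod_cast hge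
        obtain ⟨a, ha⟩ : ∃ a, P.card = M - (k - l) + a := ⟨P.card - (M - (k - l)), by omega⟩
        rw [ha, pow_add, pow_add] at e4
        have hea : (0 : ℝ) < (e : ℝ) ^ a := by positivity
        have h7 : ((g * ρ : ℕ) : ℝ) ^ a ≤ (e : ℝ) ^ a := pow_le_pow_left₀ (by positivity) hge' a
        refine (mul_le_mul_of_nonneg_right e1 (by positivity)).trans ?_
        rw [← mul_le_mul_iff_left₀ hea]
        calc cnt (fun ω : Fin (I * I) → Ω => P ⊆ N (ω z.1)) * (e : ℝ) ^ (M - (k - l)) *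
              (e : ℝ) ^ a ≤ ((g * ρ : ℕ) : ℝ) ^ (M - (k - l)) * ((g * ρ : ℕ) : ℝ) ^ a * tot := by
              rw [mul_assoc]
              exact e4
          _ = ((g * ρ : ℕ) : ℝ) ^ (M - (k - l)) * tot * ((g * ρ : ℕ) : ℝ) ^ a := by ring
          _ ≤ ((g * ρ : ℕ) : ℝ) ^ (M - (k - l)) * tot * (e : ℝ) ^ a :=
              mul_le_mul_of_nonneg_left h7 (by positivity)
      · rw [H13.cnt_eq_zero (fun ω hω => hz hω.1), zero_mul]
        positivity
    have hbad : cnt (fun ω : Fin (I * I) → Ω => ¬ (G (pre N ω (I * I))).CliqueFree l) ≤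
        1 / 2 * tot := by
      have e1 : cnt (fun ω : Fin (I * I) → Ω => ¬ (G (pre N ω (I * I))).CliqueFree l) ≤
          ∑ z : Fin (I * I) × (Fin h → Sym F h) × Finset (Fin M),
          cnt (fun ω : Fin (I * I) → Ω => M - (k - l) ≤ z.2.2.card ∧
          put z.1 (z.2.2.image fun m => (m, sym x z.2.1 m)) ⊆ pre N ω (I * I)) := by
        refine le_trans (H13.cnt_mono (Q := fun ω : Fin (I * I) → Ω =>
          ∃ z ∈ (univ : Finset (Fin (I * I) × (Fin h → Sym F h) × Finset (Fin M))),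
          M - (k - l) ≤ z.2.2.card ∧
          put z.1 (z.2.2.image fun m => (m, sym x z.2.1 m)) ⊆ pre N ω (I * I)) ?_)
          (H13.cnt_exists _ _)
        intro ω hω
        obtain ⟨c, α, P, h6, h7⟩ := hG4 _ hω
        exact ⟨(c, α, P), Finset.mem_univ _, h6, h7⟩
      have heM : (0 : ℝ) < (e : ℝ) ^ (M - (k - l)) := by positivity
      refine e1.trans ?_
      rw [← mul_le_mul_iff_left₀ heM, Finset.sum_mul]
      refine (Finset.sum_le_sum fun z _ => hone z).trans ?_
      rw [Finset.sum_const, nsmul_eq_mul, Finset.card_univ, Fintype.card_prod, Fintype.card_prod,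
        Fintype.card_finset, Fintype.card_fin, Fintype.card_fin, hcardA]
      have h8 : ((2 * (I * I) * D ^ (2 * h * h) * 2 ^ M * (g * ρ) ^ (M - (k - l)) : ℕ) : ℝ) ≤
          ((e ^ (M - (k - l)) : ℕ) : ℝ) := by exact_mod_cast h4
      push_cast at h8 ⊢
      have h9 := mul_le_mul_of_nonneg_right h8 htot0.le
      linarith
    have h6 := H13.cnt_or (fun ω : Fin (I * I) → Ω => (G (pre N ω (I * I))).CliqueFree l)
      (fun ω : Fin (I * I) → Ω => ¬ (G (pre N ω (I * I))).CliqueFree l)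
    have h7 : cnt (fun ω : Fin (I * I) → Ω => (G (pre N ω (I * I))).CliqueFree l ∨
        ¬ (G (pre N ω (I * I))).CliqueFree l) = tot := by
      rw [htot, ← H13.cnt_true]
      congr 1
      funext ω
      exact propext ⟨fun _ => trivial, fun _ => Classical.em _⟩
    linarith
  -- conclusion
  have htot0 : (0 : ℝ) < (Fintype.card (Fin (I * I) → Ω) : ℝ) := by exact_mod_cast Fintype.card_pos
  set τ : ℝ := 2 ^ r * (r * t + 1) with hτ
  have hTc : ((C.special.powerset ×ˢ tests).card : ℝ) ≤ τ := by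
    have h6 : (C.special.powerset ×ˢ tests).card ≤ 2 ^ r * (r * t + 1) := by
      rw [Finset.card_product, Finset.card_powerset]
      exact Nat.mul_le_mul (Nat.pow_le_pow_right (by norm_num) C.card_special) htc
    rw [hτ]
    exact_mod_cast h6
  have hJR : 4 * τ ≤ ((I * I : ℕ) : ℝ) := by
    rw [hτ]
    exact_mod_cast h5
  have hτ1 : 1 ≤ τ := by
    rw [hτ]
    have h6 : (1 : ℝ) ≤ 2 ^ r := one_le_pow₀ (by norm_num)
    have h7 : (1 : ℝ) ≤ (r : ℝ) * t + 1 := by
      have : (0 : ℝ) ≤ (r : ℝ) * t := by positivity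
      linarith
    nlinarith
  have hJ0 : (0 : ℝ) < ((I * I : ℕ) : ℝ) := by linarith
  have h6 : ((I * I : ℕ) : ℝ) * (1 / 2) ≤ τ * (1 + ((I * I : ℕ) : ℝ) * ε) := by
    have h7 : ((I * I : ℕ) : ℝ) * (1 / 2 * (Fintype.card (Fin (I * I) → Ω) : ℝ)) ≤
        τ * (1 + ((I * I : ℕ) : ℝ) * ε) * Fintype.card (Fin (I * I) → Ω) := by
      refine (mul_le_mul_of_nonneg_left hgood hJ0.le).trans (hchain.trans ?_)
      exact mul_le_mul_of_nonneg_right (mul_le_mul_of_nonneg_right hTc (by positivity)) htot0.le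
    rw [← mul_assoc] at h7
    exact le_of_mul_le_mul_right h7 htot0
  have h7 : 1 / 4 ≤ τ * ε := by
    have h8 : ((I * I : ℕ) : ℝ) * (1 / 4) ≤ ((I * I : ℕ) : ℝ) * (τ * ε) := by nlinarith
    exact le_of_mul_le_mul_left h8 hJ0
  rw [hε, div_pow, one_pow] at h7
  have hBL : 0 < B ^ L := by positivity
  have h8 : τ * (2 * s * (1 / B ^ L)) * B ^ L = τ * (2 * s) := by
    field_simp
  have h9 := mul_le_mul_of_nonneg_right h7 hBL.le
  rw [h8] at h9
  linarith

end Pool.Agent.H78.KK
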