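import Pool.Agent.H78.KK.Defs
import Pool.Agent.H95.MT.Ext

/-!
ROW Fam.  The monotone circuits behind a circuit with few arbitrary gates.

For every set `v` of gates (the special gates whose value is replaced by `1`; the other special gates get `0`) there is a circuit `h v` all of whose
gates are monotone, and the output test `θ ≤ val out` depends only on the tests `x.2 ≤ h v x.1`, `v ⊆ special`, `x ∈ tests`.

Proof.
* Extension of the gate functions. For `i ∉ special` that is a gate with upper certificates choose `S : SimpleGraph → Finset (Fin s)` and let `φ i` be the function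
  given by `Pool.Agent.H95.MT.ext_lo` (with `Z := SimpleGraph (Fin n)`, `h := C.val`; `hS y y'` is the certificate property): `φ (fun j => C.val j G) = C.val i G` and for
  every `u` there is `T` (`T = ∅` or `T = S G`) with `∀ v, (∀ j ∈ T, v j ≤ u j) → φ v ≤ φ u`. In both cases `T.card ≤ p` and `∀ j ∈ T, j < i`.
  For lower certificates use `ext_up`.  Note: `φ u` depends only on `u j`, `j < i` (apply the certificate in both directions: if `u j = u' j` for `j < i`, then
  `φ u' ≤ φ u` and `φ u ≤ φ u'`).
* Definition of `h v i G` by strong recursion on `i` (for instance by `WellFounded.fix` on `Fin s`, or choose for each `v, G` a vector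
  `y : Fin s → ℝ` with the following properties, which exists by induction on `m ≤ s` (vectors satisfying the equations for `i < m`)):
  `i ∈ special`: `h v i G = if i ∈ v then 1 else 0`; test of `u v`: `C.val i G`; otherwise `h v i G = φ i (fun j => h v j G)`.
* `MonoGate (h v) p q i`: a special gate is constant, upper certificate `∅`; a test is a test; for the others take the certificate `T` of `φ i` at the vector
  `u = fun j => h v j G`.
* If `v` is the set of special gates with `C.val i G = 1`, then `h v i G = C.val i G` for all `i` (strong induction).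
* Let `tests = {(out, θ)} ∪ ⋃_{i ∈ special} S i` with `S i` from `special_gate` (card `≤ r t + 1`). Suppose `G, G'` agree on all tests of all `h v`, `v ⊆ special`. Let `v` be
  the set of special gates that are `1` on `G`.  Claim: `C.val i G' = h v i G'` for all `i` (strong induction). Non special `i`: by the recursion equations and the fact that
  `φ i` depends only on earlier gates. Special `i`: for `x ∈ S i`, `x.1 < i`: `x.2 ≤ C.val x.1 G ↔ x.2 ≤ h v x.1 G ↔ x.2 ≤ h v x.1 G' ↔ x.2 ≤ C.val x.1 G'` (induction hypothesis), so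
  `C.val i G = C.val i G'`, and `h v i G' = h v i G = C.val i G`. With `(out, θ)`: `θ ≤ C.val out G ↔ θ ≤ h v out G ↔ θ ≤ h v out G' ↔ θ ≤ C.val out G'`.
-/

namespace Pool.Agent.H78.KK

open Finset Classical

/-- the test gates -/
def Fam_tst {n s : ℕ} (val : Fin s → SimpleGraph (Fin n) → ℝ) (i : Fin s) : Prop :=
  ∃ u v, ∀ G, (G.Adj u v → val i G = 1) ∧ (¬ G.Adj u v → val i G = 0)

/-- certificates of an extended gate function -/
def Fam_cert {s : ℕ} (p q : ℕ) (i : Fin s) (φ : (Fin s → ℝ) → ℝ) : Prop :=
  (∀ u : Fin s → ℝ, ∃ T : Finset (Fin s), T.card ≤ p ∧ (∀ j ∈ T, j < i) ∧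
    ∀ v : Fin s → ℝ, (∀ j ∈ T, v j ≤ u j) → φ v ≤ φ u) ∨
  (∀ u : Fin s → ℝ, ∃ T : Finset (Fin s), T.card ≤ q ∧ (∀ j ∈ T, j < i) ∧
    ∀ v : Fin s → ℝ, (∀ j ∈ T, u j ≤ v j) → φ u ≤ φ v)

theorem Fam_phi {n s p q : ℕ} (val : Fin s → SimpleGraph (Fin n) → ℝ) (i : Fin s)
    (hm : MonoGate val p q i) (ht : ¬ Fam_tst val i) :
    ∃ φ : (Fin s → ℝ) → ℝ, (∀ G, φ (fun j => val j G) = val i G) ∧ Fam_cert p q i φ := by
  rcases hm with h | h | h
  · exact absurd h ht
  · choose S h1 h2 h3 using h
    obtain ⟨φ, e, c⟩ := Pool.Agent.H95.MT.ext_lo (Z := SimpleGraph (Fin n)) val i S h3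
    refine ⟨φ, e, Or.inl ?_⟩
    intro u
    obtain ⟨T, hT, hc⟩ := c u
    refine ⟨T, ?_, ?_, hc⟩
    · rcases hT with hT | ⟨y, hT⟩
      · rw [hT]; simp
      · rw [hT]; exact h1 y
    · rcases hT with hT | ⟨y, hT⟩
      · rw [hT]; intro j hj; simp at hj
      · rw [hT]; exact h2 y
  · choose S h1 h2 h3 using h
    obtain ⟨φ, e, c⟩ := Pool.Agent.H95.MT.ext_up (Z := SimpleGraph (Fin n)) val i S h3
    refine ⟨φ, e, Or.inr ?_⟩
    intro u
    obtain ⟨T, hT, hc⟩ := c u
    refine ⟨T, ?_, ?_, hc⟩
    · rcases hT with hT | ⟨y, hT⟩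
      · rw [hT]; simp
      · rw [hT]; exact h1 y
    · rcases hT with hT | ⟨y, hT⟩
      · rw [hT]; intro j hj; simp at hj
      · rw [hT]; exact h2 y

theorem Fam_dep {s p q : ℕ} {i : Fin s} {φ : (Fin s → ℝ) → ℝ} (h : Fam_cert p q i φ)
    {u u' : Fin s → ℝ} (huu : ∀ j, j < i → u j = u' j) : φ u = φ u' := by
  rcases h with h | h
  · refine le_antisymm ?_ ?_
    · obtain ⟨T, -, h2, h3⟩ := h u'
      exact h3 u (fun j hj => le_of_eq (huu j (h2 j hj)))
    · obtain ⟨T, -, h2, h3⟩ := h u
      exact h3 u' (fun j hj => le_of_eq (huu j (h2 j hj)).symm)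
  · refine le_antisymm ?_ ?_
    · obtain ⟨T, -, h2, h3⟩ := h u
      exact h3 u' (fun j hj => le_of_eq (huu j (h2 j hj)))
    · obtain ⟨T, -, h2, h3⟩ := h u'
      exact h3 u (fun j hj => le_of_eq (huu j (h2 j hj)).symm)

theorem Fam_rec {s p q : ℕ} (sp v : Finset (Fin s)) (tst : Fin s → Prop) (w : Fin s → ℝ)
    (φ : Fin s → (Fin s → ℝ) → ℝ) (hφ : ∀ i, i ∉ sp → ¬ tst i → Fam_cert p q i (φ i)) :
    ∃ y : Fin s → ℝ, (∀ i, i ∈ sp → y i = if i ∈ v then 1 else 0) ∧
      (∀ i, i ∉ sp → tst i → y i = w i) ∧ (∀ i, i ∉ sp → ¬ tst i → y i = φ i y) := by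
  let F : (i : Fin s) → ((j : Fin s) → j < i → ℝ) → ℝ := fun i prev =>
    if i ∈ sp then (if i ∈ v then 1 else 0) else
      if tst i then w i else φ i (fun j => if hj : j < i then prev j hj else 0)
  let y : Fin s → ℝ := (wellFounded_lt (α := Fin s)).fix F
  have hy : ∀ i, y i = F i (fun j _ => y j) := fun i =>
    WellFounded.fix_eq (wellFounded_lt (α := Fin s)) F i
  refine ⟨y, ?_, ?_, ?_⟩
  · intro i hi
    rw [hy i]
    simp only [F, if_pos hi]
  · intro i hi ht
    rw [hy i]
    simp only [F, if_neg hi, if_pos ht]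
  · intro i hi ht
    have e : y i = φ i (fun j => if hj : j < i then y j else 0) := by
      rw [hy i]
      simp only [F, if_neg hi, if_neg ht]
    rw [e]
    refine Fam_dep (hφ i hi ht) ?_
    intro j hj
    simp [hj]

theorem family {n s p q r t : ℕ} (C : Circuit n s p q r t) (out : Fin s) (θ : ℝ) :
    ∃ (tests : Finset (Fin s × ℝ)) (h : Finset (Fin s) → Fin s → SimpleGraph (Fin n) → ℝ),
      tests.card ≤ r * t + 1 ∧ (∀ v i, MonoGate (h v) p q i) ∧
      ∀ G G', (∀ v ∈ C.special.powerset, ∀ x ∈ tests, (x.2 ≤ h v x.1 G ↔ x.2 ≤ h v x.1 G')) →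
        (θ ≤ C.val out G ↔ θ ≤ C.val out G') := by
  have hex : ∀ i, ∃ φ : (Fin s → ℝ) → ℝ, i ∉ C.special → ¬ Fam_tst C.val i →
      (∀ G, φ (fun j => C.val j G) = C.val i G) ∧ Fam_cert p q i φ := by
    intro i
    by_cases hi : i ∉ C.special ∧ ¬ Fam_tst C.val i
    · obtain ⟨φ, h1, h2⟩ := Fam_phi C.val i (C.mono_gate i hi.1) hi.2
      exact ⟨φ, fun _ _ => ⟨h1, h2⟩⟩
    · exact ⟨fun _ => 0, fun a b => absurd ⟨a, b⟩ hi⟩
  choose φ hφ using hex
  have hy := fun (v : Finset (Fin s)) (G : SimpleGraph (Fin n)) =>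
    Fam_rec C.special v (Fam_tst C.val) (fun i => C.val i G) φ
      (fun i h1 h2 => (hφ i h1 h2).2)
  choose y y1 y2 y3 using hy
  have hS : ∀ i, ∃ S : Finset (Fin s × ℝ), S.card ≤ t ∧ (i ∈ C.special → (∀ x ∈ S, x.1 < i) ∧
      ∀ G G', (∀ x ∈ S, x.2 ≤ C.val x.1 G ↔ x.2 ≤ C.val x.1 G') →
        C.val i G = C.val i G') := by
    intro i
    by_cases hi : i ∈ C.special
    · obtain ⟨-, S, h1, h2, h3⟩ := C.special_gate i hi
      exact ⟨S, h1, fun _ => ⟨h2, h3⟩⟩
    · exact ⟨∅, by simp, fun a => absurd a hi⟩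
  choose S hS1 hS2 using hS
  refine ⟨insert (out, θ) (C.special.biUnion S), fun v i G => y v G i, ?_, ?_, ?_⟩
  · refine (Finset.card_insert_le _ _).trans ?_
    have h1 : (C.special.biUnion S).card ≤ C.special.card * t :=
      Finset.card_biUnion_le_card_mul _ _ _ (fun i _ => hS1 i)
    have h2 : C.special.card * t ≤ r * t := Nat.mul_le_mul_right _ C.card_special
    omega
  · intro v i
    by_cases hi : i ∈ C.special
    · refine Or.inr (Or.inl ?_)
      intro G
      refine ⟨∅, by simp, by simp, ?_⟩
      intro G' _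
      show y v G' i ≤ y v G i
      rw [y1 v G' i hi, y1 v G i hi]
    · by_cases ht : Fam_tst C.val i
      · refine Or.inl ?_
        obtain ⟨a, b, hab⟩ := id ht
        refine ⟨a, b, fun G => ⟨fun hG => ?_, fun hG => ?_⟩⟩
        · show y v G i = 1
          rw [y2 v G i hi ht]
          exact (hab G).1 hG
        · show y v G i = 0
          rw [y2 v G i hi ht]
          exact (hab G).2 hG
      · rcases (hφ i hi ht).2 with hc | hc
        · refine Or.inr (Or.inl ?_)
          intro G
          obtain ⟨T, h1, h2, h3⟩ := hc (y v G)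
          refine ⟨T, h1, h2, ?_⟩
          intro G' hG'
          show y v G' i ≤ y v G i
          rw [y3 v G' i hi ht, y3 v G i hi ht]
          exact h3 (y v G') hG'
        · refine Or.inr (Or.inr ?_)
          intro G
          obtain ⟨T, h1, h2, h3⟩ := hc (y v G)
          refine ⟨T, h1, h2, ?_⟩
          intro G' hG'
          show y v G i ≤ y v G' i
          rw [y3 v G' i hi ht, y3 v G i hi ht]
          exact h3 (y v G') hG'
  · intro G G' hag
    set v := C.special.filter (fun i => C.val i G = 1) with hv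
    have hvp : v ∈ C.special.powerset := Finset.mem_powerset.2 (Finset.filter_subset _ _)
    have hag' := hag v hvp
    have e1 : ∀ i, y v G i = C.val i G := by
      intro i
      induction i using WellFoundedLT.induction with
      | ind i ih =>
        by_cases hi : i ∈ C.special
        · rw [y1 v G i hi]
          rcases (C.special_gate i hi).1 G with h0 | h0
          · have : i ∉ v := by
              rw [hv, Finset.mem_filter]
              rintro ⟨-, h1⟩
              rw [h0] at h1
              norm_num at h1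
            rw [if_neg this, h0]
          · have : i ∈ v := by
              rw [hv, Finset.mem_filter]
              exact ⟨hi, h0⟩
            rw [if_pos this, h0]
        · by_cases ht : Fam_tst C.val i
          · exact y2 v G i hi ht
          · rw [y3 v G i hi ht, ← (hφ i hi ht).1 G]
            exact Fam_dep (hφ i hi ht).2 (fun j hj => ih j hj)
    have e2 : ∀ i, C.val i G' = y v G' i := by
      intro i
      induction i using WellFoundedLT.induction with
      | ind i ih =>
        by_cases hi : i ∈ C.special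
        · have h1 : C.val i G = C.val i G' := by
            refine (hS2 i hi).2 G G' ?_
            intro x hx
            have hxt : x ∈ insert (out, θ) (C.special.biUnion S) :=
              Finset.mem_insert_of_mem (Finset.mem_biUnion.2 ⟨i, hi, hx⟩)
            have h2 : x.2 ≤ y v G x.1 ↔ x.2 ≤ y v G' x.1 := hag' x hxt
            rw [e1 x.1, ← ih x.1 ((hS2 i hi).1 x hx)] at h2
            exact h2
          rw [← h1, ← e1 i, y1 v G i hi, y1 v G' i hi]
        · by_cases ht : Fam_tst C.val i
          · exact (y2 v G' i hi ht).symm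
          · rw [y3 v G' i hi ht, ← (hφ i hi ht).1 G']
            exact Fam_dep (hφ i hi ht).2 (fun j hj => ih j hj)
    have h3 : θ ≤ y v G out ↔ θ ≤ y v G' out := hag' (out, θ) (Finset.mem_insert_self _ _)
    rw [e1 out, ← e2 out] at h3
    exact h3

end Pool.Agent.H78.KK
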