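import Pool.Agent.H78.KK.Sts

/-!
All gates of a circuit (version with a base `B`).
-/

namespace Pool.Agent.H78.KK

open Finset Classical
open H13 (cnt acc Closed)
open Pool.Agent.H95.MT (star lev Cl le_star star_eq star_mono star_le acc_lev mem_lev next_pieces
  clo_real ext_lo ext_up DGate not_acc_lev)

variable {X : Type} [Fintype X] [DecidableEq X] {Ω A : Type} [Fintype Ω] [Fintype A]

theorem finish {N : Ω → Finset X} {Y : A → Finset X} {L K : ℕ} {p R Q B δ : ℝ}
    (hD : Data N Y L K p R Q B δ) (f h : Finset X → ℝ) (hmono : ∀ x y, x ⊆ y → h x ≤ h y)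
    (BP : A → Prop) (BN : Ω → Prop)
    (hE : ∀ G : Finset X → ℝ, Cl N K δ G → (∀ W, h W ≤ G W) →
      cnt (fun α => star L G (Y α) < h (Y α)) ≤ (1 / B) ^ (L + 1) * Fintype.card A)
    (h1 : ∀ α, ¬ BP α → f (Y α) ≤ h (Y α)) (h2 : ∀ w, ¬ BN w → h (N w) ≤ f (N w)) :
    ∃ (G : Finset X → ℝ) (EP : A → Prop) (EN : Ω → Prop), Cl N K δ G ∧
      cnt EP ≤ (1 / B) ^ L * Fintype.card A ∧ cnt EN ≤ (1 / B) ^ L * Fintype.card Ω ∧
      (∀ α, ¬ (BP α ∨ EP α) → f (Y α) ≤ star L G (Y α)) ∧
      ∀ w, ¬ (BN w ∨ EN w) → star K G (N w) ≤ f (N w) := by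
  obtain ⟨G, hG, hcl, hcnt⟩ := clo_real N K δ hD.hδ hD.hδ1 hD.hΩ h hmono
  refine ⟨G, fun α => star L G (Y α) < h (Y α), fun w => h (N w) < star K G (N w), hcl, ?_, ?_,
    ?_, ?_⟩
  · refine (hE G hcl hG).trans (mul_le_mul_of_nonneg_right ?_ (by positivity))
    have hB := hD.hB
    have hB0 : 0 < B := by linarith
    exact pow_le_pow_of_le_one (by positivity) (by rw [div_le_one hB0]; exact hB) (Nat.le_succ L)
  · refine hcnt.trans ?_
    rw [← mul_assoc]
    exact mul_le_mul_of_nonneg_right hD.hneg (by positivity)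
  · intro α hα
    rw [not_or, not_lt] at hα
    exact (h1 α hα.1).trans hα.2
  · intro w hw
    rw [not_or, not_lt] at hw
    exact hw.2.trans (h2 w hw.1)

theorem one_gate {N : Ω → Finset X} {Y : A → Finset X} {L K : ℕ} {R Q B δ : ℝ} {p q : ℕ}
    (hD : Data N Y L K (p : ℝ) R Q B δ) (hq : 1 ≤ q) (hK : (q + 1) * L ≤ K) {s : ℕ}
    (h : Fin s → Finset X → ℝ) (i : Fin s) (hi : DGate h p q i) (F : Fin s → Finset X → ℝ)
    (hF : ∀ j, Cl N K δ (F j)) (BP : A → Prop) (BN : Ω → Prop)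
    (hP : ∀ j, j < i → ∀ α, ¬ BP α → h j (Y α) ≤ star L (F j) (Y α))
    (hN : ∀ j, j < i → ∀ w, ¬ BN w → star K (F j) (N w) ≤ h j (N w)) :
    ∃ (G : Finset X → ℝ) (EP : A → Prop) (EN : Ω → Prop), Cl N K δ G ∧
      cnt EP ≤ (1 / B) ^ L * Fintype.card A ∧ cnt EN ≤ (1 / B) ^ L * Fintype.card Ω ∧
      (∀ α, ¬ (BP α ∨ EP α) → h i (Y α) ≤ star L G (Y α)) ∧
      ∀ w, ¬ (BN w ∨ EN w) → star K G (N w) ≤ h i (N w) := by
  have hL := hD.hL
  have hLK : L ≤ K := by
    have : 1 * L ≤ (q + 1) * L := Nat.mul_le_mul_right _ (by omega)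
    omega
  have h2L : 2 * L ≤ K := by
    have : 2 * L ≤ (q + 1) * L := Nat.mul_le_mul_right _ (by omega)
    omega
  have hqL : q * L + L ≤ K := by
    have : (q + 1) * L = q * L + L := by ring
    omega
  rcases hi with ⟨hm, hc⟩ | hi | hi
  · refine finish hD (h i) (h i) hm BP BN (fun G hcl hG => ?_) (fun _ _ => le_rfl)
      (fun _ _ => le_rfl)
    refine step_up hD (K0 := L) (by omega) (h i) ?_ G hcl hG
    intro x
    obtain ⟨W, h1, h2, h3⟩ := hc x
    exact ⟨W, h1, h2.trans hL, h3⟩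
  · choose S hSc hSi hS using hi
    obtain ⟨φ, hφ1, hφ2⟩ := ext_lo h i S hS
    have hT : ∀ u, ∃ T : Finset (Fin s), T.card ≤ p ∧ (∀ j ∈ T, j < i) ∧
        ∀ v, (∀ j ∈ T, v j ≤ u j) → φ v ≤ φ u := by
      intro u
      obtain ⟨T, hT, hv⟩ := hφ2 u
      rcases hT with rfl | ⟨y, rfl⟩
      · exact ⟨∅, by simp, by simp, hv⟩
      · exact ⟨S y, hSc y, hSi y, hv⟩
    refine finish hD (h i) (fun x => φ fun j => star L (F j) x) ?_ BP BN (fun G hcl hG => ?_) ?_ ?_
    · intro x y hxy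
      obtain ⟨T, _, _, hv⟩ := hT fun j => star L (F j) y
      exact hv _ fun j _ => star_mono (F j) hxy
    · refine step_lo hD h2L F hF _ ?_ G hG
      intro U
      obtain ⟨T, hTc, _, hv⟩ := hT fun j => star L (F j) U
      exact ⟨T, by exact_mod_cast hTc, fun x hx => hv _ hx⟩
    · intro α hα
      obtain ⟨T, _, hTi, hv⟩ := hT fun j => star L (F j) (Y α)
      rw [← hφ1 (Y α)]
      exact hv _ fun j hj => hP j (hTi j hj) α hα
    · intro w hw
      obtain ⟨T, _, hTi, hv⟩ := hT fun j => h j (N w)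
      rw [← hφ1 (N w)]
      exact hv _ fun j hj => (star_le hLK (F j) (N w)).trans (hN j (hTi j hj) w hw)
  · choose S hSc hSi hS using hi
    obtain ⟨φ, hφ1, hφ2⟩ := ext_up h i S hS
    have hT : ∀ u, ∃ T : Finset (Fin s), T.card ≤ q ∧ (∀ j ∈ T, j < i) ∧
        ∀ v, (∀ j ∈ T, u j ≤ v j) → φ u ≤ φ v := by
      intro u
      obtain ⟨T, hT, hv⟩ := hφ2 u
      rcases hT with rfl | ⟨y, rfl⟩
      · exact ⟨∅, by simp, by simp, hv⟩
      · exact ⟨S y, hSc y, hSi y, hv⟩
    refine finish hD (h i) (fun x => φ fun j => star L (F j) x) ?_ BP BN (fun G hcl hG => ?_) ?_ ?_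
    · intro x y hxy
      obtain ⟨T, _, _, hv⟩ := hT fun j => star L (F j) x
      exact hv _ fun j _ => star_mono (F j) hxy
    · refine step_up hD hqL _ ?_ G hcl hG
      intro x
      obtain ⟨T, hTc, _, hv⟩ := hT fun j => star L (F j) x
      choose W hW hWc hWe using fun j => star_eq (L := L) (F j) x
      refine ⟨T.biUnion W, Finset.biUnion_subset.2 fun j _ => hW j, ?_, ?_⟩
      · calc (T.biUnion W).card ≤ ∑ j ∈ T, (W j).card := Finset.card_biUnion_le
          _ ≤ ∑ _j ∈ T, L := Finset.sum_le_sum fun j _ => hWc j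
          _ = T.card * L := by rw [Finset.sum_const, smul_eq_mul]
          _ ≤ q * L := Nat.mul_le_mul_right _ hTc
      · refine hv _ fun j hj => ?_
        exact (hWe j).le.trans (le_star (F j) (Finset.subset_biUnion_of_mem W hj) (hWc j))
    · intro α hα
      obtain ⟨T, _, hTi, hv⟩ := hT fun j => h j (Y α)
      rw [← hφ1 (Y α)]
      exact hv _ fun j hj => hP j (hTi j hj) α hα
    · intro w hw
      obtain ⟨T, _, hTi, hv⟩ := hT fun j => star L (F j) (N w)
      rw [← hφ1 (N w)]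
      exact hv _ fun j hj => (star_le hLK (F j) (N w)).trans (hN j (hTi j hj) w hw)

theorem gates {N : Ω → Finset X} {Y : A → Finset X} {L K : ℕ} {R Q B δ : ℝ} {p q : ℕ}
    (hD : Data N Y L K (p : ℝ) R Q B δ) (hq : 1 ≤ q) (hK : (q + 1) * L ≤ K) {s : ℕ}
    (h : Fin s → Finset X → ℝ) (hg : ∀ i, DGate h p q i) (m : ℕ) :
    ∃ (F : Fin s → Finset X → ℝ) (BP : A → Prop) (BN : Ω → Prop), (∀ i, Cl N K δ (F i)) ∧
      cnt BP ≤ m * ((1 / B) ^ L * Fintype.card A) ∧
      cnt BN ≤ m * ((1 / B) ^ L * Fintype.card Ω) ∧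
      (∀ i : Fin s, i.1 < m → ∀ α, ¬ BP α → h i (Y α) ≤ star L (F i) (Y α)) ∧
      ∀ i : Fin s, i.1 < m → ∀ w, ¬ BN w → star K (F i) (N w) ≤ h i (N w) := by
  induction m with
  | zero =>
    obtain ⟨G, _, hG, _⟩ := clo_real N K δ hD.hδ hD.hδ1 hD.hΩ (fun _ => 0) (fun _ _ _ => le_rfl)
    refine ⟨fun _ => G, fun _ => False, fun _ => False, fun _ => hG, ?_, ?_, ?_, ?_⟩
    · rw [H13.cnt_eq_zero (fun _ h => h)]
      simp
    · rw [H13.cnt_eq_zero (fun _ h => h)]
      simp
    · intro i hi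
      omega
    · intro i hi
      omega
  | succ m ih =>
    obtain ⟨F, BP, BN, hF, hBP, hBN, hP, hN⟩ := ih
    by_cases hm : m < s
    · obtain ⟨G, EP, EN, hG, hEP, hEN, h1, h2⟩ := one_gate hD hq hK h ⟨m, hm⟩ (hg _) F hF BP BN
        (fun j hj => hP j hj) (fun j hj => hN j hj)
      refine ⟨Function.update F ⟨m, hm⟩ G, fun α => BP α ∨ EP α, fun w => BN w ∨ EN w, ?_, ?_, ?_,
        ?_, ?_⟩
      · intro i
        by_cases hi : i = ⟨m, hm⟩
        · rw [hi, Function.update_self]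
          exact hG
        · rw [Function.update_of_ne hi]
          exact hF i
      · refine (H13.cnt_or _ _).trans ?_
        push_cast
        linarith
      · refine (H13.cnt_or _ _).trans ?_
        push_cast
        linarith
      · intro i him α hα
        by_cases hi : i = ⟨m, hm⟩
        · rw [hi, Function.update_self]
          exact h1 α hα
        · rw [Function.update_of_ne hi]
          have : i.1 ≠ m := fun h => hi (Fin.ext h)
          exact hP i (by omega) α fun h => hα (Or.inl h)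
      · intro i him w hw
        by_cases hi : i = ⟨m, hm⟩
        · rw [hi, Function.update_self]
          exact h2 w hw
        · rw [Function.update_of_ne hi]
          have : i.1 ≠ m := fun h => hi (Fin.ext h)
          exact hN i (by omega) w fun h => hw (Or.inl h)
    · have hB := hD.hB
      have hB0 : 0 < B := by linarith
      refine ⟨F, BP, BN, hF, ?_, ?_, ?_, ?_⟩
      · refine hBP.trans (mul_le_mul_of_nonneg_right ?_ (by positivity))
        push_cast
        linarith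
      · refine hBN.trans (mul_le_mul_of_nonneg_right ?_ (by positivity))
        push_cast
        linarith
      · intro i _
        exact hP i (by omega)
      · intro i _
        exact hN i (by omega)


end Pool.Agent.H78.KK
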