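import Mathlib

/-!
ROW Prm.  The parameters (Mathlib only).

Let `δ = 2 - μ ∈ (0, 2]`, `k' = 4l - 3k` (real), `12 h ≤ (k' - 2) δ`, `T = h + (k - l)`, `M = k / 2 - T` (natural division; `k/2 ≥ (k-1)/2`), `M' = M - (k - l)`.
Then `M' ≥ (k - 1)/2 - h - 2 (k - l) = (k' - 1)/2 - h ≥ 6h/δ + 1/2 - h ≥ 4h/δ + 1/2` (as `2/δ ≥ 1`), so `M' ≥ 2`, `k - l < M`, and `M' δ/2 - 2h ≥ δ/4`.
Let `η = δ/(16 k)` (`k ≥ 1`), so `2 η M' ≤ δ/8`.  For `n` large and `p, r, t` with `1 ≤ p`, `p (t+1) 2^r ≤ n^μ` put (with `τ = 2^r (r t + 1) ≤ (t+1) 2^r (r+1)`, `r + 1 ≤ 3 log₂ n`):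
`ρ = h`, `e = ⌈n^(δ/2 - 2η)⌉`, `g = 5 h (Nat.log 2 n + 1)` (so `2^g ≥ n^(5h)`), `I = Nat.sqrt (4 τ) + 1` (`4τ ≤ I²≤ 16 τ`), `B = 8 (r+1) n^(δ/2)`,
`d` = a prime in `(D/2, D]` (`Nat.exists_prime_lt_and_le_two_mul` with `D/2`; `D ≥ 2`) where `D` is the largest natural number with `4 k I D^h ≤ n`
(equivalently `D = ⌊(n/(4kI))^(1/h)⌋`; it tends to infinity because `I ≤ 4 (n^μ (r+1))^(1/2)`, `n/(4kI) ≥ n^(δ/2)/(16 k (3 log₂ n)^(1/2))`).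
So `(D+1)^h > n/(4kI)`, `d ≥ D/2 ≥ (D+1)/4`, `d^h ≥ n/(4^(h+1) k I)`, `d^(2h) ≥ n²/(16^(h+1) k² I²) ≥ n²/(16^(h+2) k² τ) ≥ n² p/(16^(h+2) k² n^μ (r+1)) = p n^δ/(C (r+1))`, `C = 16^(h+2) k²`.
1. `2Bp·4ρe ≤ d^(2h)`: suffices `8 B ρ e C (r+1) ≤ n^δ`; `e ≤ 2 n^(δ/2 - 2η)`: suffices `128 C ρ (r+1)² ≤ n^(2η)`.
2. `2·4ρe·e ≤ d^(2h)`: suffices `32 ρ C (r+1) ≤ n^(4η)`.
3. `(M d^(2h) + 1)^h B^h ≤ 2^g`: `M d^(2h) + 1 ≤ n³`, `B ≤ n²`.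
4. `2 I² d^(2hh) 2^M (gρ)^M' ≤ e^M'`: `I d^h ≤ n` gives `I² d^(2hh) ≤ n^(2h)` (`h ≥ 1`), `e^M' ≥ n^(M'(δ/2 - 2η)) ≥ n^(2h + δ/8)`, suffices `2^(M+1) (gρ)^M' ≤ n^(δ/8)`.
5. `I d^h (2T+2M) + (k - (2T+2M)) ≤ n`: `≤ n/(4k) · k + 1`.
-/

namespace Pool.Agent.H78.KK

theorem Prm_log (C : ℝ) (m : ℕ) {ε : ℝ} (hε : 0 < ε) :
    ∃ n₀ : ℕ, ∀ n ≥ n₀, C * ((Nat.log 2 n + 1 : ℕ) : ℝ) ^ m ≤ (n : ℝ) ^ ε := by
  have h1 := isLittleO_log_rpow_rpow_atTop (m : ℝ) hε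
  have h2 := h1.def (c := 1 / (|C| * 4 ^ m + 1)) (by positivity)
  have h3 := (tendsto_natCast_atTop_atTop (R := ℝ)).eventually h2
  obtain ⟨N, hN⟩ := Filter.eventually_atTop.1 h3
  refine ⟨max N 2, fun n hn => ?_⟩
  have hnN : N ≤ n := le_trans (le_max_left _ _) hn
  have hn2 : 2 ≤ n := le_trans (le_max_right _ _) hn
  have h4 := hN n hnN
  have hn2' : (2 : ℝ) ≤ n := by exact_mod_cast hn2
  have hlog2 : (1:ℝ)/2 ≤ Real.log 2 := by have := Real.log_two_gt_d9; linarith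
  have hlogn : Real.log 2 ≤ Real.log n := Real.log_le_log (by norm_num) hn2'
  have h5 : (Nat.log 2 n : ℝ) * Real.log 2 ≤ Real.log n := by
    rw [← Real.log_pow]
    apply Real.log_le_log (by positivity)
    exact_mod_cast Nat.pow_log_le_self 2 (by omega)
  have hL : ((Nat.log 2 n + 1 : ℕ) : ℝ) ≤ 4 * Real.log n := by
    push_cast
    have : (0:ℝ) ≤ Nat.log 2 n := Nat.cast_nonneg _
    nlinarith
  have hlog0 : 0 ≤ Real.log n := by linarith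
  rw [Real.rpow_natCast, Real.norm_of_nonneg (by positivity), Real.norm_of_nonneg (by positivity)] at h4
  have h6 : ((Nat.log 2 n + 1 : ℕ) : ℝ) ^ m ≤ 4 ^ m * Real.log n ^ m := by
    rw [← mul_pow]
    exact pow_le_pow_left₀ (Nat.cast_nonneg _) hL m
  have h7 : (|C| * 4 ^ m + 1) * Real.log n ^ m ≤ (n:ℝ) ^ ε := by
    have hpos : (0:ℝ) < |C| * 4 ^ m + 1 := by positivity
    calc (|C| * 4 ^ m + 1) * Real.log n ^ m
        ≤ (|C| * 4 ^ m + 1) * (1 / (|C| * 4 ^ m + 1) * (n:ℝ) ^ ε) :=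
          mul_le_mul_of_nonneg_left h4 hpos.le
      _ = (n:ℝ) ^ ε := by field_simp
  have h8 : 0 ≤ Real.log n ^ m := by positivity
  calc C * ((Nat.log 2 n + 1 : ℕ) : ℝ) ^ m ≤ |C| * ((Nat.log 2 n + 1 : ℕ) : ℝ) ^ m :=
        mul_le_mul_of_nonneg_right (le_abs_self C) (by positivity)
    _ ≤ |C| * (4 ^ m * Real.log n ^ m) := mul_le_mul_of_nonneg_left h6 (abs_nonneg C)
    _ ≤ (|C| * 4 ^ m + 1) * Real.log n ^ m := by nlinarith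
    _ ≤ (n:ℝ) ^ ε := h7

theorem Prm_D {K h n : ℕ} (hK : 1 ≤ K) (hh : 1 ≤ h) :
    ∃ D : ℕ, K * D ^ h ≤ n ∧ n < K * (D + 1) ^ h := by
  classical
  have hex : ∃ D : ℕ, n < K * (D + 1) ^ h := by
    refine ⟨n, ?_⟩
    calc n < n + 1 := Nat.lt_succ_self n
      _ = (n + 1) ^ 1 := (pow_one _).symm
      _ ≤ (n + 1) ^ h := Nat.pow_le_pow_right (by omega) hh
      _ ≤ K * (n + 1) ^ h := Nat.le_mul_of_pos_left _ hK
  refine ⟨Nat.find hex, ?_, Nat.find_spec hex⟩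
  rcases Nat.eq_zero_or_pos (Nat.find hex) with h0 | h0
  · rw [h0, zero_pow (by omega), mul_zero]
    exact Nat.zero_le _
  · have h1 := Nat.find_min hex (m := Nat.find hex - 1) (by omega)
    rw [Nat.sub_add_cancel h0] at h1
    omega

theorem Prm_fix {k h T M m n p r t : ℕ} {δ η : ℝ} (hk : 1 ≤ k) (hh : 1 ≤ h) (hδ0 : 0 < δ)
    (hδ2 : δ ≤ 2) (hη0 : 0 < η) (hη : 2 * η ≤ δ / 2) (hTM : 2 * T + 2 * M ≤ k)
    (hexp : 2 * (h : ℝ) + δ / 8 ≤ m * (δ / 2 - 2 * η))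
    (ha : 512 * h * (256 * 4 ^ h * (k : ℝ) ^ 2) * ((Nat.log 2 n + 1 : ℕ) : ℝ) ^ 2
      ≤ (n : ℝ) ^ (2 * η))
    (hb : 2 ^ (M + 1) * (5 * h * h) ^ m * ((Nat.log 2 n + 1 : ℕ) : ℝ) ^ m ≤ (n : ℝ) ^ (δ / 8))
    (hc : 16 * ((Nat.log 2 n + 1 : ℕ) : ℝ) ^ 1 ≤ (n : ℝ) ^ (1 : ℝ))
    (hd : (4 * k * (2 * k + 4) ^ h) ^ 2 * 32 * ((Nat.log 2 n + 1 : ℕ) : ℝ) ^ 1 ≤ (n : ℝ) ^ δ)
    (he : 2 * k + 2 ≤ n) (hp : 1 ≤ p)
    (hpt : (p : ℝ) * ((t : ℝ) + 1) * 2 ^ r ≤ (n : ℝ) ^ (2 - δ)) :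
    ∃ (I d g ρ e : ℕ) (B : ℝ), d.Prime ∧ M ≤ d ∧ T ≤ d ∧ 1 ≤ I ∧ 1 ≤ g ∧ 1 ≤ ρ ∧ 1 ≤ e ∧
      h < 2 ^ ρ ∧ 1 ≤ B ∧
      2 * B * p * (4 * ρ * e) ≤ (d : ℝ) ^ (2 * h) ∧
      2 * (4 * ρ * e) * e ≤ d ^ (2 * h) ∧
      ((M * d ^ (2 * h) + 1 : ℕ) : ℝ) ^ h * B ^ h ≤ 2 ^ g ∧
      2 * (I * I) * d ^ (2 * h * h) * 2 ^ M * (g * ρ) ^ m ≤ e ^ m ∧
      4 * (2 ^ r * (r * t + 1)) ≤ I * I ∧
      I * d ^ h * (2 * T + 2 * M) + (k - (2 * T + 2 * M)) ≤ n ∧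
      8 * ((r : ℝ) + 1) * (n : ℝ) ^ (δ / 2) ≤ B := by
  have hnL : n < 2 ^ (Nat.log 2 n + 1) := Nat.lt_pow_succ_log_self (by norm_num) n
  obtain ⟨L, hL⟩ : ∃ L : ℕ, L = Nat.log 2 n + 1 := ⟨_, rfl⟩
  rw [← hL] at ha hb hc hd hnL
  rw [pow_one] at hc hd
  rw [Real.rpow_one] at hc
  have hL1 : 1 ≤ L := by omega
  have hL1r : (1:ℝ) ≤ L := by exact_mod_cast hL1
  have hn4 : 4 ≤ n := by omega
  have hn1 : (1:ℝ) ≤ n := by exact_mod_cast (by omega : 1 ≤ n)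
  have hn0 : (0:ℝ) < n := by linarith
  have hp1 : (1:ℝ) ≤ p := by exact_mod_cast hp
  have ht0 : (0:ℝ) ≤ t := Nat.cast_nonneg t
  have hr0 : (0:ℝ) ≤ r := Nat.cast_nonneg r
  have hk1 : (1:ℝ) ≤ k := by exact_mod_cast hk
  have hh1 : (1:ℝ) ≤ h := by exact_mod_cast hh
  -- r + 1 ≤ 2 L
  have hr2L : r < 2 * L := by
    have h1 : (2:ℝ) ^ r ≤ (n:ℝ) ^ (2:ℝ) := by
      have h2 : (1:ℝ) ≤ (p:ℝ) * ((t:ℝ) + 1) := by nlinarith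
      have h3 : (0:ℝ) < 2 ^ r := by positivity
      calc (2:ℝ) ^ r = 1 * 2 ^ r := (one_mul _).symm
        _ ≤ (p : ℝ) * ((t : ℝ) + 1) * 2 ^ r := mul_le_mul_of_nonneg_right h2 h3.le
        _ ≤ (n : ℝ) ^ (2 - δ) := hpt
        _ ≤ (n:ℝ) ^ (2:ℝ) := Real.rpow_le_rpow_of_exponent_le hn1 (by linarith)
    have h2 : 2 ^ r ≤ n ^ 2 := by
      have : (2:ℝ) ^ r ≤ (n:ℝ) ^ (2:ℕ) := by
        rw [← Real.rpow_natCast (n:ℝ) 2]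
        exact_mod_cast h1
      exact_mod_cast this
    have h3 : n ^ 2 < 2 ^ (2 * L) := by
      rw [pow_mul', ]
      exact Nat.pow_lt_pow_left hnL (by norm_num)
    exact (Nat.pow_lt_pow_iff_right (by norm_num : 1 < 2)).1 (lt_of_le_of_lt h2 h3)
  have hr2Lr : (r:ℝ) + 1 ≤ 2 * L := by exact_mod_cast (by omega : r + 1 ≤ 2 * L)
  -- τ
  obtain ⟨τ, hτ⟩ : ∃ τ : ℕ, τ = 2 ^ r * (r * t + 1) := ⟨_, rfl⟩
  have hτ1 : 1 ≤ τ := by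
    rw [hτ]; exact Nat.mul_pos (by positivity) (by omega)
  have hτb : (p:ℝ) * τ ≤ ((r:ℝ) + 1) * (n:ℝ) ^ (2 - δ) := by
    have h1 : (τ:ℝ) ≤ 2 ^ r * (((t:ℝ) + 1) * ((r:ℝ) + 1)) := by
      rw [hτ]; push_cast
      apply mul_le_mul_of_nonneg_left _ (by positivity)
      nlinarith
    calc (p:ℝ) * τ ≤ (p:ℝ) * (2 ^ r * (((t:ℝ) + 1) * ((r:ℝ) + 1))) :=
          mul_le_mul_of_nonneg_left h1 (by positivity)
      _ = ((r:ℝ) + 1) * ((p : ℝ) * ((t : ℝ) + 1) * 2 ^ r) := by ring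
      _ ≤ ((r:ℝ) + 1) * (n:ℝ) ^ (2 - δ) := mul_le_mul_of_nonneg_left hpt (by positivity)
  -- I
  obtain ⟨I, hI⟩ : ∃ I : ℕ, I = Nat.sqrt (4 * τ) + 1 := ⟨_, rfl⟩
  have hI1 : 1 ≤ I := by omega
  have hI4 : 4 * τ ≤ I * I := by
    rw [hI]
    exact le_of_lt (Nat.lt_succ_sqrt (4 * τ))
  have hI16 : I * I ≤ 16 * τ := by
    have h1 : Nat.sqrt (4 * τ) * Nat.sqrt (4 * τ) ≤ 4 * τ := Nat.sqrt_le (4 * τ)
    have h2 : 1 ≤ Nat.sqrt (4 * τ) := by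
      rw [Nat.le_sqrt]; omega
    rw [hI]
    nlinarith
  have hI16r : (I:ℝ) ^ 2 ≤ 16 * τ := by
    have : I ^ 2 ≤ 16 * τ := by rw [sq]; exact hI16
    exact_mod_cast this
  have hIr : (1:ℝ) ≤ I := by exact_mod_cast hI1
  -- D
  obtain ⟨D, hD1, hD2⟩ := Prm_D (K := 4 * k * I) (h := h) (n := n)
    (Nat.mul_pos (Nat.mul_pos (by norm_num) hk) hI1) hh
  have hX : (n:ℝ) ^ (2:ℕ) = (n:ℝ) ^ δ * (n:ℝ) ^ (2 - δ) := by
    rw [← Real.rpow_add hn0, ← Real.rpow_natCast (n:ℝ) 2]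
    congr 1
    push_cast; ring
  have hnμ : (0:ℝ) < (n:ℝ) ^ (2 - δ) := Real.rpow_pos_of_pos hn0 _
  have hτ' : (τ:ℝ) ≤ ((r:ℝ) + 1) * (n:ℝ) ^ (2 - δ) := by
    have : (0:ℝ) ≤ τ := Nat.cast_nonneg τ
    nlinarith
  have hDbig : 2 * k + 4 < D + 1 := by
    by_contra hcon
    have hcon' : D + 1 ≤ 2 * k + 4 := by omega
    have h1 : n < 4 * k * I * (2 * k + 4) ^ h :=
      lt_of_lt_of_le hD2 (Nat.mul_le_mul_left _ (Nat.pow_le_pow_left hcon' h))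
    have h2 : (n:ℝ) < 4 * k * I * (2 * k + 4) ^ h := by exact_mod_cast h1
    have h3 : (n:ℝ) ^ 2 < (4 * k * I * (2 * k + 4) ^ h) ^ 2 :=
      pow_lt_pow_left₀ h2 hn0.le (by norm_num)
    have h4 : ((4:ℝ) * k * I * (2 * k + 4) ^ h) ^ 2 ≤ (n:ℝ) ^ 2 := by
      calc ((4:ℝ) * k * I * (2 * k + 4) ^ h) ^ 2
          = (4 * k * (2 * k + 4) ^ h) ^ 2 * (I:ℝ) ^ 2 := by ring
        _ ≤ (4 * k * (2 * k + 4) ^ h) ^ 2 * (16 * (((r:ℝ) + 1) * (n:ℝ) ^ (2 - δ))) := by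
            apply mul_le_mul_of_nonneg_left _ (by positivity)
            linarith
        _ ≤ (4 * k * (2 * k + 4) ^ h) ^ 2 * (16 * ((2 * L) * (n:ℝ) ^ (2 - δ))) := by
            apply mul_le_mul_of_nonneg_left _ (by positivity)
            apply mul_le_mul_of_nonneg_left _ (by norm_num)
            exact mul_le_mul_of_nonneg_right hr2Lr hnμ.le
        _ = ((4 * k * (2 * k + 4) ^ h) ^ 2 * 32 * (L:ℝ)) * (n:ℝ) ^ (2 - δ) := by ring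
        _ ≤ (n:ℝ) ^ δ * (n:ℝ) ^ (2 - δ) := mul_le_mul_of_nonneg_right hd hnμ.le
        _ = (n:ℝ) ^ 2 := hX.symm
    linarith
  obtain ⟨d, hdp, hd1, hd2⟩ := Nat.exists_prime_lt_and_le_two_mul (D / 2) (by omega)
  have hdD : d ≤ D := by omega
  have hDd : D + 1 ≤ 2 * d := by omega
  have hdh : 4 * k * I * d ^ h ≤ n := le_trans (Nat.mul_le_mul_left _ (Nat.pow_le_pow_left hdD h)) hD1
  have hId : I * d ^ h * (4 * k) ≤ n := by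
    calc I * d ^ h * (4 * k) = 4 * k * I * d ^ h := by ring
      _ ≤ n := hdh
  have hId1 : I * d ^ h ≤ n := by
    refine le_trans ?_ hId
    exact Nat.le_mul_of_pos_right _ (by omega)
  have hdhn : d ^ h ≤ n := le_trans (Nat.le_mul_of_pos_left _ hI1) hId1
  obtain ⟨Q, hQ⟩ : ∃ Q : ℝ, Q = (d:ℝ) ^ (2 * h) := ⟨_, rfl⟩
  have hQ0 : 0 < Q := by
    rw [hQ]
    have : (0:ℝ) < d := by exact_mod_cast hdp.pos
    positivity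
  have hnlow : (n:ℝ) ^ 2 ≤ 256 * 4 ^ h * (k:ℝ) ^ 2 * τ * Q := by
    have h1 : n ≤ 4 * k * I * (2 * d) ^ h :=
      le_trans (le_of_lt hD2) (Nat.mul_le_mul_left _ (Nat.pow_le_pow_left hDd h))
    have h2 : (n:ℝ) ≤ 4 * k * I * (2 * d) ^ h := by exact_mod_cast h1
    calc (n:ℝ) ^ 2 ≤ (4 * k * I * (2 * d) ^ h) ^ 2 := pow_le_pow_left₀ hn0.le h2 2
      _ = 16 * k ^ 2 * 4 ^ h * Q * (I:ℝ) ^ 2 := by
          rw [hQ, mul_pow, mul_pow, mul_pow, ← pow_mul, mul_pow, mul_comm h 2, pow_mul 2 2 h]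
          ring
      _ ≤ 16 * k ^ 2 * 4 ^ h * Q * (16 * τ) := mul_le_mul_of_nonneg_left hI16r (by positivity)
      _ = 256 * 4 ^ h * (k:ℝ) ^ 2 * τ * Q := by ring
  obtain ⟨C, hC⟩ : ∃ C : ℝ, C = 256 * 4 ^ h * (k:ℝ) ^ 2 := ⟨_, rfl⟩
  rw [← hC] at ha hnlow
  have hC0 : 0 < C := by rw [hC]; positivity
  obtain ⟨X, hXd⟩ : ∃ X : ℝ, X = (n:ℝ) ^ δ := ⟨_, rfl⟩
  obtain ⟨Y, hYd⟩ : ∃ Y : ℝ, Y = (n:ℝ) ^ (δ / 2) := ⟨_, rfl⟩
  obtain ⟨Z, hZd⟩ : ∃ Z : ℝ, Z = (n:ℝ) ^ (δ / 2 - 2 * η) := ⟨_, rfl⟩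
  obtain ⟨W, hWd⟩ : ∃ W : ℝ, W = (n:ℝ) ^ (2 * η) := ⟨_, rfl⟩
  have hXYZW : X = Y * Z * W := by
    rw [hXd, hYd, hZd, hWd, ← Real.rpow_add hn0, ← Real.rpow_add hn0]
    congr 1; ring
  have hX0 : 0 < X := by rw [hXd]; exact Real.rpow_pos_of_pos hn0 _
  have hY1 : 1 ≤ Y := by rw [hYd]; exact Real.one_le_rpow hn1 (by linarith)
  have hZ1 : 1 ≤ Z := by rw [hZd]; exact Real.one_le_rpow hn1 (by linarith)
  have hW1 : 1 ≤ W := by rw [hWd]; exact Real.one_le_rpow hn1 (by linarith)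
  have hZY : Z ≤ Y := by
    rw [hZd, hYd]; exact Real.rpow_le_rpow_of_exponent_le hn1 (by linarith)
  have hkey : (p:ℝ) * X ≤ C * ((r:ℝ) + 1) * Q := by
    have h1 : (p:ℝ) * X * (n:ℝ) ^ (2 - δ) ≤ C * ((r:ℝ) + 1) * Q * (n:ℝ) ^ (2 - δ) := by
      calc (p:ℝ) * X * (n:ℝ) ^ (2 - δ) = (p:ℝ) * (n:ℝ) ^ 2 := by rw [hX, hXd]; ring
        _ ≤ (p:ℝ) * (C * τ * Q) := mul_le_mul_of_nonneg_left hnlow (by positivity)
        _ = C * Q * ((p:ℝ) * τ) := by ring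
        _ ≤ C * Q * (((r:ℝ) + 1) * (n:ℝ) ^ (2 - δ)) :=
            mul_le_mul_of_nonneg_left hτb (by positivity)
        _ = C * ((r:ℝ) + 1) * Q * (n:ℝ) ^ (2 - δ) := by ring
    exact le_of_mul_le_mul_right h1 hnμ
  have hW : 128 * h * C * ((r:ℝ) + 1) ^ 2 ≤ W := by
    have h1 : ((r:ℝ) + 1) ^ 2 ≤ (2 * L) ^ 2 := pow_le_pow_left₀ (by positivity) hr2Lr 2
    calc 128 * h * C * ((r:ℝ) + 1) ^ 2 ≤ 128 * h * C * (2 * L) ^ 2 :=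
          mul_le_mul_of_nonneg_left h1 (by positivity)
      _ = 512 * h * C * (L:ℝ) ^ 2 := by ring
      _ ≤ W := by rw [hWd]; exact ha
  obtain ⟨e, hed⟩ : ∃ e : ℕ, e = ⌈Z⌉₊ := ⟨_, rfl⟩
  have heZ : Z ≤ e := by rw [hed]; exact Nat.le_ceil Z
  have he2Z : (e:ℝ) ≤ 2 * Z := by
    have : (e:ℝ) < Z + 1 := by rw [hed]; exact Nat.ceil_lt_add_one (by linarith)
    linarith
  have he1 : 1 ≤ e := by
    have : (1:ℝ) ≤ e := by linarith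
    exact_mod_cast this
  refine ⟨I, d, 5 * h * L, h, e, 8 * ((r:ℝ) + 1) * Y, hdp, by omega, by omega, hI1, ?_, hh, he1,
    Nat.lt_two_pow_self, ?_, ?_, ?_, ?_, ?_, ?_, ?_, ?_⟩
  · exact Nat.mul_pos (Nat.mul_pos (by norm_num) hh) hL1
  · nlinarith
  · -- 1
    rw [← hQ]
    have hpos : 0 < C * ((r:ℝ) + 1) := by positivity
    have h1 : C * ((r:ℝ) + 1) * (2 * (8 * ((r:ℝ) + 1) * Y) * p * (4 * h * e)) ≤
        C * ((r:ℝ) + 1) * Q := by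
      calc C * ((r:ℝ) + 1) * (2 * (8 * ((r:ℝ) + 1) * Y) * p * (4 * h * e))
          = 64 * h * C * ((r:ℝ) + 1) ^ 2 * (Y * p) * e := by ring
        _ ≤ 64 * h * C * ((r:ℝ) + 1) ^ 2 * (Y * p) * (2 * Z) :=
            mul_le_mul_of_nonneg_left he2Z (by positivity)
        _ = (128 * h * C * ((r:ℝ) + 1) ^ 2) * (Y * p * Z) := by ring
        _ ≤ W * (Y * p * Z) := mul_le_mul_of_nonneg_right hW (by positivity)
        _ = p * X := by rw [hXYZW]; ring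
        _ ≤ C * ((r:ℝ) + 1) * Q := hkey
    exact le_of_mul_le_mul_left h1 hpos
  · -- 2
    have h2 : (2:ℝ) * (4 * h * e) * e ≤ (d:ℝ) ^ (2 * h) := by
      rw [← hQ]
      have hpos : 0 < C * ((r:ℝ) + 1) := by positivity
      have h1 : C * ((r:ℝ) + 1) * (2 * (4 * h * e) * e) ≤ C * ((r:ℝ) + 1) * Q := by
        calc C * ((r:ℝ) + 1) * (2 * (4 * h * e) * e)
            = 8 * h * C * ((r:ℝ) + 1) * (e:ℝ) ^ 2 := by ring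
          _ ≤ 8 * h * C * ((r:ℝ) + 1) * (2 * Z) ^ 2 :=
              mul_le_mul_of_nonneg_left (pow_le_pow_left₀ (by positivity) he2Z 2) (by positivity)
          _ = 32 * h * C * ((r:ℝ) + 1) * (Z * Z) := by ring
          _ ≤ (128 * h * C * ((r:ℝ) + 1) ^ 2) * (Z * Z) := by
              apply mul_le_mul_of_nonneg_right _ (by positivity)
              have h3 : 0 ≤ h * C * ((r:ℝ) + 1) := by positivity
              nlinarith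
          _ ≤ W * (Z * Z) := mul_le_mul_of_nonneg_right hW (by positivity)
          _ ≤ W * (Y * Z) := by
              apply mul_le_mul_of_nonneg_left _ (by positivity)
              exact mul_le_mul_of_nonneg_right hZY (by positivity)
          _ = 1 * X := by rw [hXYZW]; ring
          _ ≤ p * X := mul_le_mul_of_nonneg_right hp1 hX0.le
          _ ≤ C * ((r:ℝ) + 1) * Q := hkey
      exact le_of_mul_le_mul_left h1 hpos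
    exact_mod_cast h2
  · -- 3
    have hdn2 : d ^ (2 * h) * (4 * k) ≤ n * n := by
      rw [mul_comm 2 h, pow_mul, sq]
      calc d ^ h * d ^ h * (4 * k) ≤ (I * d ^ h * (4 * k)) * d ^ h := by
            have : d ^ h * d ^ h * (4 * k) ≤ I * (d ^ h * d ^ h * (4 * k)) :=
              Nat.le_mul_of_pos_left _ hI1
            calc d ^ h * d ^ h * (4 * k) ≤ I * (d ^ h * d ^ h * (4 * k)) := this
              _ = (I * d ^ h * (4 * k)) * d ^ h := by ring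
        _ ≤ n * n := Nat.mul_le_mul hId hdhn
    have h1 : M * d ^ (2 * h) + 1 ≤ n ^ 3 := by
      have h2 : M * d ^ (2 * h) ≤ n * n := by
        calc M * d ^ (2 * h) = d ^ (2 * h) * M := mul_comm _ _
          _ ≤ d ^ (2 * h) * (4 * k) := Nat.mul_le_mul_left _ (by omega)
          _ ≤ n * n := hdn2
      have h3 : n * n + 1 ≤ n ^ 3 := by
        have : n ^ 3 = n * (n * n) := by ring
        nlinarith
      omega
    have h1r : ((M * d ^ (2 * h) + 1 : ℕ) : ℝ) ≤ (n:ℝ) ^ 3 := by exact_mod_cast h1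
    have hYn : Y ≤ n := by
      rw [hYd]
      calc (n:ℝ) ^ (δ / 2) ≤ (n:ℝ) ^ (1:ℝ) := Real.rpow_le_rpow_of_exponent_le hn1 (by linarith)
        _ = n := Real.rpow_one _
    have hB : 8 * ((r:ℝ) + 1) * Y ≤ (n:ℝ) ^ 2 := by
      calc 8 * ((r:ℝ) + 1) * Y ≤ 8 * (2 * L) * Y := by
            apply mul_le_mul_of_nonneg_right _ (by positivity)
            linarith
        _ = 16 * L * Y := by ring
        _ ≤ n * n := mul_le_mul hc hYn (by positivity) hn0.le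
        _ = (n:ℝ) ^ 2 := by ring
    have hnn : (n:ℝ) ≤ 2 ^ L := by exact_mod_cast le_of_lt hnL
    calc ((M * d ^ (2 * h) + 1 : ℕ) : ℝ) ^ h * (8 * ((r:ℝ) + 1) * Y) ^ h
        = (((M * d ^ (2 * h) + 1 : ℕ) : ℝ) * (8 * ((r:ℝ) + 1) * Y)) ^ h := (mul_pow _ _ _).symm
      _ ≤ ((n:ℝ) ^ 3 * (n:ℝ) ^ 2) ^ h := by
          apply pow_le_pow_left₀ (by positivity)
          exact mul_le_mul h1r hB (by positivity) (by positivity)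
      _ = (n:ℝ) ^ (5 * h) := by rw [← pow_add, ← pow_mul]
      _ ≤ ((2:ℝ) ^ L) ^ (5 * h) := pow_le_pow_left₀ hn0.le hnn _
      _ = 2 ^ (5 * h * L) := by rw [← pow_mul, mul_comm L]
  · -- 4
    have h1 : I * I * d ^ (2 * h * h) ≤ n ^ (2 * h) := by
      calc I * I * d ^ (2 * h * h) ≤ I ^ (2 * h) * d ^ (2 * h * h) := by
            apply Nat.mul_le_mul_right
            calc I * I = I ^ 2 := (sq I).symm
              _ ≤ I ^ (2 * h) := Nat.pow_le_pow_right hI1 (by omega)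
        _ = (I * d ^ h) ^ (2 * h) := by
            rw [mul_pow, ← pow_mul, mul_comm h (2 * h)]
        _ ≤ n ^ (2 * h) := Nat.pow_le_pow_left hId1 _
    have h1r : (I:ℝ) * I * (d:ℝ) ^ (2 * h * h) ≤ (n:ℝ) ^ (2 * h) := by exact_mod_cast h1
    have h2 : (2:ℝ) * (I * I) * d ^ (2 * h * h) * 2 ^ M * (5 * h * L * h) ^ m ≤ (e:ℝ) ^ m := by
      calc (2:ℝ) * (I * I) * d ^ (2 * h * h) * 2 ^ M * (5 * h * L * h) ^ m
          = ((I:ℝ) * I * (d:ℝ) ^ (2 * h * h)) *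
              (2 ^ (M + 1) * (5 * h * h) ^ m * (L:ℝ) ^ m) := by
            have : (5 * (h:ℝ) * L * h) ^ m = (5 * h * h) ^ m * (L:ℝ) ^ m := by
              rw [← mul_pow]; congr 1; ring
            rw [this, pow_succ]; ring
        _ ≤ (n:ℝ) ^ (2 * h) * (n:ℝ) ^ (δ / 8) :=
            mul_le_mul h1r hb (by positivity) (by positivity)
        _ = (n:ℝ) ^ (2 * (h:ℝ) + δ / 8) := by
            rw [Real.rpow_add hn0, ← Real.rpow_natCast (n:ℝ) (2 * h)]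
            push_cast; rfl
        _ ≤ (n:ℝ) ^ (m * (δ / 2 - 2 * η)) := Real.rpow_le_rpow_of_exponent_le hn1 hexp
        _ = Z ^ m := by
            rw [hZd, ← Real.rpow_natCast, ← Real.rpow_mul hn0.le]
            congr 1; ring
        _ ≤ (e:ℝ) ^ m := pow_le_pow_left₀ (by linarith) heZ m
    exact_mod_cast h2
  · rw [← hτ]; exact hI4
  · -- 5
    have h1 : I * d ^ h * (2 * T + 2 * M) ≤ I * d ^ h * k := Nat.mul_le_mul_left _ hTM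
    have h2 : I * d ^ h * (4 * k) = 4 * (I * d ^ h * k) := by ring
    omega
  · rw [hYd]

theorem params {k l h : ℕ} {μ : ℝ} (hlk : l ≤ k) (hμ0 : 0 ≤ μ) (hμ2 : μ < 2) (hh : 1 ≤ h)
    (hh2 : 12 * (h : ℝ) ≤ (4 * (l : ℝ) - 3 * k - 2) * (2 - μ)) :
    ∃ T M n₀ : ℕ, h + (k - l) ≤ T ∧ k - l < M ∧ h ≤ M ∧ 2 * T + 2 * M ≤ k ∧
      ∀ n ≥ n₀, ∀ p r t : ℕ, 1 ≤ p → (p : ℝ) * ((t : ℝ) + 1) * 2 ^ r ≤ (n : ℝ) ^ μ →
        ∃ (I d g ρ e : ℕ) (B : ℝ), d.Prime ∧ M ≤ d ∧ T ≤ d ∧ 1 ≤ I ∧ 1 ≤ g ∧ 1 ≤ ρ ∧ 1 ≤ e ∧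
          h < 2 ^ ρ ∧ 1 ≤ B ∧
          2 * B * p * (4 * ρ * e) ≤ (d : ℝ) ^ (2 * h) ∧
          2 * (4 * ρ * e) * e ≤ d ^ (2 * h) ∧
          ((M * d ^ (2 * h) + 1 : ℕ) : ℝ) ^ h * B ^ h ≤ 2 ^ g ∧
          2 * (I * I) * d ^ (2 * h * h) * 2 ^ M * (g * ρ) ^ (M - (k - l)) ≤ e ^ (M - (k - l)) ∧
          4 * (2 ^ r * (r * t + 1)) ≤ I * I ∧
          I * d ^ h * (2 * T + 2 * M) + (k - (2 * T + 2 * M)) ≤ n ∧
          8 * ((r : ℝ) + 1) * (n : ℝ) ^ ((2 - μ) / 2) ≤ B := by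
  have hδ0 : 0 < 2 - μ := by linarith
  have hδ2 : 2 - μ ≤ 2 := by linarith
  have hhr : (1:ℝ) ≤ h := by exact_mod_cast hh
  have hkl : 3 * k + 2 + 6 * h ≤ 4 * l := by
    have h1 : 6 * (h:ℝ) ≤ 4 * l - 3 * k - 2 := by
      by_contra hcon
      push Not at hcon
      rcases le_or_gt (4 * (l:ℝ) - 3 * k - 2) 0 with h0 | h0
      · have : (4 * (l : ℝ) - 3 * k - 2) * (2 - μ) ≤ 0 := mul_nonpos_of_nonpos_of_nonneg h0 hδ0.le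
        linarith
      · have : (4 * (l : ℝ) - 3 * k - 2) * (2 - μ) ≤ (4 * (l : ℝ) - 3 * k - 2) * 2 :=
          mul_le_mul_of_nonneg_left hδ2 h0.le
        linarith
    have h2 : 3 * (k:ℝ) + 2 + 6 * h ≤ 4 * l := by linarith
    exact_mod_cast h2
  obtain ⟨m, hm⟩ : ∃ m : ℕ, m = (k / 2 - (h + (k - l))) - (k - l) := ⟨_, rfl⟩
  have hk1 : 1 ≤ k := by omega
  have hkr : (1:ℝ) ≤ k := by exact_mod_cast hk1
  have hmk : 2 * m ≤ k := by omega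
  have hmlow : 4 * l ≤ 2 * m + 3 * k + 1 + 2 * h := by omega
  have hmlowr : 4 * (l:ℝ) ≤ 2 * m + 3 * k + 1 + 2 * h := by exact_mod_cast hmlow
  have hmkr : 2 * (m:ℝ) ≤ k := by exact_mod_cast hmk
  have hmδ : 4 * (h:ℝ) + (2 - μ) / 2 ≤ m * (2 - μ) := by
    have h1 : (4 * (l : ℝ) - 3 * k - 2) * (2 - μ) ≤ (2 * m + 2 * h - 1) * (2 - μ) :=
      mul_le_mul_of_nonneg_right (by linarith) hδ0.le
    have h2 : (h:ℝ) * (2 - μ) ≤ h * 2 := mul_le_mul_of_nonneg_left hδ2 (by linarith)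
    nlinarith
  obtain ⟨η, hη⟩ : ∃ η : ℝ, η = (2 - μ) / (16 * k) := ⟨_, rfl⟩
  have hη0 : 0 < η := by rw [hη]; positivity
  have hηk : η * k = (2 - μ) / 16 := by rw [hη]; field_simp
  have hηle : η ≤ (2 - μ) / 16 := by rw [← hηk]; nlinarith
  have hmη : m * η ≤ (2 - μ) / 32 := by nlinarith
  obtain ⟨na, ha⟩ := Prm_log (512 * h * (256 * 4 ^ h * (k : ℝ) ^ 2)) 2 (ε := 2 * η) (by linarith)
  obtain ⟨nb, hb⟩ := Prm_log (2 ^ (k / 2 - (h + (k - l)) + 1) * (5 * h * h) ^ m) m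
    (ε := (2 - μ) / 8) (by linarith)
  obtain ⟨nc, hc⟩ := Prm_log 16 1 (ε := 1) one_pos
  obtain ⟨nd, hd⟩ := Prm_log ((4 * k * (2 * k + 4) ^ h) ^ 2 * 32) 1 (ε := 2 - μ) hδ0
  refine ⟨h + (k - l), k / 2 - (h + (k - l)), na + nb + nc + nd + (2 * k + 2), le_rfl, by omega,
    by omega, by omega, ?_⟩
  intro n hn p r t hp hpt
  rw [← hm]
  refine Prm_fix (δ := 2 - μ) (η := η) hk1 hh hδ0 hδ2 hη0 (by linarith) (by omega) ?_ ?_ ?_ ?_ ?_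
    (by omega) hp (by rw [sub_sub_cancel]; exact hpt)
  · nlinarith
  · exact ha n (by omega)
  · exact hb n (by omega)
  · exact hc n (by omega)
  · exact hd n (by omega)

end Pool.Agent.H78.KK
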