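import Pool.Agent.H78.KK.Expl
import Pool.Agent.H78.KK.Prm

/-!
The lower bound for `k`-clique with gates of large fan-in.
-/

namespace Pool.Agent.H78.KK

theorem zmod_injective {M d : ℕ} (h : M ≤ d) :
    Function.Injective fun m : Fin M => ((m : ℕ) : ZMod d) := by
  intro a b hab
  have h1 : ((a : ℕ) : ZMod d) = ((b : ℕ) : ZMod d) := hab
  rw [ZMod.natCast_eq_natCast_iff'] at h1
  rw [Nat.mod_eq_of_lt (a.2.trans_le h), Nat.mod_eq_of_lt (b.2.trans_le h)] at h1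
  exact Fin.ext h1

theorem main {k l : ℕ} {μ : ℝ} (hlk : l ≤ k) (hμ0 : 0 ≤ μ) (hμ2 : μ < 2) :
    ∃ n₀ : ℕ, ∀ n ≥ n₀, ∀ s p q r t : ℕ, 1 ≤ p → 1 ≤ q →
      (p : ℝ) * ((t : ℝ) + 1) * 2 ^ r ≤ (n : ℝ) ^ μ →
      ∀ (C : Circuit n s p q r t) (out : Fin s) (θ : ℝ),
        (∀ G : SimpleGraph (Fin n), ¬ G.CliqueFree k → θ ≤ C.val out G) →
        (∀ G : SimpleGraph (Fin n), G.CliqueFree l → C.val out G < θ) →
        (n : ℝ) ^ ((2 - μ) ^ 2 * (4 * (l : ℝ) - 3 * k - 2) / (24 * ((q : ℝ) + 1)) - 1 - μ / 2) ≤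
          s := by
  set K' : ℝ := 4 * (l : ℝ) - 3 * k - 2 with hK'
  set h : ℕ := ⌊K' * (2 - μ) / 12⌋₊ with hh
  have hδ : 0 < 2 - μ := by linarith
  have hlt : K' * (2 - μ) / 12 < h + 1 := Nat.lt_floor_add_one _
  have hexp : ∀ q : ℕ, (2 - μ) ^ 2 * K' / (24 * ((q : ℝ) + 1)) ≤
      (2 - μ) / 2 * (((h : ℝ) + 1) / (q + 1)) := by
    intro q
    have hq0 : (0 : ℝ) < (q : ℝ) + 1 := by positivity
    have e1 : (2 - μ) ^ 2 * K' / (24 * ((q : ℝ) + 1)) =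
        (2 - μ) / 2 * ((K' * (2 - μ) / 12) / (q + 1)) := by
      field_simp
      ring
    rw [e1]
    exact mul_le_mul_of_nonneg_left (div_le_div_of_nonneg_right hlt.le hq0.le) (by linarith)
  -- the trivial case
  have htriv : ∀ n : ℕ, 1 ≤ n → ∀ s q : ℕ, ∀ _ : Fin s, h < q + 1 →
      (n : ℝ) ^ ((2 - μ) ^ 2 * K' / (24 * ((q : ℝ) + 1)) - 1 - μ / 2) ≤ s := by
    intro n hn s q out hhq
    have hn1 : (1 : ℝ) ≤ n := by exact_mod_cast hn
    have hs : (1 : ℝ) ≤ s := by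
      have : 1 ≤ s := by
        have := out.2
        omega
      exact_mod_cast this
    have hq0 : (0 : ℝ) < (q : ℝ) + 1 := by positivity
    have h1 : ((h : ℝ) + 1) / (q + 1) ≤ 1 := by
      rw [div_le_one hq0]
      have : ((h + 1 : ℕ) : ℝ) ≤ ((q + 1 : ℕ) : ℝ) := by exact_mod_cast hhq
      push_cast at this
      exact this
    have h2 := hexp q
    have h3 : (2 - μ) / 2 * (((h : ℝ) + 1) / (q + 1)) ≤ (2 - μ) / 2 * 1 :=
      mul_le_mul_of_nonneg_left h1 (by linarith)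
    refine (Real.rpow_le_rpow_of_exponent_le hn1 (show _ ≤ (0 : ℝ) by linarith)).trans ?_
    rw [Real.rpow_zero]
    exact hs
  by_cases hh1 : 1 ≤ h
  swap
  · refine ⟨1, fun n hn s p q r t _ hq _ C out θ _ _ => htriv n hn s q out (by omega)⟩
  have hK0 : 0 ≤ K' * (2 - μ) / 12 := by
    by_contra hcon
    push Not at hcon
    have := Nat.floor_of_nonpos hcon.le
    omega
  have hfl : (h : ℝ) ≤ K' * (2 - μ) / 12 := Nat.floor_le hK0
  obtain ⟨T, M, n₀, hT, hM, hhM, hk, hP⟩ := params hlk hμ0 hμ2 hh1 (by linarith)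
  refine ⟨max 1 n₀, fun n hn s p q r t hp hq hcond C out θ hC1 hC2 => ?_⟩
  have hn1 : 1 ≤ n := (le_max_left _ _).trans hn
  have hn1R : (1 : ℝ) ≤ n := by exact_mod_cast hn1
  have hn0 : (0 : ℝ) < n := by linarith
  by_cases hhq : h < q + 1
  · exact htriv n hn1 s q out hhq
  push Not at hhq
  obtain ⟨I, d, g, ρ, e, B, hd, hMd, hTd, hI, hg, hρ, he, hρh, hB, h1, h2, h3, h4, h5, h6, h7⟩ :=
    hP n ((le_max_right _ _).trans hn) p r t hp hcond
  have : Fact d.Prime := ⟨hd⟩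
  have hcard : Fintype.card (ZMod d) = d := ZMod.card d
  set L : ℕ := h / (q + 1) with hL
  have hL1 : 1 ≤ L := (Nat.one_le_div_iff (by omega)).2 hhq
  have hqL : (q + 1) * L ≤ h := by
    rw [mul_comm]
    exact Nat.div_mul_le_self h (q + 1)
  have hmain := explicit (F := ZMod d) (T := T) (I := I) hh1 hlk hT hM hhM hk (by rw [hcard]; exact h6)
    (fun m : Fin M => ((m : ℕ) : ZMod d)) (zmod_injective hMd)
    (fun m : Fin T => ((m : ℕ) : ZMod d)) (zmod_injective hTd)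
    hg hρ he hρh hB hp hq hL1 hqL (by rw [hcard]; exact h1) (by rw [hcard]; exact h2)
    (by rw [hcard]; exact h3) (by rw [hcard]; exact h4) h5 C out θ hC1
    (fun G hG => not_le.2 (hC2 G hG))
  -- the exponents
  have hr1 : (1 : ℝ) ≤ 8 * ((r : ℝ) + 1) := by
    have : (0 : ℝ) ≤ r := by positivity
    linarith
  have hr0 : (0 : ℝ) < 8 * ((r : ℝ) + 1) := by linarith
  have hX0 : (0 : ℝ) < (n : ℝ) ^ ((2 - μ) / 2) := by positivity
  have h8 : 8 * ((r : ℝ) + 1) * ((n : ℝ) ^ ((2 - μ) / 2)) ^ L ≤ B ^ L := by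
    calc 8 * ((r : ℝ) + 1) * ((n : ℝ) ^ ((2 - μ) / 2)) ^ L
        ≤ (8 * ((r : ℝ) + 1)) ^ L * ((n : ℝ) ^ ((2 - μ) / 2)) ^ L := by
          refine mul_le_mul_of_nonneg_right ?_ (by positivity)
          exact le_self_pow₀ hr1 (by omega)
      _ = (8 * ((r : ℝ) + 1) * (n : ℝ) ^ ((2 - μ) / 2)) ^ L := (mul_pow _ _ L).symm
      _ ≤ B ^ L := pow_le_pow_left₀ (by positivity) h7 L
  have hs0 : (0 : ℝ) ≤ s := by positivity
  have h9 : (2 : ℝ) ^ r * (r * t + 1) ≤ (r + 1) * (n : ℝ) ^ μ := by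
    have e1 : (r : ℝ) * t + 1 ≤ (t + 1) * (r + 1) := by
      have : (0 : ℝ) ≤ (r : ℝ) := by positivity
      have : (0 : ℝ) ≤ (t : ℝ) := by positivity
      linarith
    have e2 : ((t : ℝ) + 1) * 2 ^ r ≤ (n : ℝ) ^ μ := by
      refine le_trans ?_ hcond
      have hp1 : (1 : ℝ) ≤ p := by exact_mod_cast hp
      have : (0 : ℝ) ≤ ((t : ℝ) + 1) * 2 ^ r := by positivity
      nlinarith
    calc (2 : ℝ) ^ r * (r * t + 1) ≤ 2 ^ r * ((t + 1) * (r + 1)) :=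
          mul_le_mul_of_nonneg_left e1 (by positivity)
      _ = (r + 1) * ((t + 1) * 2 ^ r) := by ring
      _ ≤ (r + 1) * (n : ℝ) ^ μ := mul_le_mul_of_nonneg_left e2 (by positivity)
  have h10 : ((n : ℝ) ^ ((2 - μ) / 2)) ^ L ≤ (n : ℝ) ^ μ * s := by
    have e1 : 8 * ((r : ℝ) + 1) * ((n : ℝ) ^ ((2 - μ) / 2)) ^ L ≤
        8 * ((r : ℝ) + 1) * ((n : ℝ) ^ μ * s) := by
      calc 8 * ((r : ℝ) + 1) * ((n : ℝ) ^ ((2 - μ) / 2)) ^ L ≤ B ^ L := h8
        _ ≤ 8 * (2 ^ r * (r * t + 1)) * s := hmain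
        _ ≤ 8 * ((r + 1) * (n : ℝ) ^ μ) * s := by
            refine mul_le_mul_of_nonneg_right ?_ hs0
            linarith
        _ = _ := by ring
    exact le_of_mul_le_mul_left e1 hr0
  rw [← Real.rpow_natCast, ← Real.rpow_mul hn0.le] at h10
  have h11 : (n : ℝ) ^ ((2 - μ) / 2 * L - μ) ≤ s := by
    rw [Real.rpow_sub hn0, div_le_iff₀ (by positivity), mul_comm (s : ℝ)]
    exact h10
  refine le_trans (Real.rpow_le_rpow_of_exponent_le hn1R ?_) h11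
  have h12 := hexp q
  have h13 : ((h : ℝ) + 1) / (q + 1) ≤ L + 1 := by
    rw [div_le_iff₀ (by positivity)]
    have e1 : h + 1 ≤ (L + 1) * (q + 1) := by
      have := Nat.lt_div_mul_add (a := h) (b := q + 1) (by omega)
      have e2 : (L + 1) * (q + 1) = h / (q + 1) * (q + 1) + (q + 1) := by rw [hL]; ring
      omega
    exact_mod_cast e1
  have h14 := mul_le_mul_of_nonneg_left h13 (show 0 ≤ (2 - μ) / 2 by linarith)
  linarith

end Pool.Agent.H78.KK
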