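import Pool.Agent.H78.KK.Chn
import Pool.Agent.H95.MT.Gts

/-!
The positive error of one gate (version with a base `B`).
-/

namespace Pool.Agent.H78.KK

open Finset Classical
open H13 (cnt acc Closed)
open Pool.Agent.H95.MT (star lev Cl le_star star_eq star_mono star_le acc_lev mem_lev next_pieces
  clo_real ext_lo ext_up DGate not_acc_lev)

variable {X : Type} [Fintype X] [DecidableEq X] {Ω A : Type} [Fintype Ω] [Fintype A]

/-- The data needed by the approximation method, with a base `B`. -/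
structure Data (N : Ω → Finset X) (Y : A → Finset X) (L K : ℕ) (p R Q B δ : ℝ) : Prop where
  hL : 1 ≤ L
  hp : 1 ≤ p
  hR : 1 ≤ R
  hB : 1 ≤ B
  hQ : 2 * B * p * R ≤ Q
  hδ : 0 ≤ δ
  hδ1 : δ < 1
  hΩ : 0 < Fintype.card Ω
  hA : 0 < Fintype.card A
  hcover : ∀ J : Finset (Finset X), J.Nonempty → (∀ S ∈ J, S.card ≤ K) →
      (∀ U : Finset X, ((J.filter (fun S => U ⊆ S)).card : ℝ) * R ^ U.card ≤ J.card) →
      cnt (fun w => ∀ S ∈ J, ¬ S ⊆ N w) ≤ δ * Fintype.card Ω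
  hpos : ∀ S : Finset X, S.card ≤ K →
      cnt (fun α => S ⊆ Y α) * Q ^ S.card ≤ Fintype.card A
  hneg : ((univ.filter (fun T : Finset X => T.card ≤ K)).card : ℝ) * δ ≤ (1 / B) ^ L

/-- Positive error of a gate with certificates of size `p`. -/
theorem step_lo {N : Ω → Finset X} {Y : A → Finset X} {L K : ℕ} {p R Q B δ : ℝ}
    (hD : Data N Y L K p R Q B δ) (hK : 2 * L ≤ K) {ι : Type} (F : ι → Finset X → ℝ)
    (hF : ∀ j, Cl N K δ (F j)) (h : Finset X → ℝ)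
    (hcert : ∀ U, ∃ T : Finset ι, (T.card : ℝ) ≤ p ∧
      ∀ x, (∀ j ∈ T, star L (F j) x ≤ star L (F j) U) → h x ≤ h U)
    (G : Finset X → ℝ) (hG : ∀ W, h W ≤ G W) :
    cnt (fun α => star L G (Y α) < h (Y α)) ≤ (1 / B) ^ (L + 1) * Fintype.card A := by
  choose T hTc hT using hcert
  have hp : ∀ (U : Finset X) (j : ι), ∃ 𝓜 : Finset (Finset X), U.card ≤ L →
      (∀ Z ∈ 𝓜, Z.Nonempty ∧ Disjoint U Z ∧ Z.card ≤ L) ∧
      (∀ a, a ≤ L → ((𝓜.filter (fun Z => Z.card = a)).card : ℝ) ≤ R ^ a) ∧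
      ∀ W ∈ lev K (F j) (star L (F j) U), W.card ≤ L → ∃ Z ∈ 𝓜, Z ⊆ W := by
    intro U j
    by_cases hU : U.card ≤ L
    · obtain ⟨𝓜, h1⟩ := next_pieces N K δ R hD.hR hD.hcover _ (hF j (star L (F j) U)) U
        (not_acc_lev (F j) hU) L (by omega)
      exact ⟨𝓜, fun _ => h1⟩
    · exact ⟨∅, fun h => absurd h hU⟩
  choose P hP using hp
  refine chain_count Y _ L L p R Q B hD.hp hD.hR hD.hB hD.hQ (fun S hS => hD.hpos S (by omega))
    (fun U => (T U).biUnion (P U)) ?_ ?_ ?_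
  · intro U hU Z hZ
    obtain ⟨j, _, hj⟩ := Finset.mem_biUnion.1 hZ
    exact (hP U j hU).1 Z hj
  · intro U hU a ha
    have h1 : ((T U).biUnion (P U)).filter (fun Z => Z.card = a) ⊆
        (T U).biUnion fun j => (P U j).filter (fun Z => Z.card = a) := by
      intro Z hZ
      rw [Finset.mem_filter, Finset.mem_biUnion] at hZ
      obtain ⟨⟨j, hj, hZj⟩, hZa⟩ := hZ
      exact Finset.mem_biUnion.2 ⟨j, hj, Finset.mem_filter.2 ⟨hZj, hZa⟩⟩
    have h2 : ((((T U).biUnion (P U)).filter (fun Z => Z.card = a)).card : ℝ) ≤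
        ∑ j ∈ T U, (((P U j).filter (fun Z => Z.card = a)).card : ℝ) := by
      exact_mod_cast (Finset.card_le_card h1).trans Finset.card_biUnion_le
    have hR := hD.hR
    calc ((((T U).biUnion (P U)).filter (fun Z => Z.card = a)).card : ℝ)
        ≤ ∑ j ∈ T U, (((P U j).filter (fun Z => Z.card = a)).card : ℝ) := h2
      _ ≤ ∑ _j ∈ T U, R ^ a := Finset.sum_le_sum fun j _ => (hP U j hU).2.1 a ha
      _ = ((T U).card : ℝ) * R ^ a := by rw [Finset.sum_const, nsmul_eq_mul]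
      _ ≤ p * R ^ a := mul_le_mul_of_nonneg_right (hTc U) (by positivity)
  · intro α hα U hU hUY
    have h1 : h U < h (Y α) := by
      have h2 : G U ≤ star L G (Y α) := le_star G hUY hU
      linarith [hG U]
    have h2 : ¬ ∀ j ∈ T U, star L (F j) (Y α) ≤ star L (F j) U := fun h3 =>
      absurd (hT U (Y α) h3) (not_le.2 h1)
    push Not at h2
    obtain ⟨j, hj, hlt⟩ := h2
    obtain ⟨W, hW, hWc, he⟩ := star_eq (L := L) (F j) (Y α)
    rw [he] at hlt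
    obtain ⟨Z, hZ, hZW⟩ := (hP U j hU).2.2 W (mem_lev.2 ⟨by omega, hlt⟩) hWc
    exact ⟨Z, Finset.mem_biUnion.2 ⟨j, hj, hZ⟩, hZW.trans hW⟩

/-- Positive error of a function which has small certificates. -/
theorem step_up {N : Ω → Finset X} {Y : A → Finset X} {L K K0 : ℕ} {p R Q B δ : ℝ}
    (hD : Data N Y L K p R Q B δ) (hK : K0 + L ≤ K) (h : Finset X → ℝ)
    (hcert : ∀ x, ∃ W, W ⊆ x ∧ W.card ≤ K0 ∧ h x ≤ h W)
    (G : Finset X → ℝ) (hcl : Cl N K δ G) (hG : ∀ W, h W ≤ G W) :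
    cnt (fun α => star L G (Y α) < h (Y α)) ≤ (1 / B) ^ (L + 1) * Fintype.card A := by
  have hp : ∀ U : Finset X, ∃ 𝓜 : Finset (Finset X), U.card ≤ L →
      (∀ Z ∈ 𝓜, Z.Nonempty ∧ Disjoint U Z ∧ Z.card ≤ K0) ∧
      (∀ a, a ≤ K0 → ((𝓜.filter (fun Z => Z.card = a)).card : ℝ) ≤ R ^ a) ∧
      ∀ W ∈ lev K G (star L G U), W.card ≤ K0 → ∃ Z ∈ 𝓜, Z ⊆ W := by
    intro U
    by_cases hU : U.card ≤ L
    · obtain ⟨𝓜, h1⟩ := next_pieces N K δ R hD.hR hD.hcover _ (hcl (star L G U)) U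
        (not_acc_lev G hU) K0 (by omega)
      exact ⟨𝓜, fun _ => h1⟩
    · exact ⟨∅, fun h => absurd h hU⟩
  choose P hP using hp
  have hp1 := hD.hp
  have hR := hD.hR
  refine chain_count Y _ L K0 p R Q B hD.hp hD.hR hD.hB hD.hQ
    (fun S hS => hD.hpos S (by omega)) P ?_ ?_ ?_
  · intro U hU Z hZ
    exact (hP U hU).1 Z hZ
  · intro U hU a ha
    refine ((hP U hU).2.1 a ha).trans ?_
    exact le_mul_of_one_le_left (by positivity) hp1
  · intro α hα U hU hUY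
    obtain ⟨W, hW, hWc, he⟩ := hcert (Y α)
    have h1 : star L G U < G W := by
      have h2 : star L G U ≤ star L G (Y α) := star_mono G hUY
      linarith [hG W]
    obtain ⟨Z, hZ, hZW⟩ := (hP U hU).2.2 W (mem_lev.2 ⟨by omega, h1⟩) hWc
    exact ⟨Z, hZ, hZW.trans hW⟩

end Pool.Agent.H78.KK
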